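import Pool.Agent.Work.MP_376faf_co_win.Poly

/-! Window theorem: weighted masses of flat bridges, lengths, small boxes. -/

set_option autoImplicit false

namespace Pool.Agent.Work.MP_376faf_co_win

open Pool.Agent.Work.MP_376faf_co_lower Pool.Agent.Work.MP_376faf_co_hw
open scoped ENNReal

/-- a walk fits into its box -/
theorem len_box {l : List Pt} (h : Walk l) : l.length + 1 ≤ (rg px l + 1) * (rg py l + 1) := by
  obtain ⟨i0, hi0, hi1, -⟩ := last_min (fun i => (pos l i).1) l.length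
  obtain ⟨j0, hj0, hj1, -⟩ := last_min (fun i => (pos l i).2) l.length
  have hx : ∀ i ≤ l.length, (pos l i).1 - (pos l i0).1 ≤ rg px l := fun i hi => by
    have := rg_ge px l hi hi0
    simpa using this
  have hy : ∀ i ≤ l.length, (pos l i).2 - (pos l j0).2 ≤ rg py l := fun i hi => by
    have := rg_ge py l hi hj0
    simpa using this
  have h1 := Finset.card_le_card_of_injOn (s := Finset.range (l.length + 1))
    (t := Finset.range (rg px l + 1) ×ˢ Finset.range (rg py l + 1))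
    (fun i => (((pos l i).1 - (pos l i0).1).toNat, ((pos l i).2 - (pos l j0).2).toNat)) ?_ ?_
  · rwa [Finset.card_range, Finset.card_product, Finset.card_range, Finset.card_range] at h1
  · intro i hi
    rw [Finset.mem_coe, Finset.mem_range] at hi
    rw [Finset.mem_coe, Finset.mem_product, Finset.mem_range, Finset.mem_range]
    have e1 := hx i (by omega)
    have e2 := hy i (by omega)
    constructor
    · simp only; omega
    · simp only; omega
  · intro i hi j hj hij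
    rw [Finset.mem_coe, Finset.mem_range] at hi hj
    simp only [Prod.mk.injEq] at hij
    have e1 := hi1 i (by omega)
    have e2 := hi1 j (by omega)
    have e3 := hj1 i (by omega)
    have e4 := hj1 j (by omega)
    refine h.2 (by simp only [Set.mem_Iic]; omega) (by simp only [Set.mem_Iic]; omega) ?_
    ext
    · omega
    · omega

/-- flat bridges in a window of spans -/
def FlS (A B H : ℕ) (l : List Pt) : Prop :=
  Bridge l ∧ (A : ℤ) ≤ l.sum.1 ∧ l.sum.1 < (B : ℤ) ∧ rg py l ≤ H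

/-- their mass weighted by the inverse number of cut indices -/
noncomputable def RW (x : ℝ≥0∞) (A B H : ℕ) : ℝ≥0∞ :=
  ∑' l : {l // FlS A B H l}, x ^ l.1.length * ((rr l.1 : ℕ) : ℝ≥0∞)⁻¹

theorem FlS.ne {A B H : ℕ} (hA : 1 ≤ A) {l : List Pt} (h : FlS A B H l) : l ≠ [] := by
  rintro rfl
  have := h.2.1
  simp at this
  omega

theorem FlS.len {A B H L : ℕ} (hL : B * (H + 1) ≤ L + 1) {l : List Pt} (h : FlS A B H l) :
    l.length ≤ L := by
  have h1 := len_box h.1.1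
  have h2 := rg_bridge h.1
  have h3 := h.2.2.1
  have h4 : rg px l + 1 ≤ B := by omega
  have h5 : (rg px l + 1) * (rg py l + 1) ≤ B * (H + 1) :=
    Nat.mul_le_mul h4 (by have := h.2.2.2; omega)
  omega

theorem RW_le (x : ℝ≥0∞) {A B H L : ℕ} (hA : 1 ≤ A) (hL : B * (H + 1) ≤ L + 1) :
    RW x A B H ≤ ∑' p : ℕ × ℤ, WL x L (((A + p.1 : ℕ) : ℤ), p.2) := by
  have h1 : RW x A B H = ∑' l : {l // FlS A B H l}, xh x L l.1.length *
      ((rr l.1 : ℕ) : ℝ≥0∞)⁻¹ := by
    unfold RW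
    refine tsum_congr fun l => ?_
    unfold xh
    rw [if_pos (l.2.len hL)]
  rw [h1]
  unfold WL
  refine sigma_ge (fun p : ℕ × ℤ => fun l => (Bridge l ∧ l ≠ []) ∧
    l.sum = (((A + p.1 : ℕ) : ℤ), p.2)) (FlS A B H) ?_
    (fun l => xh x L l.length * ((rr l : ℕ) : ℝ≥0∞)⁻¹)
  intro l hl
  refine ⟨((l.sum.1 - A).toNat, l.sum.2), ⟨hl.1, hl.ne hA⟩, ?_⟩
  have := hl.2.1
  ext
  · simp only
    push_cast
    omega
  · rfl

/-- second moment: one of the two parts of a cut bridge has at least half of the span -/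
theorem RS_le (x : ℝ≥0∞) {A A' : ℕ} (B H : ℕ) (hA : 2 * A' ≤ A + 1) :
    ∑' l : {l // FlS A B H l}, x ^ l.1.length * ((rr l.1 : ℕ) : ℝ≥0∞) ≤
      2 * (FB x 0 B H * FB x A' B H) := by
  have h1 : ∀ l : {l // FlS A B H l}, x ^ l.1.length * ((rr l.1 : ℕ) : ℝ≥0∞) =
      ∑' _ : {i // i ∈ Ren l.1}, x ^ l.1.length := by
    intro l
    rw [tsum_fintype, Finset.sum_const, Finset.card_univ, Fintype.card_coe, nsmul_eq_mul, mul_comm]
    rfl
  simp only [h1]
  rw [← ENNReal.tsum_sigma' (f := fun t : Σ l : {l // FlS A B H l}, {i // i ∈ Ren l.1} =>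
    x ^ t.1.1.length)]
  unfold FB mass
  set Q : List Pt → Prop := fun l => Bridge l ∧ ((0 : ℕ) : ℤ) ≤ l.sum.1 ∧
    l.sum.1 < (B : ℤ) ∧ rg py l ≤ H with hQ
  set Q' : List Pt → Prop := fun l => Bridge l ∧ (A' : ℤ) ≤ l.sum.1 ∧
    l.sum.1 < (B : ℤ) ∧ rg py l ≤ H with hQ'
  have hrhs : 2 * ((∑' l : {l // Q l}, x ^ l.1.length) * ∑' l : {l // Q' l}, x ^ l.1.length) =
      ∑' r : ({l // Q l} × {l // Q' l}) ⊕ ({l // Q l} × {l // Q' l}),
        Sum.elim (fun r => x ^ r.1.1.length * x ^ r.2.1.length)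
          (fun r => x ^ r.1.1.length * x ^ r.2.1.length) r := by
    rw [ENNReal.summable.tsum_sum ENNReal.summable]
    simp only [Sum.elim_inl, Sum.elim_inr]
    rw [tsum_mul (fun l : {l // Q l} => x ^ l.1.length) (fun l : {l // Q' l} => x ^ l.1.length),
      two_mul]
  rw [hrhs]
  have hc : ∀ t : Σ l : {l // FlS A B H l}, {i // i ∈ Ren l.1}, t.2.1 < t.1.1.length ∧
      Bridge (t.1.1.take t.2.1) ∧ Bridge (t.1.1.drop t.2.1) := by
    intro t
    have h2 := (mem_Ren' t.1.2.1).1 t.2.2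
    exact ⟨h2.1, t.1.2.1.take h2.1.le h2.2.1, t.1.2.1.drop h2.1.le h2.2.2⟩
  have hsum : ∀ t : Σ l : {l // FlS A B H l}, {i // i ∈ Ren l.1},
      (t.1.1.take t.2.1).sum.1 + (t.1.1.drop t.2.1).sum.1 = t.1.1.sum.1 := by
    intro t
    rw [← Prod.fst_add, ← List.sum_append, List.take_append_drop]
  have hQ1 : ∀ t : Σ l : {l // FlS A B H l}, {i // i ∈ Ren l.1}, Q (t.1.1.take t.2.1) := by
    intro t
    have h2 := hc t
    have h3 := h2.2.1.nonneg le_rfl
    have h4 := h2.2.2.nonneg le_rfl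
    rw [pos_len] at h3 h4
    have h5 := hsum t
    have h6 := t.1.2.2.2.1
    have h7 := rg_left py (t.1.1.take t.2.1) (t.1.1.drop t.2.1)
    rw [List.take_append_drop] at h7
    exact ⟨h2.2.1, by simpa using h3, by omega, h7.trans t.1.2.2.2.2⟩
  have hQ2 : ∀ t : Σ l : {l // FlS A B H l}, {i // i ∈ Ren l.1}, Q (t.1.1.drop t.2.1) := by
    intro t
    have h2 := hc t
    have h3 := h2.2.1.nonneg le_rfl
    have h4 := h2.2.2.nonneg le_rfl
    rw [pos_len] at h3 h4
    have h5 := hsum t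
    have h6 := t.1.2.2.2.1
    have h7 := rg_right py (t.1.1.take t.2.1) (t.1.1.drop t.2.1)
    rw [List.take_append_drop] at h7
    exact ⟨h2.2.2, by simpa using h4, by omega, h7.trans t.1.2.2.2.2⟩
  have hor : ∀ t : Σ l : {l // FlS A B H l}, {i // i ∈ Ren l.1},
      ¬ (A' : ℤ) ≤ (t.1.1.drop t.2.1).sum.1 → (A' : ℤ) ≤ (t.1.1.take t.2.1).sum.1 := by
    intro t h
    have h5 := hsum t
    have h6 := t.1.2.2.1
    omega
  classical
  let φ : (Σ l : {l // FlS A B H l}, {i // i ∈ Ren l.1}) →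
      ({l // Q l} × {l // Q' l}) ⊕ ({l // Q l} × {l // Q' l}) := fun t =>
    if h : (A' : ℤ) ≤ (t.1.1.drop t.2.1).sum.1 then
      Sum.inl (⟨_, hQ1 t⟩, ⟨t.1.1.drop t.2.1, (hQ2 t).1, h, (hQ2 t).2.2⟩)
    else Sum.inr (⟨_, hQ2 t⟩, ⟨t.1.1.take t.2.1, (hQ1 t).1, hor t h, (hQ1 t).2.2⟩)
  have hext : ∀ s t : Σ l : {l // FlS A B H l}, {i // i ∈ Ren l.1},
      s.1.1.take s.2.1 = t.1.1.take t.2.1 → s.1.1.drop s.2.1 = t.1.1.drop t.2.1 → s = t := by
    intro s t h1 h2
    have e1 : s.1.1 = t.1.1 := by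
      rw [← List.take_append_drop s.2.1 s.1.1, ← List.take_append_drop t.2.1 t.1.1, h1, h2]
    have e2 : s.2.1 = t.2.1 := by
      have h2 := congrArg List.length h1
      rw [List.length_take, List.length_take] at h2
      have h3 := (hc s).1
      have h4 := (hc t).1
      omega
    obtain ⟨⟨l, hl⟩, ⟨i, hi⟩⟩ := s
    obtain ⟨⟨l', hl'⟩, ⟨i', hi'⟩⟩ := t
    simp only at e1 e2
    subst e1 e2
    rfl
  refine tsum_le_inj φ ?_ ?_
  · intro s t hst
    simp only [φ] at hst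
    split_ifs at hst with h1 h2 h2
    · have h3 := Sum.inl.inj hst
      simp only [Prod.mk.injEq, Subtype.mk.injEq] at h3
      exact hext s t h3.1 h3.2
    · have h3 := Sum.inr.inj hst
      simp only [Prod.mk.injEq, Subtype.mk.injEq] at h3
      exact hext s t h3.2 h3.1
  · intro t
    have h2 := (hc t).1
    simp only [φ]
    split_ifs with h
    · simp only [Sum.elim_inl, List.length_take, List.length_drop]
      rw [← pow_add, min_eq_left h2.le, Nat.add_sub_cancel' h2.le]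
    · simp only [Sum.elim_inr, List.length_take, List.length_drop]
      rw [← pow_add, min_eq_left h2.le, Nat.sub_add_cancel h2.le]

theorem two_mul_le_sq' (a b : ℝ≥0∞) : 2 * (a * b) ≤ a ^ 2 + b ^ 2 := by
  wlog h : a ≤ b generalizing a b
  · rw [mul_comm a b, add_comm]
    exact this b a (le_of_not_ge h)
  obtain ⟨c, rfl⟩ := exists_add_of_le h
  calc 2 * (a * (a + c)) ≤ 2 * (a * (a + c)) + c ^ 2 := le_self_add
    _ = a ^ 2 + (a + c) ^ 2 := by ring

theorem amgm (t : ℝ≥0∞) {n : ℕ} (hn : 1 ≤ n) : 2 * t ≤ (n : ℝ≥0∞)⁻¹ + t ^ 2 * n := by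
  have h0 : (n : ℝ≥0∞) ≠ 0 := by exact_mod_cast (by omega : n ≠ 0)
  have ht : (n : ℝ≥0∞) ≠ ⊤ := ENNReal.natCast_ne_top _
  have hi : (n : ℝ≥0∞) * (n : ℝ≥0∞)⁻¹ = 1 := ENNReal.mul_inv_cancel h0 ht
  have h1 := mul_le_mul_left (two_mul_le_sq' (t * n) 1) (n : ℝ≥0∞)⁻¹
  calc 2 * t = 2 * (t * n * 1) * (n : ℝ≥0∞)⁻¹ := by
        rw [mul_one, show 2 * (t * n) * (n : ℝ≥0∞)⁻¹ = 2 * t * (n * (n : ℝ≥0∞)⁻¹) by ring, hi,
          mul_one]
    _ ≤ ((t * n) ^ 2 + 1 ^ 2) * (n : ℝ≥0∞)⁻¹ := h1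
    _ = (n : ℝ≥0∞)⁻¹ + t ^ 2 * n * (n * (n : ℝ≥0∞)⁻¹) := by ring
    _ = _ := by rw [hi, mul_one]

/-- Cauchy-Schwarz: weighted mass, mass and second moment -/
theorem RW_ge {x : ℝ≥0∞} (hu : ∀ t, uu x t ≤ 1) {A A' B H : ℕ} (hA1 : 1 ≤ A)
    (hA : 2 * A' ≤ A + 1) :
    ENNReal.ofReal ((FB x A B H).toReal ^ 2 /
      (2 * ((FB x 0 B H).toReal * (FB x A' B H).toReal))) ≤ RW x A B H := by
  set F := FB x A B H with hF
  set V := FB x 0 B H with hV
  set F' := FB x A' B H with hF'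
  have hFt : F ≠ ⊤ := ne_top_of_le_ne_top (ENNReal.natCast_ne_top _) (FB_le hu _ _ _)
  have hVt : V ≠ ⊤ := ne_top_of_le_ne_top (ENNReal.natCast_ne_top _) (FB_le hu _ _ _)
  have hF't : F' ≠ ⊤ := ne_top_of_le_ne_top (ENNReal.natCast_ne_top _) (FB_le hu _ _ _)
  set f := F.toReal with hf
  set v := V.toReal with hv
  set f' := F'.toReal with hf'
  have hf0 : 0 ≤ f := ENNReal.toReal_nonneg
  have hv0 : 0 ≤ v := ENNReal.toReal_nonneg
  have hf'0 : 0 ≤ f' := ENNReal.toReal_nonneg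
  rcases (mul_nonneg hv0 hf'0).eq_or_lt with hz | hpos
  · rw [← hz, mul_zero, div_zero, ENNReal.ofReal_zero]
    exact zero_le
  set d : ℝ := 2 * (v * f') with hd
  have hd0 : 0 < d := by positivity
  set t := ENNReal.ofReal (f / d) with ht
  have h1 : 2 * t * F ≤ RW x A B H + t ^ 2 * (2 * (V * F')) := by
    calc 2 * t * F = ∑' l : {l // FlS A B H l}, 2 * t * x ^ l.1.length := by
          rw [ENNReal.tsum_mul_left]
          rfl
      _ ≤ ∑' l : {l // FlS A B H l}, (x ^ l.1.length * ((rr l.1 : ℕ) : ℝ≥0∞)⁻¹ +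
            t ^ 2 * (x ^ l.1.length * ((rr l.1 : ℕ) : ℝ≥0∞))) := by
          refine ENNReal.tsum_le_tsum fun l => ?_
          have h2 := amgm t (rr_pos l.2.1 (l.2.ne hA1))
          calc 2 * t * x ^ l.1.length ≤ (((rr l.1 : ℕ) : ℝ≥0∞)⁻¹ + t ^ 2 * ((rr l.1 : ℕ) : ℝ≥0∞)) *
                x ^ l.1.length := mul_le_mul' h2 le_rfl
            _ = _ := by ring
      _ = RW x A B H + t ^ 2 * ∑' l : {l // FlS A B H l}, x ^ l.1.length *
            ((rr l.1 : ℕ) : ℝ≥0∞) := by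
          rw [ENNReal.tsum_add, ENNReal.tsum_mul_left]
          rfl
      _ ≤ _ := add_le_add le_rfl (mul_le_mul' le_rfl (RS_le x B H hA))
  rw [← ENNReal.ofReal_toReal hFt, ← ENNReal.ofReal_toReal hVt, ← ENNReal.ofReal_toReal hF't,
    ← hf, ← hv, ← hf', ht,
    show (2 : ℝ≥0∞) = ENNReal.ofReal 2 by norm_num, ← ENNReal.ofReal_mul (by norm_num),
    ← ENNReal.ofReal_mul (by positivity), ← ENNReal.ofReal_mul hv0,
    ← ENNReal.ofReal_mul (by norm_num), ← hd,
    ← ENNReal.ofReal_pow (by positivity), ← ENNReal.ofReal_mul (by positivity)] at h1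
  have e1 : 2 * (f / d) * f = f ^ 2 / d + f ^ 2 / d := by
    field_simp
    ring
  have e2 : (f / d) ^ 2 * d = f ^ 2 / d := by
    field_simp
  rw [e1, e2, ENNReal.ofReal_add (by positivity) (by positivity)] at h1
  exact (ENNReal.add_le_add_iff_right ENNReal.ofReal_ne_top).1 h1

/-- the mass of walks in small boxes from a bound on the numbers of walks -/
theorem EE_le {μ : ℝ} (hμ : 1 ≤ μ) {M : ℝ} (hM : 0 ≤ M) {S R : ℕ}
    (hc : ∀ n : ℕ, n < S * R → (Nat.card (WalkFun n) : ℝ) ≤ μ ^ n * M) :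
    EE (ENNReal.ofReal μ)⁻¹ S R ≤ ENNReal.ofReal ((S : ℝ) * R * M) := by
  have hμ0 : 0 < μ := by linarith
  set x : ℝ≥0∞ := (ENNReal.ofReal μ)⁻¹ with hx
  have h1 : EE x S R ≤ ∑' i : Fin (S * R), mass x (fun l => Walk l ∧ l.length = i.val) := by
    unfold EE mass
    refine sigma_ge (fun i : Fin (S * R) => fun l => Walk l ∧ l.length = i.val)
      (fun l => Walk l ∧ rg px l < S ∧ rg py l < R) ?_ (fun l => x ^ l.length)
    rintro l ⟨h1, h2, h3⟩
    have h4 := len_box h1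
    have h5 : (rg px l + 1) * (rg py l + 1) ≤ S * R := Nat.mul_le_mul h2 h3
    exact ⟨⟨l.length, by omega⟩, h1, rfl⟩
  refine h1.trans ?_
  have h2 : ∀ i : Fin (S * R), mass x (fun l => Walk l ∧ l.length = i.val) ≤
      ENNReal.ofReal M := by
    intro i
    refine (walk_mass_le i.val x).trans ?_
    have h3 := hc i.val i.2
    have hxi : ENNReal.ofReal μ * x = 1 := by
      rw [hx]
      exact ENNReal.mul_inv_cancel (by simpa using hμ0) ENNReal.ofReal_ne_top
    calc (Nat.card (WalkFun i.val) : ℝ≥0∞) * x ^ i.val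
        = ENNReal.ofReal (Nat.card (WalkFun i.val) : ℝ) * x ^ i.val := by
          rw [ENNReal.ofReal_natCast]
      _ ≤ ENNReal.ofReal (μ ^ i.val * M) * x ^ i.val :=
          mul_le_mul' (ENNReal.ofReal_le_ofReal h3) le_rfl
      _ = (ENNReal.ofReal μ * x) ^ i.val * ENNReal.ofReal M := by
          rw [ENNReal.ofReal_mul (by positivity), ENNReal.ofReal_pow hμ0.le, mul_pow]
          ring
      _ = ENNReal.ofReal M := by rw [hxi, one_pow, one_mul]
  refine (ENNReal.tsum_le_tsum h2).trans (le_of_eq ?_)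
  rw [tsum_fintype, Finset.sum_const, Finset.card_univ, Fintype.card_fin, nsmul_eq_mul,
    ← ENNReal.ofReal_natCast, ← ENNReal.ofReal_mul (by positivity)]
  push_cast
  rfl

end Pool.Agent.Work.MP_376faf_co_win
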