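import Pool.Agent.Work.MP_376faf_co_win.Mass

/-! Window theorem: the growth argument over the scales. -/

set_option autoImplicit false

namespace Pool.Agent.Work.MP_376faf_co_win

open Pool.Agent.Work.MP_376faf_co_lower Pool.Agent.Work.MP_376faf_co_hw
open Filter Topology
open scoped ENNReal

/-- real analysis: V cannot stay bounded while the increments F have mass 1/V but small
weighted mass R -/
theorem ana_core {n β : ℝ} {K J : ℕ} {V F R : ℕ → ℝ} (hn : 1 ≤ n) (hβ : 0 ≤ β)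
    (hV1 : ∀ k ≤ K + 1, 1 ≤ V k) (hV0 : V 0 ≤ n) (hVF : ∀ k ≤ K, V (k + 1) ≤ V k + F k)
    (hF0 : ∀ k ≤ K, 0 ≤ F k) (hFV1 : ∀ k ≤ K, F k ≤ V (k + 1))
    (hFV : ∀ k ≤ K, 1 / 16 < F k * V (k + 1)) (hR0 : ∀ k, 0 ≤ R k)
    (hR1 : ∀ k ≤ K, F k ^ 2 / (2 * (V (k + 1) * V (k + 1))) ≤ R k)
    (hR2 : ∀ k, 1 ≤ k → k ≤ K → F k ^ 2 / (2 * (V (k + 1) * (F (k - 1) + F k))) ≤ R k)
    (hsum : ∑ k ∈ Finset.range (K + 1), 2 * √(2 * R k) ≤ Real.log 2)
    (hJ : J ≤ K) (hRJ : ∀ k, K + 1 ≤ k + J → k ≤ K → 128 * n ^ 2 * (β + 1) * R k ≤ 1)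
    (hβJ : 64 * n ^ 2 ≤ β ^ J) : False := by
  have hVp : ∀ k ≤ K + 1, 0 < V k := fun k hk => lt_of_lt_of_le one_pos (hV1 k hk)
  -- growth of V
  have hgr : ∀ k ≤ K + 1, V k ≤ V 0 * Real.exp (∑ i ∈ Finset.range k, 2 * √(2 * R i)) := by
    intro k
    induction k with
    | zero => intro _; simp
    | succ k ih =>
      intro hk
      have h1 := ih (by omega)
      set r := √(2 * R k) with hr
      have hr0 : 0 ≤ r := Real.sqrt_nonneg _
      have hr1 : 2 * r ≤ 1 := by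
        have h2 : 2 * √(2 * R k) ≤ ∑ k ∈ Finset.range (K + 1), 2 * √(2 * R k) :=
          Finset.single_le_sum (f := fun k => 2 * √(2 * R k)) (fun i _ => by positivity)
            (Finset.mem_range.2 (by omega))
        have h3 : Real.log 2 ≤ 1 := by
          have := Real.log_two_lt_d9
          linarith
        linarith
      have hF : F k ≤ r * V (k + 1) := by
        have h2 := hR1 k (by omega)
        have hV := hVp (k + 1) hk
        rw [div_le_iff₀ (by positivity)] at h2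
        have h3 : r ^ 2 = 2 * R k := Real.sq_sqrt (by have := hR0 k; positivity)
        have h4 : F k ^ 2 ≤ (r * V (k + 1)) ^ 2 := by
          rw [mul_pow, h3]
          nlinarith
        exact (pow_le_pow_iff_left₀ (hF0 k (by omega)) (by positivity) (by norm_num)).1 h4
      have h2 := hVF k (by omega)
      have hV := hVp (k + 1) hk
      have h3 : V (k + 1) * (1 - r) ≤ V k := by nlinarith
      have h4 : 1 ≤ (1 - r) * Real.exp (2 * r) := by
        have h5 := Real.add_one_le_exp (2 * r)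
        nlinarith
      have hVk := hVp k (by omega)
      have h5 : V (k + 1) ≤ V k * Real.exp (2 * r) := by
        calc V (k + 1) ≤ V (k + 1) * ((1 - r) * Real.exp (2 * r)) :=
              le_mul_of_one_le_right hV.le h4
          _ = V (k + 1) * (1 - r) * Real.exp (2 * r) := by ring
          _ ≤ V k * Real.exp (2 * r) := mul_le_mul_of_nonneg_right h3 (Real.exp_pos _).le
      rw [Finset.sum_range_succ, Real.exp_add, ← mul_assoc]
      exact h5.trans (mul_le_mul_of_nonneg_right h1 (Real.exp_pos _).le)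
  have hV2 : ∀ k ≤ K + 1, V k ≤ 2 * n := by
    intro k hk
    have h1 : ∑ i ∈ Finset.range k, 2 * √(2 * R i) ≤ Real.log 2 := by
      refine le_trans ?_ hsum
      exact Finset.sum_le_sum_of_subset_of_nonneg (Finset.range_mono hk)
        fun i _ _ => by positivity
    have h2 : Real.exp (∑ i ∈ Finset.range k, 2 * √(2 * R i)) ≤ 2 := by
      calc _ ≤ Real.exp (Real.log 2) := Real.exp_le_exp.2 h1
        _ = 2 := Real.exp_log (by norm_num)
    have h3 := hV1 0 (by omega)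
    calc V k ≤ _ := hgr k hk
      _ ≤ n * 2 := mul_le_mul hV0 h2 (Real.exp_pos _).le (by linarith)
      _ = 2 * n := by ring
  have hFlow : ∀ k ≤ K, 1 / (32 * n) < F k := by
    intro k hk
    have h1 := hFV k hk
    have h2 := hV2 (k + 1) (by omega)
    have h3 : F k * V (k + 1) ≤ F k * (2 * n) := mul_le_mul_of_nonneg_left h2 (hF0 k hk)
    rw [div_lt_iff₀ (by positivity)]
    linarith
  -- a scale where F does not drop
  have hex : ∃ k, K + 1 ≤ k + J ∧ 1 ≤ k ∧ k ≤ K ∧ F (k - 1) ≤ β * F k := by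
    by_contra hcon
    push Not at hcon
    have h1 : ∀ j ≤ J, β ^ j * F K ≤ F (K - j) := by
      intro j
      induction j with
      | zero => intro _; simp
      | succ j ih =>
        intro hj
        have h2 := ih (by omega)
        have h3 := hcon (K - j) (by omega) (by omega) (by omega)
        rw [show K - j - 1 = K - (j + 1) by omega] at h3
        rw [pow_succ]
        nlinarith
    have h2 := h1 J le_rfl
    have h3 := hFV1 (K - J) (by omega)
    have h4 := hV2 (K - J + 1) (by omega)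
    have h5 := hFlow K le_rfl
    have h6 : 64 * n ^ 2 * (1 / (32 * n)) < β ^ J * F K := by
      have h7 : 0 < 64 * n ^ 2 := by positivity
      calc 64 * n ^ 2 * (1 / (32 * n)) < 64 * n ^ 2 * F K := mul_lt_mul_of_pos_left h5 h7
        _ ≤ β ^ J * F K := mul_le_mul_of_nonneg_right hβJ (hF0 K le_rfl)
    have h7 : 64 * n ^ 2 * (1 / (32 * n)) = 2 * n := by field_simp; norm_num
    linarith
  obtain ⟨k, hk1, hk2, hk3, hk4⟩ := hex
  have h1 := hR2 k hk2 hk3
  have hFp := lt_trans (by positivity : 0 < 1 / (32 * n)) (hFlow k hk3)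
  have hFk1 := hF0 (k - 1) (by omega)
  have hV := hVp (k + 1) (by omega)
  rw [div_le_iff₀ (by positivity)] at h1
  have h2 := hV2 (k + 1) (by omega)
  have hRk := hR0 k
  have h3 : F k ^ 2 ≤ R k * (2 * (2 * n * ((β + 1) * F k))) := by
    refine h1.trans (mul_le_mul_of_nonneg_left ?_ hRk)
    refine mul_le_mul_of_nonneg_left ?_ (by norm_num)
    refine mul_le_mul h2 (by linarith) (by positivity) (by positivity)
  have h4 : F k ≤ 4 * n * (β + 1) * R k := by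
    have h5 : F k * F k ≤ (4 * n * (β + 1) * R k) * F k := by nlinarith
    exact le_of_mul_le_mul_right h5 hFp
  have h5 := hFlow k hk3
  rw [div_lt_iff₀ (by positivity)] at h5
  have h6 := hRJ k hk1 hk3
  have h7 : F k * (32 * n) ≤ 4 * n * (β + 1) * R k * (32 * n) :=
    mul_le_mul_of_nonneg_right h4 (by positivity)
  nlinarith

/-- admissible parameters; ps = 3(p+1) is the ratio of consecutive scales -/
structure Par (κ ε C B M0 : ℝ) (n p K J H : ℕ) (β Λ : ℝ) : Prop where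
  n1 : 1 ≤ n
  JK : J ≤ K
  pp : ∀ k ≤ K, 2 * ((3 * (p + 1)) ^ k * n) ≤ 8 ^ p
  hH : (3 * (p + 1)) ^ (K + 1) * n ≤ H
  hL : (((3 * (p + 1)) ^ (K + 1) * n * (H + 1) : ℕ) : ℝ) ≤ (n : ℝ) ^ κ
  hsum : ∑ k ∈ Finset.range (K + 1),
    2 * √(2 * (C * (((3 * (p + 1)) ^ k * n : ℕ) : ℝ) ^ (-(ε / 2)))) ≤ Real.log 2
  β0 : 0 ≤ β
  hRJ : ∀ k, K + 1 ≤ k + J → k ≤ K → 128 * (n : ℝ) ^ 2 * (β + 1) *
    (C * (((3 * (p + 1)) ^ k * n : ℕ) : ℝ) ^ (-(ε / 2))) ≤ 1
  hβJ : 64 * (n : ℝ) ^ 2 ≤ β ^ J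
  hΛ : ∀ k ≤ K, Real.log (((3 * (p + 1)) ^ k * n * ((3 * (p + 1)) ^ (k + 1) * n) : ℕ) : ℝ) ≤ Λ
  hbox : ∀ k ≤ K, 1440 * ((((3 * (p + 1)) ^ k * n * ((3 * (p + 1)) ^ (k + 1) * n) : ℕ) : ℝ) *
    (M0 * Real.exp (B * Λ ^ 3))) ^ 2 * ((((3 * (p + 1)) ^ k * n : ℕ) : ℝ)) ^ 2 ≤
    2 ^ (H / (8 * ((3 * (p + 1)) ^ (k + 1) * n)))

theorem window_core {μ : ℝ} (hμ : 1 ≤ μ)
    (hT : Tendsto (fun n : ℕ => ((Nat.card (WalkFun n) : ℕ) : ℝ) ^ ((1:ℝ) / (n:ℝ))) atTop (𝓝 μ))
    (hc : ∀ n : ℕ, μ ^ n ≤ (Nat.card (WalkFun n) : ℝ)) {B M0 : ℝ} (hB : 0 ≤ B) (hM0 : 1 ≤ M0)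
    (hup : ∀ m : ℕ, (Nat.card (WalkFun m) : ℝ) ≤ μ ^ m * (M0 * Real.exp (B * (Real.log m) ^ 3)))
    {κ ε : ℝ} (hε : 0 < ε) {n p K J H : ℕ} {β Λ : ℝ}
    (hP : Par κ ε (Cw μ ε) B M0 n p K J H β Λ) :
    ∃ m : ℕ, n ≤ m ∧ (m:ℝ) ≤ (n:ℝ) ^ κ ∧ (m:ℝ) ^ (-(4 + ε)) < aN μ m := by
  by_contra hcon
  push Not at hcon
  have hμ0 : 0 < μ := by linarith
  have hu := uu_le_one hμ hT
  have hC0 := Cw_pos hμ hε
  set x : ℝ≥0∞ := (ENNReal.ofReal μ)⁻¹ with hx
  have hxt : x ≠ ⊤ := by rw [hx]; simpa using hμ0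
  set ψ : ℕ := 3 * (p + 1) with hψ
  have hψ3 : 3 ≤ ψ := by omega
  have hn := hP.n1
  have hnR : (1:ℝ) ≤ n := by exact_mod_cast hn
  have hSpos : ∀ k, 1 ≤ ψ ^ k * n := fun k => Nat.mul_pos (Nat.pow_pos (by omega)) hn
  have hSle : ∀ k, ψ ^ k * n ≤ ψ ^ (k + 1) * n := fun k =>
    Nat.mul_le_mul (Nat.pow_le_pow_right (by omega) (Nat.le_succ k)) le_rfl
  have hS2 : ∀ k, 3 * (ψ ^ k * n) ≤ ψ ^ (k + 1) * n := fun k => by
    rw [pow_succ]
    nlinarith [hSpos k]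
  have hSmono : ∀ k ≤ K, ψ ^ (k + 1) * n ≤ ψ ^ (K + 1) * n := fun k hk =>
    Nat.mul_le_mul (Nat.pow_le_pow_right (by omega) (by omega)) le_rfl
  -- the upper end of the window
  obtain ⟨L, hL⟩ : ∃ L : ℕ, L + 1 = ⌊(n:ℝ) ^ κ⌋₊ := by
    have h1 : ψ ^ (K + 1) * n * (H + 1) ≤ ⌊(n:ℝ) ^ κ⌋₊ := Nat.le_floor hP.hL
    have h2 : 1 ≤ ψ ^ (K + 1) * n * (H + 1) := Nat.mul_pos (hSpos _) (Nat.succ_pos _)
    exact ⟨⌊(n:ℝ) ^ κ⌋₊ - 1, by omega⟩
  have hyp : ∀ m : ℕ, n ≤ m → m ≤ L + 1 → aN μ m ≤ (m:ℝ) ^ (-(4 + ε)) := by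
    intro m h1 h2
    rw [hL] at h2
    refine hcon m h1 ?_
    exact (Nat.le_floor_iff (by positivity)).1 h2
  have hBL : ∀ k ≤ K, ψ ^ (k + 1) * n * (H + 1) ≤ L + 1 := by
    intro k hk
    rw [hL]
    have h1 : ψ ^ (K + 1) * n * (H + 1) ≤ ⌊(n:ℝ) ^ κ⌋₊ := Nat.le_floor hP.hL
    exact (Nat.mul_le_mul (hSmono k hk) le_rfl).trans h1
  set R : ℕ → ℝ := fun k => Cw μ ε * ((ψ ^ k * n : ℕ) : ℝ) ^ (-(ε / 2)) with hR
  have hRWle : ∀ k ≤ K, RW x (ψ ^ k * n) (ψ ^ (k + 1) * n) H ≤ ENNReal.ofReal (R k) := by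
    intro k hk
    refine (RW_le x (hSpos k) (hBL k hk)).trans ?_
    exact WL_sum hμ hε hyp (by
      calc n = 1 * n := (one_mul n).symm
        _ ≤ ψ ^ k * n := Nat.mul_le_mul (Nat.one_le_pow _ _ (by omega)) le_rfl) (hSpos k)
  set V : ℕ → ℝ := fun k => (FB x 0 (ψ ^ k * n) H).toReal with hV
  set F : ℕ → ℝ := fun k => (FB x (ψ ^ k * n) (ψ ^ (k + 1) * n) H).toReal with hF
  have hfin : ∀ a b, FB x a b H ≠ ⊤ := fun a b =>
    ne_top_of_le_ne_top (ENNReal.natCast_ne_top _) (FB_le hu a b H)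
  have hsplit : ∀ a b c, FB x a c H ≤ FB x a b H + FB x b c H := by
    intro a b c
    unfold FB
    rw [mass_eq, mass_eq, mass_eq]
    refine wsum_or _ fun l hl => ?_
    rcases lt_or_ge l.sum.1 (b : ℤ) with h | h
    · exact Or.inl ⟨hl.1, hl.2.1, h, hl.2.2.2⟩
    · exact Or.inr ⟨hl.1, h, hl.2.2.1, hl.2.2.2⟩
  refine ana_core (V := V) (F := F) (R := R) (K := K) (J := J) (n := n) (β := β) hnR hP.β0
    ?_ ?_ ?_ ?_ ?_ ?_ ?_ ?_ ?_ hP.hsum hP.JK hP.hRJ hP.hβJ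
  · intro k _
    have := ENNReal.toReal_mono (hfin _ _) (one_le_FB x (hSpos k) H)
    simpa [hV] using this
  · have := ENNReal.toReal_mono (ENNReal.natCast_ne_top _) (FB_le hu 0 (ψ ^ 0 * n) H)
    rw [ENNReal.toReal_natCast] at this
    simpa [hV] using this
  · intro k _
    have h1 := hsplit 0 (ψ ^ k * n) (ψ ^ (k + 1) * n)
    have := ENNReal.toReal_mono (ENNReal.add_ne_top.2 ⟨hfin _ _, hfin _ _⟩) h1
    rwa [ENNReal.toReal_add (hfin _ _) (hfin _ _)] at this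
  · intro k _
    exact ENNReal.toReal_nonneg
  · intro k _
    exact ENNReal.toReal_mono (hfin _ _) (FB_mono x (Nat.zero_le _) le_rfl le_rfl)
  · intro k hk
    have hS := hSpos k
    have hSR : (1:ℝ) ≤ ((ψ ^ k * n : ℕ) : ℝ) := by exact_mod_cast hS
    have hRR : ψ ^ (k + 1) * n = 3 * (p + 1) * (ψ ^ k * n) := by
      rw [pow_succ, ← hψ]
      ring
    set M : ℝ := M0 * Real.exp (B * Λ ^ 3) with hM
    have hSR1 : 1 ≤ ψ ^ k * n * (ψ ^ (k + 1) * n) := Nat.mul_pos hS (hSpos _)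
    have hΛ0 : 0 ≤ Λ := (Real.log_natCast_nonneg _).trans (hP.hΛ k hk)
    have hM1 : 1 ≤ M := by
      rw [hM]
      have : 1 ≤ Real.exp (B * Λ ^ 3) := Real.one_le_exp (by positivity)
      nlinarith
    have hE : EE x (ψ ^ k * n) (ψ ^ (k + 1) * n) ≤
        ENNReal.ofReal (((ψ ^ k * n * (ψ ^ (k + 1) * n) : ℕ) : ℝ) * M) := by
      have h1 := EE_le hμ (by linarith : 0 ≤ M) (S := ψ ^ k * n) (R := ψ ^ (k + 1) * n) ?_
      · rw [← hx] at h1
        rw [Nat.cast_mul (ψ ^ k * n)]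
        exact h1
      · intro m hm
        refine (hup m).trans ?_
        refine mul_le_mul_of_nonneg_left ?_ (by positivity)
        refine mul_le_mul_of_nonneg_left ?_ (by linarith)
        refine Real.exp_le_exp.2 (mul_le_mul_of_nonneg_left ?_ hB)
        refine pow_le_pow_left₀ (Real.log_natCast_nonneg m) ?_ 3
        refine le_trans ?_ (hP.hΛ k hk)
        rcases Nat.eq_zero_or_pos m with h0 | h0
        · rw [h0, Nat.cast_zero, Real.log_zero]
          exact Real.log_natCast_nonneg _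
        · refine Real.log_le_log (by exact_mod_cast h0) ?_
          exact_mod_cast hm.le
    set e : ℝ := ((ψ ^ k * n * (ψ ^ (k + 1) * n) : ℕ) : ℝ) * M with he
    have he1 : 1 ≤ e := by
      rw [he]
      have : (1:ℝ) ≤ ((ψ ^ k * n * (ψ ^ (k + 1) * n) : ℕ) : ℝ) := by exact_mod_cast hSR1
      nlinarith
    have hflat := flat_mass (x := x) hxt hu (mass_half_top hμ hc) (S := ψ ^ k * n) (H := H)
      (p := p) (R := ψ ^ (k + 1) * n) hS hRR (hP.pp k hk)
      ((hSmono k hk).trans hP.hH) ?_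
    · have h1 : FB x 0 (2 * (ψ ^ k * n)) H ≤ FB x 0 (ψ ^ (k + 1) * n) H :=
        FB_mono x le_rfl (by have := hS2 k; omega) le_rfl
      have h2 := lt_of_lt_of_le hflat (mul_le_mul' le_rfl h1)
      have h3 : FB x (ψ ^ k * n) (ψ ^ (k + 1) * n) H * FB x 0 (ψ ^ (k + 1) * n) H =
          ENNReal.ofReal (F k * V (k + 1)) := by
        rw [ENNReal.ofReal_mul ENNReal.toReal_nonneg, ENNReal.ofReal_toReal (hfin _ _),
          ENNReal.ofReal_toReal (hfin _ _)]
      rw [h3, ENNReal.ofReal_lt_ofReal_iff'] at h2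
      exact h2.1
    · have hb := hP.hbox k hk
      rw [← hM, ← he] at hb
      have h1 : 2 * EE x (ψ ^ k * n) (ψ ^ (k + 1) * n) + 2 * EE x (ψ ^ k * n) (ψ ^ (k + 1) * n) *
          (2 * EE x (ψ ^ k * n) (ψ ^ (k + 1) * n) + 2 * EE x (ψ ^ k * n) (ψ ^ (k + 1) * n)) ≤
          ENNReal.ofReal (10 * e ^ 2) := by
        have h2 : 2 * EE x (ψ ^ k * n) (ψ ^ (k + 1) * n) ≤ ENNReal.ofReal (2 * e) := by
          rw [← two_ofReal (by linarith)]
          exact mul_le_mul' le_rfl hE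
        calc _ ≤ ENNReal.ofReal (2 * e) + ENNReal.ofReal (2 * e) *
              (ENNReal.ofReal (2 * e) + ENNReal.ofReal (2 * e)) :=
              add_le_add h2 (mul_le_mul' h2 (add_le_add h2 h2))
          _ = ENNReal.ofReal (2 * e + 2 * e * (2 * e + 2 * e)) := by
              rw [← ENNReal.ofReal_add (by linarith) (by linarith),
                ← ENNReal.ofReal_mul (by linarith), ← ENNReal.ofReal_add (by linarith)
                  (by nlinarith)]
          _ ≤ _ := ENNReal.ofReal_le_ofReal (by nlinarith)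
      have h2 : (2 : ℝ≥0∞) ^ (H / (8 * (ψ ^ (k + 1) * n))) =
          ENNReal.ofReal (2 ^ (H / (8 * (ψ ^ (k + 1) * n)))) := by
        rw [ENNReal.ofReal_pow (by norm_num)]
        norm_num
      rw [h2]
      refine (ENNReal.div_le_div_right h1 _).trans ?_
      rw [← ENNReal.ofReal_div_of_pos (by positivity)]
      refine ENNReal.ofReal_le_ofReal ?_
      rw [div_le_div_iff₀ (by positivity) (by positivity)]
      nlinarith
  · intro k
    have : (0:ℝ) ≤ ((ψ ^ k * n : ℕ) : ℝ) ^ (-(ε / 2)) := by positivity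
    exact mul_nonneg hC0.le this
  · intro k hk
    have h1 := (RW_ge hu (A' := 0) (B := ψ ^ (k + 1) * n) (H := H) (hSpos k) (by omega)).trans
      (hRWle k hk)
    have hr0 : 0 ≤ R k := by
      have : (0:ℝ) ≤ ((ψ ^ k * n : ℕ) : ℝ) ^ (-(ε / 2)) := by positivity
      exact mul_nonneg hC0.le this
    rw [ENNReal.ofReal_le_ofReal_iff hr0] at h1
    exact h1
  · intro k hk1 hk
    have hr0 : 0 ≤ R k := by
      have : (0:ℝ) ≤ ((ψ ^ k * n : ℕ) : ℝ) ^ (-(ε / 2)) := by positivity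
      exact mul_nonneg hC0.le this
    have hS3 := hS2 (k - 1)
    rw [show k - 1 + 1 = k by omega] at hS3
    have h1 := (RW_ge hu (A' := ψ ^ (k - 1) * n) (B := ψ ^ (k + 1) * n) (H := H) (hSpos k)
      (by have := hSpos (k - 1); omega)).trans (hRWle k hk)
    rw [ENNReal.ofReal_le_ofReal_iff hr0] at h1
    refine le_trans ?_ h1
    have h2 := hsplit (ψ ^ (k - 1) * n) (ψ ^ k * n) (ψ ^ (k + 1) * n)
    have h3 := ENNReal.toReal_mono (ENNReal.add_ne_top.2 ⟨hfin _ _, hfin _ _⟩) h2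
    rw [ENNReal.toReal_add (hfin _ _) (hfin _ _)] at h3
    have h4 : F (k - 1) = (FB x (ψ ^ (k - 1) * n) (ψ ^ k * n) H).toReal := by
      rw [hF]
      simp only
      rw [show k - 1 + 1 = k by omega]
    have hVpos : 0 < (FB x 0 (ψ ^ (k + 1) * n) H).toReal := by
      have := ENNReal.toReal_mono (hfin _ _) (one_le_FB x (hSpos (k + 1)) H)
      rw [ENNReal.toReal_one] at this
      linarith
    rcases (ENNReal.toReal_nonneg (a := FB x (ψ ^ (k - 1) * n) (ψ ^ (k + 1) * n) H)).eq_or_lt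
      with hz | hpos
    · have h5 : F k ≤ (FB x (ψ ^ (k - 1) * n) (ψ ^ (k + 1) * n) H).toReal :=
        ENNReal.toReal_mono (hfin _ _) (FB_mono x (hSle (k - 1) |>.trans (by
          rw [show k - 1 + 1 = k by omega])) le_rfl le_rfl)
      have h6 : F k = 0 := le_antisymm (by rw [hz]; exact h5) ENNReal.toReal_nonneg
      rw [h6]
      rw [← hz]
      simp
    · refine div_le_div_of_nonneg_left (by positivity) (by positivity) ?_
      refine mul_le_mul_of_nonneg_left ?_ (by norm_num)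
      refine mul_le_mul_of_nonneg_left ?_ hVpos.le
      rw [h4]
      exact h3

end Pool.Agent.Work.MP_376faf_co_win
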