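import Pool.Agent.Work.MP_376faf_co_hw.Crit

/-! Window theorem: ranges of walks and weighted sums over walks. -/

set_option autoImplicit false

namespace Pool.Agent.Work.MP_376faf_co_win

open Pool.Agent.Work.MP_376faf_co_lower Pool.Agent.Work.MP_376faf_co_hw
open scoped ENNReal

/-- first and second coordinate as additive maps -/
abbrev px : Pt →+ ℤ := AddMonoidHom.fst ℤ ℤ
abbrev py : Pt →+ ℤ := AddMonoidHom.snd ℤ ℤ

@[simp] theorem px_apply (p : Pt) : px p = p.1 := rfl
@[simp] theorem py_apply (p : Pt) : py p = p.2 := rfl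

/-- range of g along the walk -/
def rg (g : Pt →+ ℤ) (l : List Pt) : ℕ :=
  (Finset.range (l.length + 1) ×ˢ Finset.range (l.length + 1)).sup
    (fun p => (g (pos l p.1) - g (pos l p.2)).toNat)

theorem rg_ge (g : Pt →+ ℤ) (l : List Pt) {i j : ℕ} (hi : i ≤ l.length) (hj : j ≤ l.length) :
    g (pos l i) - g (pos l j) ≤ rg g l := by
  have h : (g (pos l i) - g (pos l j)).toNat ≤ rg g l :=
    Finset.le_sup (f := fun p : ℕ × ℕ => (g (pos l p.1) - g (pos l p.2)).toNat)
      (b := (i, j)) (by
        rw [Finset.mem_product, Finset.mem_range, Finset.mem_range]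
        exact ⟨by simp only; omega, by simp only; omega⟩)
  omega

theorem rg_le {g : Pt →+ ℤ} {l : List Pt} {R : ℕ}
    (h : ∀ i j, i ≤ l.length → j ≤ l.length → g (pos l i) - g (pos l j) ≤ R) : rg g l ≤ R := by
  unfold rg
  refine Finset.sup_le ?_
  rintro ⟨i, j⟩ hij
  rw [Finset.mem_product, Finset.mem_range, Finset.mem_range] at hij
  have := h i j (by simp only at hij; omega) (by simp only at hij; omega)
  simp only
  omega

theorem rg_append_le (g : Pt →+ ℤ) (a b : List Pt) : rg g (a ++ b) ≤ rg g a + rg g b := by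
  refine rg_le ?_
  intro i j hi hj
  rw [List.length_append] at hi hj
  push_cast
  have ha0 := rg_ge g a (le_refl a.length) (le_refl a.length)
  have hb0 := rg_ge g b (le_refl b.length) (le_refl b.length)
  rw [sub_self] at ha0 hb0
  rcases le_total i a.length with h1 | h1 <;> rcases le_total j a.length with h2 | h2
  · rw [pos_append_left _ _ h1, pos_append_left _ _ h2]
    have := rg_ge g a h1 h2
    omega
  · obtain ⟨j', rfl⟩ := Nat.exists_eq_add_of_le h2
    rw [pos_append_left _ _ h1, pos_append_right, map_add, ← pos_len]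
    have e1 := rg_ge g a h1 (le_refl a.length)
    have e2 := rg_ge g b (Nat.zero_le _) (show j' ≤ b.length by omega)
    rw [pos_zero, map_zero] at e2
    omega
  · obtain ⟨i', rfl⟩ := Nat.exists_eq_add_of_le h1
    rw [pos_append_left _ _ h2, pos_append_right, map_add, ← pos_len]
    have e1 := rg_ge g a (le_refl a.length) h2
    have e2 := rg_ge g b (show i' ≤ b.length by omega) (Nat.zero_le _)
    rw [pos_zero, map_zero] at e2
    omega
  · obtain ⟨i', rfl⟩ := Nat.exists_eq_add_of_le h1
    obtain ⟨j', rfl⟩ := Nat.exists_eq_add_of_le h2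
    rw [pos_append_right, pos_append_right, map_add, map_add]
    have e2 := rg_ge g b (show i' ≤ b.length by omega) (show j' ≤ b.length by omega)
    omega

theorem rg_left (g : Pt →+ ℤ) (a b : List Pt) : rg g a ≤ rg g (a ++ b) := by
  refine rg_le fun i j hi hj => ?_
  have := rg_ge g (a ++ b) (i := i) (j := j) (by rw [List.length_append]; omega)
    (by rw [List.length_append]; omega)
  rwa [pos_append_left _ _ hi, pos_append_left _ _ hj] at this

theorem rg_right (g : Pt →+ ℤ) (a b : List Pt) : rg g b ≤ rg g (a ++ b) := by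
  refine rg_le fun i j hi hj => ?_
  have := rg_ge g (a ++ b) (i := a.length + i) (j := a.length + j)
    (by rw [List.length_append]; omega) (by rw [List.length_append]; omega)
  rw [pos_append_right, pos_append_right, map_add, map_add] at this
  omega

theorem rg_flip_x (l : List Pt) : rg px (l.map fl) = rg px l := by
  apply le_antisymm
  · refine rg_le fun i j hi hj => ?_
    rw [List.length_map] at hi hj
    rw [pos_flip, pos_flip]
    have := rg_ge px l hj hi
    simp only [px_apply, fl] at this ⊢
    omega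
  · refine rg_le fun i j hi hj => ?_
    have := rg_ge px (l.map fl) (i := j) (j := i) (by rwa [List.length_map])
      (by rwa [List.length_map])
    rw [pos_flip, pos_flip] at this
    simp only [px_apply, fl] at this ⊢
    omega

theorem rg_flip_y (l : List Pt) : rg py (l.map fl) = rg py l := by
  apply le_antisymm
  · refine rg_le fun i j hi hj => ?_
    rw [List.length_map] at hi hj
    rw [pos_flip, pos_flip]
    have := rg_ge py l hi hj
    simpa only [py_apply, fl] using this
  · refine rg_le fun i j hi hj => ?_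
    have := rg_ge py (l.map fl) (i := i) (j := j) (by rwa [List.length_map])
      (by rwa [List.length_map])
    rw [pos_flip, pos_flip] at this
    simpa only [py_apply, fl] using this

theorem rg_bridge {l : List Pt} (h : Bridge l) : (rg px l : ℤ) = l.sum.1 := by
  have h0 := h.nonneg le_rfl
  rw [pos_len] at h0
  apply le_antisymm
  · have : rg px l ≤ l.sum.1.toNat := rg_le fun i j hi hj => by
      have h1 := h.nonneg hj
      have h2 := h.le_end hi
      rw [pos_len] at h2
      simp only [px_apply]
      omega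
    omega
  · have := rg_ge px l (le_refl l.length) (Nat.zero_le _)
    rw [pos_zero, map_zero, pos_len] at this
    simpa using this

/-- weighted sum over the walks with property P -/
noncomputable def wsum (w : List Pt → ℝ≥0∞) (P : List Pt → Prop) : ℝ≥0∞ :=
  ∑' l : {l // P l}, w l.1

theorem mass_eq (x : ℝ≥0∞) (P : List Pt → Prop) : mass x P = wsum (fun l => x ^ l.length) P := rfl

/-- submultiplicative weights -/
def SubM (w : List Pt → ℝ≥0∞) : Prop := ∀ a b, w (a ++ b) ≤ w a * w b

theorem wsum_mul {w : List Pt → ℝ≥0∞} (hw : SubM w) {P Q R : List Pt → Prop}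
    (h : ∀ l, P l → ∃ a b, l = a ++ b ∧ Q a ∧ R b) : wsum w P ≤ wsum w Q * wsum w R := by
  choose a b hab hQ hR using fun l : {l // P l} => h l.1 l.2
  unfold wsum
  rw [← tsum_mul (fun l : {l // Q l} => w l.1) (fun l : {l // R l} => w l.1)]
  refine tsum_le_inj (fun l : {l // P l} =>
    ((⟨a l, hQ l⟩, ⟨b l, hR l⟩) : {l // Q l} × {l // R l})) ?_ ?_
  · intro l m hlm
    simp only [Prod.mk.injEq, Subtype.mk.injEq] at hlm
    apply Subtype.ext
    rw [hab l, hab m, hlm.1, hlm.2]
  · intro l
    simp only
    calc w l.1 = w (a l ++ b l) := by rw [← hab l]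
      _ ≤ _ := hw _ _

theorem wsum_mono (w : List Pt → ℝ≥0∞) {P Q : List Pt → Prop} (h : ∀ l, P l → Q l) :
    wsum w P ≤ wsum w Q :=
  tsum_le_inj (fun l : {l // P l} => (⟨l.1, h l.1 l.2⟩ : {l // Q l}))
    (fun a b hab => Subtype.ext (congrArg (fun t : {l // Q l} => t.1) hab)) (fun _ => le_rfl)

theorem wsum_ind (w : List Pt → ℝ≥0∞) (P : List Pt → Prop) :
    wsum w P = ∑' l, Set.indicator {l | P l} w l := by
  unfold wsum
  exact tsum_subtype {l | P l} w

theorem wsum_le_mul {w w' : List Pt → ℝ≥0∞} {P Q : List Pt → Prop} (c : ℝ≥0∞)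
    (h : ∀ l, P l → w l ≠ 0 → Q l ∧ w l ≤ c * w' l) : wsum w P ≤ c * wsum w' Q := by
  classical
  rw [wsum_ind, wsum_ind, ← ENNReal.tsum_mul_left]
  refine ENNReal.tsum_le_tsum fun l => ?_
  by_cases hP : P l
  · rw [Set.indicator_of_mem (show l ∈ {l | P l} from hP)]
    by_cases h0 : w l = 0
    · rw [h0]; exact zero_le
    · obtain ⟨h1, h2⟩ := h l hP h0
      rw [Set.indicator_of_mem (show l ∈ {l | Q l} from h1)]
      exact h2
  · rw [Set.indicator_of_notMem (show l ∉ {l | P l} from hP)]
    exact zero_le

theorem wsum_le {w w' : List Pt → ℝ≥0∞} {P Q : List Pt → Prop}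
    (h : ∀ l, P l → w l ≠ 0 → Q l ∧ w l ≤ w' l) : wsum w P ≤ wsum w' Q := by
  have := wsum_le_mul (w := w) (w' := w') (P := P) (Q := Q) 1 (fun l h1 h2 => by
    rw [one_mul]; exact h l h1 h2)
  rwa [one_mul] at this

theorem wsum_or (w : List Pt → ℝ≥0∞) {P Q R : List Pt → Prop} (h : ∀ l, P l → Q l ∨ R l) :
    wsum w P ≤ wsum w Q + wsum w R := by
  classical
  rw [wsum_ind, wsum_ind, wsum_ind, ← ENNReal.tsum_add]
  refine ENNReal.tsum_le_tsum fun l => ?_
  by_cases hP : P l
  · rw [Set.indicator_of_mem (show l ∈ {l | P l} from hP)]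
    rcases h l hP with h1 | h1
    · rw [Set.indicator_of_mem (show l ∈ {l | Q l} from h1)]
      exact le_self_add
    · rw [Set.indicator_of_mem (show l ∈ {l | R l} from h1)]
      exact le_add_self
  · rw [Set.indicator_of_notMem (show l ∉ {l | P l} from hP)]
    exact zero_le

theorem wsum_inj {w : List Pt → ℝ≥0∞} {P Q : List Pt → Prop} (f : List Pt → List Pt)
    (hf : Function.Injective f) (hw : ∀ l, w l ≤ w (f l)) (h : ∀ l, P l → Q (f l)) :
    wsum w P ≤ wsum w Q := by
  unfold wsum
  refine tsum_le_inj (fun l : {l // P l} => (⟨f l.1, h l.1 l.2⟩ : {l // Q l})) ?_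
    (fun l => hw l.1)
  intro a b hab
  exact Subtype.ext (hf (congrArg (fun t : {l // Q l} => t.1) hab))

theorem map_fl_inj : Function.Injective (fun l : List Pt => l.map fl) :=
  List.map_injective_iff.2 fl_inj

theorem wsum_nil (w : List Pt → ℝ≥0∞) : wsum w (fun l => l = []) = w [] := by
  unfold wsum
  rw [tsum_eq_single (⟨[], rfl⟩ : {l : List Pt // (fun l => l = []) l})
    (fun b hb => absurd (Subtype.ext b.2) hb)]

theorem map_fl_map_fl (l : List Pt) : (l.map fl).map fl = l := by
  rw [List.map_map]
  conv_rhs => rw [← List.map_id l]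
  refine List.map_congr_left fun s _ => ?_
  simp [Function.comp, fl_fl]

end Pool.Agent.Work.MP_376faf_co_win
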