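import Pool.Agent.Work.MP_376faf_co_ratio.Block

/-! Window theorem: ratio control spreads a large value over a block (form for all large n). -/

set_option autoImplicit false

namespace Pool.Agent.Work.MP_376faf_co_win

open Filter Topology Pool.Agent.Work.MP_376faf_co_ratio

theorem block_key {a : ℕ → ℝ} {k : ℕ} {A α ε : ℝ} (hk : 1 ≤ k) (hα : 0 < α) (hε : 0 < ε)
    (hpos : ∀ m, 2 ≤ m → 0 < a m)
    (hA : ∀ n : ℕ, 2 ≤ n → |a (n + 1) / a n - 1| ≤ A * √(Real.log n ^ k / n))
    : ∀ᶠ n : ℕ in atTop, (n:ℝ) ^ (-(α + ε / 2)) < a n →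
      ∀ m : ℕ, |(m:ℝ) - n| ≤ √(n / Real.log n ^ k) → (m:ℝ) ^ (-(α + ε)) < a m := by
  set A1 : ℝ := |A| * √(2 ^ (k + 1)) with hA1
  have hA10 : 0 ≤ A1 := by positivity
  have e1 := log_pow_little k ((2 * A1) ^ 2) 1 one_pos
  have e2 : ∀ᶠ n : ℕ in atTop, (1:ℝ) ≤ Real.log (n:ℝ) :=
    (Real.tendsto_log_atTop.comp (tendsto_natCast_atTop_atTop (R := ℝ))).eventually
      (eventually_ge_atTop _)
  have e3 : ∀ᶠ n : ℕ in atTop, 2 ^ (α + ε) * Real.exp (2 * A1) ≤ (n:ℝ) ^ (ε / 2) :=
    ((tendsto_rpow_atTop (by linarith : 0 < ε / 2)).comp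
      (tendsto_natCast_atTop_atTop (R := ℝ))).eventually (eventually_ge_atTop _)
  have key : ∀ᶠ n : ℕ in atTop, (n:ℝ) ^ (-(α + ε / 2)) < a n →
      ∀ m : ℕ, |(m:ℝ) - n| ≤ √(n / Real.log n ^ k) → (m:ℝ) ^ (-(α + ε)) < a m := by
    filter_upwards [e1, e2, e3, eventually_ge_atTop 16] with n h1 h2 h3 h4 hn m hm
    have hn0 : (0:ℝ) < n := by exact_mod_cast (by omega : 0 < n)
    have hn16 : (16:ℝ) ≤ n := by exact_mod_cast h4
    set L : ℝ := Real.log n ^ k with hL
    have hL1 : 1 ≤ L := one_le_pow₀ h2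
    have hsq : √(n / L) ≤ n / 4 := by
      rw [Real.sqrt_le_left (by positivity)]
      have : (n:ℝ) / L ≤ n := div_le_self hn0.le hL1
      nlinarith
    set d : ℝ := A1 * √(L / n) with hd
    have hd0 : 0 ≤ d := by positivity
    have hd2 : d ≤ 1 / 2 := by
      have h5 : (2 * d) ^ 2 ≤ 1 ^ 2 := by
        rw [hd]
        have h6 : √(L / n) ^ 2 = L / n := Real.sq_sqrt (by positivity)
        have h7 : (2 * (A1 * √(L / n))) ^ 2 = (2 * A1) ^ 2 * L / n := by
          rw [mul_pow, mul_pow, h6, mul_pow]; ring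
        rw [h7, div_le_iff₀ hn0]
        linarith
      have h8 := (pow_le_pow_iff_left₀ (by positivity) (by norm_num) (by norm_num)).1 h5
      linarith
    -- ratio control on the range
    have hrange : ∀ i : ℕ, n ≤ 2 * i → i < 2 * n → |a (i + 1) / a i - 1| ≤ d := by
      intro i hi1 hi2
      have hi0 : (0:ℝ) < i := by exact_mod_cast (by omega : 0 < i)
      have hi1' : (n:ℝ) ≤ 2 * i := by exact_mod_cast hi1
      have hi2' : (i:ℝ) ≤ 2 * n := by exact_mod_cast hi2.le
      refine (hA i (by omega)).trans ?_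
      have hlog : Real.log i ≤ 2 * Real.log n := by
        have h5 : Real.log i ≤ Real.log ((n:ℝ) ^ 2) := by
          apply Real.log_le_log hi0
          nlinarith
        rwa [Real.log_pow, Nat.cast_ofNat] at h5
      have hlog0 : 0 ≤ Real.log i := Real.log_natCast_nonneg i
      have h6 : Real.log i ^ k / i ≤ 2 ^ (k + 1) * (L / n) := by
        have h7 : Real.log i ^ k ≤ 2 ^ k * L := by
          rw [hL, ← mul_pow]
          exact pow_le_pow_left₀ hlog0 hlog k
        rw [div_le_iff₀ hi0]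
        calc Real.log i ^ k ≤ 2 ^ k * L := h7
          _ ≤ 2 ^ k * L * (2 * i / n) := by
              apply le_mul_of_one_le_right (by positivity)
              rw [le_div_iff₀ hn0]; linarith
          _ = 2 ^ (k + 1) * (L / n) * i := by rw [pow_succ]; ring
      calc A * √(Real.log i ^ k / i) ≤ |A| * √(Real.log i ^ k / i) :=
            mul_le_mul_of_nonneg_right (le_abs_self A) (Real.sqrt_nonneg _)
        _ ≤ |A| * √(2 ^ (k + 1) * (L / n)) :=
            mul_le_mul_of_nonneg_left (Real.sqrt_le_sqrt h6) (abs_nonneg A)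
        _ = d := by rw [hd, hA1, Real.sqrt_mul (by positivity)]; ring
    have habs := abs_le.1 hm
    have hm1 : (3 * n:ℝ) ≤ 4 * m := by linarith [habs.1]
    have hm2 : (4 * m:ℝ) ≤ 5 * n := by linarith [habs.2]
    have hm1' : 3 * n ≤ 4 * m := by exact_mod_cast hm1
    have hm2' : 4 * m ≤ 5 * n := by exact_mod_cast hm2
    -- lower bound
    have hlow : ∃ j : ℕ, (j:ℝ) ≤ √(n / L) ∧ (1 - d) ^ j * a n ≤ a m := by
      rcases le_total n m with h5 | h5
      · refine ⟨m - n, ?_, ?_⟩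
        · rw [Nat.cast_sub h5]; exact habs.2
        · have := walk_up (a := a) (lo := (n + 1) / 2) (hi := 2 * n) hd0 hd2
            (fun i hi => hpos i (by omega)) (fun i hi hi' => hrange i (by omega) hi') n (by omega)
            (m - n) (by omega)
          rwa [Nat.add_sub_cancel' h5] at this
      · refine ⟨n - m, ?_, ?_⟩
        · rw [Nat.cast_sub h5]; linarith [habs.1]
        · have := walk_down (a := a) (lo := (n + 1) / 2) (hi := 2 * n) hd0 hd2
            (fun i hi => hpos i (by omega)) (fun i hi hi' => hrange i (by omega) hi') n (by omega)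
            (n - m) (by omega)
          rwa [Nat.sub_sub_self h5] at this
    obtain ⟨j, hj, hja⟩ := hlow
    have hexp : Real.exp (-(2 * A1)) ≤ (1 - d) ^ j := by
      have h5 : Real.exp (-(2 * d)) ≤ 1 - d := by
        have h6 : 1 + 2 * d ≤ Real.exp (2 * d) := by
          have := Real.add_one_le_exp (2 * d); linarith
        have h7 : 1 ≤ (1 - d) * (1 + 2 * d) := by nlinarith
        have h8 : 1 ≤ (1 - d) * Real.exp (2 * d) :=
          h7.trans (mul_le_mul_of_nonneg_left h6 (by linarith))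
        rw [Real.exp_neg, inv_eq_one_div, div_le_iff₀ (Real.exp_pos _)]
        exact h8
      have h9 : d * √(n / L) = A1 := by
        rw [hd, mul_assoc, ← Real.sqrt_mul (by positivity)]
        have : L / n * (n / L) = 1 := by field_simp
        rw [this, Real.sqrt_one, mul_one]
      have h10 : 2 * d * j ≤ 2 * A1 := by
        have := mul_le_mul_of_nonneg_left hj (by positivity : 0 ≤ 2 * d)
        nlinarith
      calc Real.exp (-(2 * A1)) ≤ Real.exp (-(2 * d * j)) := by
            apply Real.exp_le_exp.2; linarith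
        _ = Real.exp (-(2 * d)) ^ j := by rw [← Real.exp_nat_mul]; congr 1; ring
        _ ≤ (1 - d) ^ j := pow_le_pow_left₀ (Real.exp_pos _).le h5 j
    have hm0 : (0:ℝ) < m := by linarith
    have hmn : (m:ℝ) ^ (-(α + ε)) ≤ 2 ^ (α + ε) * (n:ℝ) ^ (-(α + ε)) := by
      have h5 : (m:ℝ) ^ (-(α + ε)) ≤ ((n:ℝ) / 2) ^ (-(α + ε)) :=
        Real.rpow_le_rpow_of_nonpos (by positivity) (by linarith) (by linarith)
      refine h5.trans (le_of_eq ?_)
      rw [Real.div_rpow hn0.le (by norm_num), Real.rpow_neg (by norm_num : (0:ℝ) ≤ 2), div_inv_eq_mul,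
        mul_comm]
    have hsplit : (n:ℝ) ^ (-(α + ε)) * (n:ℝ) ^ (ε / 2) = (n:ℝ) ^ (-(α + ε / 2)) := by
      rw [← Real.rpow_add hn0]; congr 1; ring
    have hnε : 0 < (n:ℝ) ^ (-(α + ε)) := Real.rpow_pos_of_pos hn0 _
    calc (m:ℝ) ^ (-(α + ε)) ≤ 2 ^ (α + ε) * (n:ℝ) ^ (-(α + ε)) := hmn
      _ = Real.exp (-(2 * A1)) * ((2 ^ (α + ε) * Real.exp (2 * A1)) * (n:ℝ) ^ (-(α + ε))) := by
          have : Real.exp (-(2 * A1)) * Real.exp (2 * A1) = 1 := by
            rw [← Real.exp_add]; simp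
          calc (2:ℝ) ^ (α + ε) * (n:ℝ) ^ (-(α + ε)) =
              (Real.exp (-(2 * A1)) * Real.exp (2 * A1)) * (2 ^ (α + ε) * (n:ℝ) ^ (-(α + ε))) := by
                rw [this, one_mul]
            _ = _ := by ring
      _ ≤ Real.exp (-(2 * A1)) * ((n:ℝ) ^ (ε / 2) * (n:ℝ) ^ (-(α + ε))) := by
          apply mul_le_mul_of_nonneg_left _ (Real.exp_pos _).le
          exact mul_le_mul_of_nonneg_right h3 hnε.le
      _ = Real.exp (-(2 * A1)) * (n:ℝ) ^ (-(α + ε / 2)) := by rw [mul_comm ((n:ℝ) ^ (ε / 2)), hsplit]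
      _ < Real.exp (-(2 * A1)) * a n := mul_lt_mul_of_pos_left hn (Real.exp_pos _)
      _ ≤ (1 - d) ^ j * a n := mul_le_mul_of_nonneg_right hexp (hpos n (by omega)).le
      _ ≤ a m := hja
  exact key

end Pool.Agent.Work.MP_376faf_co_win
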