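import Pool.Agent.Work.MP_376faf_co_win.Ana

/-! Window theorem: admissible parameters exist for all large n. -/

set_option autoImplicit false

namespace Pool.Agent.Work.MP_376faf_co_win

open Filter Topology

theorem log_pow_ev {c t u : ℝ} (hc : 0 ≤ c) (ht : 0 < t) (hu : 0 < u) :
    ∀ᶠ n : ℕ in atTop, (c * Real.log n) ^ t ≤ (n:ℝ) ^ u := by
  have h1 := (isLittleO_log_rpow_rpow_atTop t hu).bound
    (show 0 < (1 / (c + 1) ^ t : ℝ) by positivity)
  have h2 := (tendsto_natCast_atTop_atTop (R := ℝ)).eventually h1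
  filter_upwards [h2, eventually_ge_atTop 1] with n hn h3
  have hn0 : (0:ℝ) < n := by exact_mod_cast h3
  have hl : 0 ≤ Real.log n := Real.log_natCast_nonneg n
  rw [Real.norm_of_nonneg (by positivity), Real.norm_of_nonneg (by positivity),
    one_div, inv_mul_eq_div, le_div_iff₀ (by positivity)] at hn
  calc (c * Real.log n) ^ t ≤ ((c + 1) * Real.log n) ^ t :=
        Real.rpow_le_rpow (by positivity) (mul_le_mul_of_nonneg_right (by linarith) hl) ht.le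
    _ = Real.log n ^ t * (c + 1) ^ t := by rw [Real.mul_rpow (by positivity) hl, mul_comm]
    _ ≤ _ := hn

theorem const_ev (c : ℝ) {u : ℝ} (hu : 0 < u) : ∀ᶠ n : ℕ in atTop, c ≤ (n:ℝ) ^ u :=
  ((tendsto_rpow_atTop hu).comp tendsto_natCast_atTop_atTop).eventually_ge_atTop c

/-- number of iterations -/
def pz (a n : ℕ) : ℕ := a * (Nat.log 2 n + 1) + 1

/-- ratio of scales -/
def ps (a n : ℕ) : ℕ := 3 * (pz a n + 1)

theorem ps_ge (a n : ℕ) : 3 ≤ ps a n := by unfold ps; omega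

theorem ps_le {a n : ℕ} (h1 : 1 ≤ Real.log n) : (ps a n : ℝ) ≤ (9 * a + 6) * Real.log n := by
  have hn : n ≠ 0 := by
    rintro rfl
    simp at h1
    linarith
  have h2 : ((Nat.log 2 n : ℕ) : ℝ) * Real.log 2 ≤ Real.log n := by
    have h3 := Nat.pow_log_le_self 2 hn
    have h4 : ((2:ℝ)) ^ (Nat.log 2 n) ≤ n := by exact_mod_cast h3
    have h5 := Real.log_le_log (by positivity) h4
    rwa [Real.log_pow] at h5
  have h6 : (1:ℝ) / 2 ≤ Real.log 2 := by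
    have := Real.log_two_gt_d9
    linarith
  have h7 : ((Nat.log 2 n : ℕ) : ℝ) ≤ 2 * Real.log n := by
    have h0 : (0:ℝ) ≤ ((Nat.log 2 n : ℕ) : ℝ) := Nat.cast_nonneg _
    nlinarith
  unfold ps pz
  push_cast
  have ha : (0:ℝ) ≤ a := Nat.cast_nonneg a
  nlinarith [mul_le_mul_of_nonneg_left h7 ha, mul_le_mul_of_nonneg_left h1 ha]

theorem ps_ev (a : ℕ) {t u : ℝ} (ht : 0 < t) (hu : 0 < u) :
    ∀ᶠ n : ℕ in atTop, ((ps a n : ℕ) : ℝ) ^ t ≤ (n:ℝ) ^ u := by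
  have e2 : ∀ᶠ n : ℕ in atTop, (1:ℝ) ≤ Real.log (n:ℝ) :=
    (Real.tendsto_log_atTop.comp (tendsto_natCast_atTop_atTop (R := ℝ))).eventually
      (eventually_ge_atTop _)
  filter_upwards [log_pow_ev (c := 9 * a + 6) (by positivity) ht hu, e2] with n h1 h2
  exact (Real.rpow_le_rpow (by positivity) (ps_le h2) ht.le).trans h1

theorem eight_pow {a n : ℕ} (hn : 1 ≤ n) : 2 * (n:ℝ) ^ a ≤ 8 ^ (pz a n) := by
  have h1 : n < 2 ^ (Nat.log 2 n + 1) := Nat.lt_pow_succ_log_self (by norm_num) n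
  have h2 : (n:ℝ) ≤ 8 ^ (Nat.log 2 n + 1) := by
    have h3 : n ≤ 8 ^ (Nat.log 2 n + 1) := h1.le.trans (Nat.pow_le_pow_left (by norm_num) _)
    exact_mod_cast h3
  have h4 : (n:ℝ) ^ a ≤ (8 ^ (Nat.log 2 n + 1)) ^ a := pow_le_pow_left₀ (by positivity) h2 a
  unfold pz
  rw [pow_succ, mul_comm a, pow_mul]
  have h5 : (0:ℝ) ≤ (8 ^ (Nat.log 2 n + 1)) ^ a := by positivity
  linarith

theorem geom_le {θ : ℝ} (h0 : 0 ≤ θ) (h1 : θ < 1) (n : ℕ) :
    ∑ k ∈ Finset.range n, θ ^ k ≤ 1 / (1 - θ) := by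
  rw [le_div_iff₀ (by linarith), mul_comm, mul_neg_geom_sum]
  linarith [pow_nonneg h0 n]

theorem aux1 {y N z : ℝ} (hy : 2 ≤ y) (hN : 1 ≤ N) (h : z ≤ y) :
    z * N + 1 ≤ N * (y * y * (y * y)) := by
  have h1 : z * N ≤ y * N := mul_le_mul_of_nonneg_right h (by linarith)
  have h2 : 2 * y ≤ y * y := mul_le_mul_of_nonneg_right hy (by linarith)
  have h3 : 1 * (y * y) ≤ (y * y) * (y * y) :=
    mul_le_mul_of_nonneg_right (by linarith) (by positivity)
  have h4 : N * (y + 1) ≤ N * (y * y * (y * y)) :=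
    mul_le_mul_of_nonneg_left (by linarith) (by linarith)
  linarith

theorem aux2 {y N : ℝ} (hy : 24 ≤ y) (hN : 1 ≤ N) :
    8 * (y * N) * (y * y + 1) + 1 ≤ N * (y * y * (y * y)) := by
  have hy0 : 0 < y := by linarith
  have h1 : 24 * (y * y * y) ≤ y * (y * y * y) := mul_le_mul_of_nonneg_right hy (by positivity)
  have h2 : 1 * y ≤ y * y * y := by
    have : 1 ≤ y * y := by nlinarith
    exact mul_le_mul_of_nonneg_right this hy0.le
  have h3 : 8 * y * (y * y + 1) + 1 ≤ y * y * (y * y) := by linarith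
  have h4 : N * (8 * y * (y * y + 1) + 1) ≤ N * (y * y * (y * y)) :=
    mul_le_mul_of_nonneg_left h3 (by linarith)
  linarith

theorem aux3 {n : ℝ} (hn : 64 ≤ n) : 64 * n ^ 2 ≤ n ^ 3 := by
  have : 64 * n ^ 2 ≤ n * n ^ 2 := mul_le_mul_of_nonneg_right hn (by positivity)
  linarith

theorem par_exists {κ ε C B M0 : ℝ} (hκ : 2 < κ) (hε : 8 / κ < ε) (hC : 0 < C) (hB : 0 ≤ B)
    (hM0 : 1 ≤ M0) : ∀ᶠ n : ℕ in atTop, ∃ p K J H : ℕ, ∃ β Λ : ℝ,
    Par κ ε C B M0 n p K J H β Λ := by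
  have hκ0 : 0 < κ := by linarith
  have hε0 : 0 < ε := lt_trans (by positivity) hε
  -- the exponents
  obtain ⟨s, hs1, hs2, hs3⟩ : ∃ s : ℝ, 1 < s ∧ 4 < s * ε ∧ 2 * s < κ := by
    have h1 : 4 / ε < κ / 2 := by
      rw [div_lt_div_iff₀ hε0 (by norm_num)]
      rw [div_lt_iff₀ hκ0] at hε
      linarith
    have h2 : max 1 (4 / ε) < κ / 2 := max_lt (by linarith) h1
    obtain ⟨s, h3, h4⟩ := exists_between h2
    refine ⟨s, lt_of_le_of_lt (le_max_left _ _) h3, ?_, by linarith⟩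
    have h5 := lt_of_le_of_lt (le_max_right 1 (4 / ε)) h3
    rwa [div_lt_iff₀ hε0] at h5
  obtain ⟨δ, hδ0, hδ⟩ : ∃ δ : ℝ, 0 < δ ∧ 2 * s + δ < κ := ⟨(κ - 2 * s) / 2, by linarith, by linarith⟩
  obtain ⟨η, hη0, hη⟩ : ∃ η : ℝ, 0 < η ∧ s * (ε / 2) = 2 + 4 * η :=
    ⟨(s * (ε / 2) - 2) / 4, by linarith, by ring⟩
  set J : ℕ := ⌈3 / η⌉₊ with hJ
  have hJη : 3 ≤ η * J := by
    have := Nat.le_ceil (3 / η)
    rw [← hJ, div_le_iff₀ hη0] at this
    linarith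
  have hJ0 : (0:ℝ) < J := by
    by_contra h
    have h0 : (J:ℝ) ≤ 0 := not_lt.1 h
    have h0' : η * (J:ℝ) ≤ 0 := mul_nonpos_of_nonneg_of_nonpos hη0.le h0
    linarith
  set a : ℕ := ⌈s⌉₊ with ha
  have has : s ≤ a := Nat.le_ceil s
  set θ : ℝ := (3:ℝ) ^ (-(ε / 4)) with hθ
  have hθ0 : 0 < θ := by positivity
  have hθ1 : θ < 1 := Real.rpow_lt_one_of_one_lt_of_neg (by norm_num) (by linarith)
  set A : ℝ := Real.log (1440 * M0 ^ 2) + (6 * s + 2) + 2 * B * (2 * s + 1) ^ 3 with hA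
  have hA1 : 0 ≤ Real.log (1440 * M0 ^ 2) := Real.log_nonneg (by nlinarith)
  have hA0 : 0 ≤ A := by
    have h1 : 0 ≤ 2 * B * (2 * s + 1) ^ 3 := by positivity
    rw [hA]
    linarith
  -- the eventual facts
  have e2 : ∀ᶠ n : ℕ in atTop, (1:ℝ) ≤ Real.log (n:ℝ) :=
    (Real.tendsto_log_atTop.comp (tendsto_natCast_atTop_atTop (R := ℝ))).eventually
      (eventually_ge_atTop _)
  filter_upwards [e2, eventually_ge_atTop 64, ps_ev a hJ0 (sub_pos.2 hs1),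
    ps_ev a (t := J * (ε / 2)) (by positivity) hη0, ps_ev a one_pos (by linarith : 0 < δ / 4),
    const_ev 2 (by linarith : 0 < δ / 4), ps_ev a one_pos (by linarith : 0 < (κ - 2 * s - δ) / 2),
    const_ev 2 (by linarith : 0 < (κ - 2 * s - δ) / 2),
    const_ev (2 * √(2 * C) / (1 - θ) / Real.log 2) (by linarith : 0 < ε / 4),
    const_ev (256 * C) (by linarith : 0 < 2 * η), ps_ev a one_pos one_pos,
    const_ev 24 (by linarith : 0 < δ / 4),
    log_pow_ev (c := (2 * A) ^ (1 / 3 : ℝ)) (t := 3) (by positivity) (by norm_num)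
      (by linarith : 0 < δ / 2)] with n h1 h64 h3 h4 h5 h6 h7 h8 h9 h10 h11 h12 h13
  rw [Real.rpow_one] at h5 h7 h11 h11
  have hn1 : 1 ≤ n := by omega
  have hn0 : (0:ℝ) < n := by exact_mod_cast hn1
  have hnR : (1:ℝ) ≤ n := by exact_mod_cast hn1
  have hn64 : (64:ℝ) ≤ n := by exact_mod_cast h64
  set ψ : ℕ := ps a n with hψ
  have hψ3 : 3 ≤ ψ := ps_ge a n
  have hψR : (3:ℝ) ≤ ψ := by exact_mod_cast hψ3
  have hψ0 : (0:ℝ) < ψ := by linarith
  set m : ℕ := ⌊(n:ℝ) ^ (s - 1)⌋₊ with hm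
  have hm1 : 1 ≤ m := by
    rw [hm, Nat.one_le_floor_iff]
    exact Real.one_le_rpow hnR (by linarith)
  set K : ℕ := Nat.log ψ m with hK
  have hKle : ((ψ ^ K : ℕ) : ℝ) ≤ (n:ℝ) ^ (s - 1) := by
    have h := Nat.pow_log_le_self ψ (by omega : m ≠ 0)
    refine le_trans ?_ (Nat.floor_le (by positivity : (0:ℝ) ≤ (n:ℝ) ^ (s - 1)))
    exact_mod_cast h
  have hKlt : (n:ℝ) ^ (s - 1) < ((ψ ^ (K + 1) : ℕ) : ℝ) := by
    have h := Nat.lt_pow_succ_log_self (by omega : 1 < ψ) m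
    rw [hm, Nat.floor_lt (by positivity)] at h
    exact h
  have hsn : (n:ℝ) ^ (s - 1) * n = (n:ℝ) ^ s := by
    rw [← Real.rpow_add_one hn0.ne']
    congr 1
    ring
  have hSk : ∀ k ≤ K, ((ψ ^ k * n : ℕ) : ℝ) ≤ (n:ℝ) ^ s := by
    intro k hk
    have h : ((ψ ^ k : ℕ) : ℝ) ≤ ((ψ ^ K : ℕ) : ℝ) := by
      exact_mod_cast Nat.pow_le_pow_right (by omega) hk
    rw [Nat.cast_mul, ← hsn]
    exact mul_le_mul_of_nonneg_right (h.trans hKle) hn0.le
  have hRk : ∀ k ≤ K, ((ψ ^ (k + 1) * n : ℕ) : ℝ) ≤ ψ * (n:ℝ) ^ s := by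
    intro k hk
    have h := hSk k hk
    have e : ((ψ ^ (k + 1) * n : ℕ) : ℝ) = ψ * ((ψ ^ k * n : ℕ) : ℝ) := by
      push_cast
      ring
    rw [e]
    exact mul_le_mul_of_nonneg_left h hψ0.le
  set H : ℕ := ⌊(n:ℝ) ^ (s + δ)⌋₊ with hH
  have hHle : (H:ℝ) ≤ (n:ℝ) ^ (s + δ) := Nat.floor_le (by positivity)
  have hHgt : (n:ℝ) ^ (s + δ) < H + 1 := Nat.lt_floor_add_one _
  have hns1 : 1 ≤ (n:ℝ) ^ s := Real.one_le_rpow hnR (by linarith)
  have hnδ : (n:ℝ) ^ (s + δ) = (n:ℝ) ^ s * ((n:ℝ) ^ (δ / 4) * (n:ℝ) ^ (δ / 4) *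
      ((n:ℝ) ^ (δ / 4) * (n:ℝ) ^ (δ / 4))) := by
    rw [← Real.rpow_add hn0, ← Real.rpow_add hn0, ← Real.rpow_add hn0]
    congr 1
    ring
  set y : ℝ := (n:ℝ) ^ (δ / 4) with hy
  have hy0 : 0 < y := by positivity
  refine ⟨pz a n, K, J, H, (n:ℝ) ^ η, (2 * s + 1) * Real.log n, ?_⟩
  have hψe : 3 * (pz a n + 1) = ψ := rfl
  refine ⟨hn1, ?_, ?_, ?_, ?_, ?_, by positivity, ?_, ?_, ?_, ?_⟩
  · -- JK
    rw [hK]
    refine (Nat.le_log_iff_pow_le (by omega) (by omega)).2 ?_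
    rw [hm]
    refine Nat.le_floor ?_
    push_cast
    rw [← Real.rpow_natCast]
    exact h3
  · -- pp
    intro k hk
    rw [hψe]
    have e := eight_pow (a := a) hn1
    have e3 : (n:ℝ) ^ s ≤ (n:ℝ) ^ a := by
      rw [← Real.rpow_natCast]
      exact Real.rpow_le_rpow_of_exponent_le hnR has
    have e4 := hSk k hk
    have e5 : ((2 * (ψ ^ k * n) : ℕ) : ℝ) ≤ ((8 ^ pz a n : ℕ) : ℝ) := by
      rw [Nat.cast_mul, Nat.cast_pow 8]
      push_cast at e4 ⊢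
      linarith
    exact_mod_cast e5
  · -- hH
    rw [hψe]
    have e1 := hRk K le_rfl
    have e2 : ψ * (n:ℝ) ^ s + 1 ≤ (n:ℝ) ^ (s + δ) := by
      rw [hnδ]
      exact aux1 h6 hns1 h5
    have e7 : ((ψ ^ (K + 1) * n : ℕ) : ℝ) < (H:ℝ) + 1 := by linarith
    have e8 : ((ψ ^ (K + 1) * n : ℕ) : ℝ) < ((H + 1 : ℕ) : ℝ) := by push_cast at e7 ⊢; exact e7
    have := Nat.cast_lt.1 e8
    omega
  · -- hL
    rw [hψe]
    have e1 := hRk K le_rfl
    rw [Nat.cast_mul]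
    have e2 : ((H + 1 : ℕ) : ℝ) ≤ 2 * (n:ℝ) ^ (s + δ) := by
      have : 1 ≤ (n:ℝ) ^ (s + δ) := Real.one_le_rpow hnR (by linarith)
      push_cast
      linarith
    set z : ℝ := (n:ℝ) ^ ((κ - 2 * s - δ) / 2) with hz
    have hz0 : 0 < z := by positivity
    calc ((ψ ^ (K + 1) * n : ℕ) : ℝ) * ((H + 1 : ℕ) : ℝ)
        ≤ (ψ * (n:ℝ) ^ s) * (2 * (n:ℝ) ^ (s + δ)) :=
          mul_le_mul e1 e2 (by positivity) (by positivity)
      _ ≤ (z * (n:ℝ) ^ s) * (z * (n:ℝ) ^ (s + δ)) := by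
          refine mul_le_mul ?_ ?_ (by positivity) (by positivity)
          · exact mul_le_mul_of_nonneg_right h7 (by positivity)
          · exact mul_le_mul_of_nonneg_right h8 (by positivity)
      _ = (n:ℝ) ^ κ := by
          rw [hz, ← Real.rpow_add hn0, ← Real.rpow_add hn0, ← Real.rpow_add hn0]
          congr 1
          ring
  · -- hsum
    rw [hψe]
    have e1 : ∀ k, 2 * √(2 * (C * ((ψ ^ k * n : ℕ) : ℝ) ^ (-(ε / 2)))) ≤
        2 * √(2 * C) * (n:ℝ) ^ (-(ε / 4)) * θ ^ k := by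
      intro k
      have e3 : (3:ℝ) ^ k * n ≤ ((ψ ^ k * n : ℕ) : ℝ) := by
        rw [Nat.cast_mul, Nat.cast_pow]
        exact mul_le_mul_of_nonneg_right (pow_le_pow_left₀ (by norm_num) hψR k) hn0.le
      have e4 : ((ψ ^ k * n : ℕ) : ℝ) ^ (-(ε / 2)) ≤ ((3:ℝ) ^ k * n) ^ (-(ε / 2)) :=
        Real.rpow_le_rpow_of_nonpos (by positivity) e3 (by linarith)
      have e5 : √(2 * (C * ((ψ ^ k * n : ℕ) : ℝ) ^ (-(ε / 2)))) ≤
          √(2 * C * ((3:ℝ) ^ k * n) ^ (-(ε / 2))) := by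
        refine Real.sqrt_le_sqrt ?_
        rw [← mul_assoc]
        exact mul_le_mul_of_nonneg_left e4 (by positivity)
      have e6 : √(2 * C * ((3:ℝ) ^ k * n) ^ (-(ε / 2))) =
          √(2 * C) * ((n:ℝ) ^ (-(ε / 4)) * θ ^ k) := by
        rw [Real.sqrt_mul (by positivity)]
        congr 1
        rw [Real.sqrt_eq_rpow, ← Real.rpow_mul (by positivity),
          Real.mul_rpow (by positivity) (by positivity), mul_comm, hθ, ← Real.rpow_natCast,
          ← Real.rpow_natCast, ← Real.rpow_mul (by norm_num), ← Real.rpow_mul (by norm_num)]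
        congr 2
        · ring
        · ring
      calc 2 * √(2 * (C * ((ψ ^ k * n : ℕ) : ℝ) ^ (-(ε / 2))))
          ≤ 2 * (√(2 * C) * ((n:ℝ) ^ (-(ε / 4)) * θ ^ k)) := by
            rw [← e6]
            exact mul_le_mul_of_nonneg_left e5 (by norm_num)
        _ = _ := by ring
    calc _ ≤ ∑ k ∈ Finset.range (K + 1), 2 * √(2 * C) * (n:ℝ) ^ (-(ε / 4)) * θ ^ k :=
          Finset.sum_le_sum fun k _ => e1 k
      _ = 2 * √(2 * C) * (n:ℝ) ^ (-(ε / 4)) * ∑ k ∈ Finset.range (K + 1), θ ^ k := by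
          rw [Finset.mul_sum]
      _ ≤ 2 * √(2 * C) * (n:ℝ) ^ (-(ε / 4)) * (1 / (1 - θ)) := by
          exact mul_le_mul_of_nonneg_left (geom_le hθ0.le hθ1 _) (by positivity)
      _ ≤ Real.log 2 := by
          have hl2 : 0 < Real.log 2 := Real.log_pos (by norm_num)
          rw [div_le_iff₀ hl2] at h9
          have e7 : (n:ℝ) ^ (-(ε / 4)) * (n:ℝ) ^ (ε / 4) = 1 := by
            rw [← Real.rpow_add hn0]
            simp
          have e8 : 0 < (n:ℝ) ^ (-(ε / 4)) := by positivity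
          calc 2 * √(2 * C) * (n:ℝ) ^ (-(ε / 4)) * (1 / (1 - θ))
              = (n:ℝ) ^ (-(ε / 4)) * (2 * √(2 * C) / (1 - θ)) := by ring
            _ ≤ (n:ℝ) ^ (-(ε / 4)) * ((n:ℝ) ^ (ε / 4) * Real.log 2) :=
                mul_le_mul_of_nonneg_left h9 e8.le
            _ = (n:ℝ) ^ (-(ε / 4)) * (n:ℝ) ^ (ε / 4) * Real.log 2 := by ring
            _ = Real.log 2 := by rw [e7, one_mul]
  · -- hRJ
    intro k hk1 hk
    rw [hψe]
    have e1 : (n:ℝ) ^ s ≤ ((ψ ^ k * n : ℕ) : ℝ) * (ψ:ℝ) ^ J := by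
      have e2 : ((ψ ^ (K + 1) : ℕ) : ℝ) ≤ ((ψ ^ (k + J) : ℕ) : ℝ) := by
        exact_mod_cast Nat.pow_le_pow_right (by omega) hk1
      rw [← hsn]
      calc (n:ℝ) ^ (s - 1) * n ≤ ((ψ ^ (k + J) : ℕ) : ℝ) * n :=
            mul_le_mul_of_nonneg_right (hKlt.le.trans e2) hn0.le
        _ = _ := by push_cast; ring
    have e2 : ((ψ ^ k * n : ℕ) : ℝ) ^ (-(ε / 2)) ≤
        (n:ℝ) ^ (-(s * (ε / 2))) * ((ψ:ℝ) ^ J) ^ (ε / 2) := by
      have e3 : (0:ℝ) < ((ψ ^ k * n : ℕ) : ℝ) := by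
        have : 0 < ψ ^ k * n := Nat.mul_pos (Nat.pow_pos (by omega)) hn1
        exact_mod_cast this
      have e4 : (((ψ ^ k * n : ℕ) : ℝ) * (ψ:ℝ) ^ J) ^ (-(ε / 2)) ≤ ((n:ℝ) ^ s) ^ (-(ε / 2)) :=
        Real.rpow_le_rpow_of_nonpos (by positivity) e1 (by linarith)
      rw [Real.mul_rpow e3.le (by positivity), ← Real.rpow_mul hn0.le] at e4
      have e5 : ((ψ:ℝ) ^ J) ^ (-(ε / 2)) * ((ψ:ℝ) ^ J) ^ (ε / 2) = 1 := by
        rw [← Real.rpow_add (by positivity)]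
        simp
      have e6 : (0:ℝ) < ((ψ:ℝ) ^ J) ^ (ε / 2) := by positivity
      calc ((ψ ^ k * n : ℕ) : ℝ) ^ (-(ε / 2)) = ((ψ ^ k * n : ℕ) : ℝ) ^ (-(ε / 2)) *
            (((ψ:ℝ) ^ J) ^ (-(ε / 2)) * ((ψ:ℝ) ^ J) ^ (ε / 2)) := by rw [e5, mul_one]
        _ = ((ψ ^ k * n : ℕ) : ℝ) ^ (-(ε / 2)) * ((ψ:ℝ) ^ J) ^ (-(ε / 2)) *
            ((ψ:ℝ) ^ J) ^ (ε / 2) := by ring
        _ ≤ (n:ℝ) ^ (s * -(ε / 2)) * ((ψ:ℝ) ^ J) ^ (ε / 2) :=
            mul_le_mul_of_nonneg_right e4 e6.le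
        _ = _ := by
            congr 2
            ring
    have e7 : ((ψ:ℝ) ^ J) ^ (ε / 2) ≤ (n:ℝ) ^ η := by
      rw [← Real.rpow_natCast, ← Real.rpow_mul hψ0.le]
      exact h4
    have e8 : ((ψ ^ k * n : ℕ) : ℝ) ^ (-(ε / 2)) ≤ (n:ℝ) ^ (-(2 + 4 * η)) * (n:ℝ) ^ η := by
      rw [← hη]
      exact e2.trans (mul_le_mul_of_nonneg_left e7 (by positivity))
    have e9 : (1:ℝ) ≤ (n:ℝ) ^ η := Real.one_le_rpow hnR hη0.le
    calc 128 * (n:ℝ) ^ 2 * ((n:ℝ) ^ η + 1) * (C * ((ψ ^ k * n : ℕ) : ℝ) ^ (-(ε / 2)))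
        ≤ 128 * (n:ℝ) ^ 2 * (2 * (n:ℝ) ^ η) * (C * ((n:ℝ) ^ (-(2 + 4 * η)) * (n:ℝ) ^ η)) := by
          refine mul_le_mul ?_ ?_ (by positivity) (by positivity)
          · exact mul_le_mul_of_nonneg_left (by linarith) (by positivity)
          · exact mul_le_mul_of_nonneg_left e8 hC.le
      _ = 256 * C * ((n:ℝ) ^ (2:ℝ) * (n:ℝ) ^ η * ((n:ℝ) ^ (-(2 + 4 * η)) * (n:ℝ) ^ η)) := by
          rw [Real.rpow_two]
          ring
      _ = 256 * C * (n:ℝ) ^ (-(2 * η)) := by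
          rw [← Real.rpow_add hn0, ← Real.rpow_add hn0, ← Real.rpow_add hn0]
          congr 2
          ring
      _ ≤ (n:ℝ) ^ (2 * η) * (n:ℝ) ^ (-(2 * η)) := mul_le_mul_of_nonneg_right h10 (by positivity)
      _ = 1 := by
          rw [← Real.rpow_add hn0]
          simp
  · -- hβJ
    have e0 : ((n:ℝ) ^ η) ^ J = (n:ℝ) ^ (η * (J:ℝ)) := by
      rw [← Real.rpow_natCast, ← Real.rpow_mul hn0.le]
    rw [e0]
    have e1 : (n:ℝ) ^ (3:ℝ) ≤ (n:ℝ) ^ (η * (J:ℝ)) := Real.rpow_le_rpow_of_exponent_le hnR hJη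
    have e2 : (n:ℝ) ^ (3:ℝ) = (n:ℝ) ^ 3 := by
      rw [← Real.rpow_natCast]
      norm_num
    rw [e2] at e1
    exact (aux3 hn64).trans e1
  · -- hΛ
    intro k hk
    rw [hψe]
    have e1 := hSk k hk
    have e2 := hRk k hk
    have e3 : ((ψ ^ k * n * (ψ ^ (k + 1) * n) : ℕ) : ℝ) ≤ (n:ℝ) ^ (2 * s + 1) := by
      rw [Nat.cast_mul]
      calc _ ≤ (n:ℝ) ^ s * (ψ * (n:ℝ) ^ s) := mul_le_mul e1 e2 (by positivity) (by positivity)
        _ ≤ (n:ℝ) ^ s * (n * (n:ℝ) ^ s) :=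
            mul_le_mul_of_nonneg_left (mul_le_mul_of_nonneg_right (by simpa using h11)
              (by positivity)) (by positivity)
        _ = (n:ℝ) ^ s * (n:ℝ) ^ s * n := by ring
        _ = _ := by
            rw [← Real.rpow_add hn0, ← Real.rpow_add_one hn0.ne']
            congr 1
            ring
    have e4 : 0 < ψ ^ k * n * (ψ ^ (k + 1) * n) :=
      Nat.mul_pos (Nat.mul_pos (Nat.pow_pos (by omega)) hn1)
        (Nat.mul_pos (Nat.pow_pos (by omega)) hn1)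
    have e5 := Real.log_le_log (by exact_mod_cast e4) e3
    rwa [Real.log_rpow hn0] at e5
  · -- hbox
    intro k hk
    rw [hψe]
    have e1 := hSk k hk
    have e2 := hRk k hk
    have e3 : ((ψ ^ k * n * (ψ ^ (k + 1) * n) : ℕ) : ℝ) ≤ (n:ℝ) ^ (2 * s + 1) := by
      rw [Nat.cast_mul]
      calc _ ≤ (n:ℝ) ^ s * (ψ * (n:ℝ) ^ s) := mul_le_mul e1 e2 (by positivity) (by positivity)
        _ ≤ (n:ℝ) ^ s * (n * (n:ℝ) ^ s) :=
            mul_le_mul_of_nonneg_left (mul_le_mul_of_nonneg_right (by simpa using h11)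
              (by positivity)) (by positivity)
        _ = (n:ℝ) ^ s * (n:ℝ) ^ s * n := by ring
        _ = _ := by
            rw [← Real.rpow_add hn0, ← Real.rpow_add_one hn0.ne']
            congr 1
            ring
    set D : ℕ := 8 * (ψ ^ (k + 1) * n) with hD
    have hD0 : 0 < D := by
      rw [hD]
      exact Nat.mul_pos (by norm_num) (Nat.mul_pos (Nat.pow_pos (by omega)) hn1)
    have hDle : (D:ℝ) ≤ 8 * (y * (n:ℝ) ^ s) := by
      rw [hD, Nat.cast_mul]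
      have : ((ψ ^ (k + 1) * n : ℕ) : ℝ) ≤ y * (n:ℝ) ^ s :=
        e2.trans (mul_le_mul_of_nonneg_right h5 (by positivity))
      push_cast at this ⊢
      linarith
    have hDR : (0:ℝ) < D := by exact_mod_cast hD0
    have e4 : (H:ℝ) < D * ((H / D : ℕ) + 1) := by
      have := Nat.lt_mul_div_succ H hD0
      exact_mod_cast this
    have e5 : y * y ≤ ((H / D : ℕ) : ℝ) := by
      by_contra hcon
      push Not at hcon
      have e6 : (H:ℝ) < 8 * (y * (n:ℝ) ^ s) * (y * y + 1) := by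
        refine e4.trans_le ?_
        exact mul_le_mul hDle (by linarith) (by positivity) (by positivity)
      have e7 : (n:ℝ) ^ s * (y * y * (y * y)) < 8 * (y * (n:ℝ) ^ s) * (y * y + 1) + 1 := by
        rw [← hnδ]
        linarith
      have e8 := aux2 h12 hns1
      linarith
    have e6 : Real.exp (y * y / 2) ≤ 2 ^ (H / D) := by
      have hl2 : (1:ℝ) / 2 ≤ Real.log 2 := by
        have := Real.log_two_gt_d9
        linarith
      calc Real.exp (y * y / 2) ≤ Real.exp (((H / D : ℕ) : ℝ) * Real.log 2) := by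
            refine Real.exp_le_exp.2 ?_
            have h0 : (0:ℝ) ≤ ((H / D : ℕ) : ℝ) := Nat.cast_nonneg _
            have h0' := mul_le_mul_of_nonneg_left hl2 h0
            linarith
        _ = 2 ^ (H / D) := by
            rw [Real.exp_nat_mul, Real.exp_log (by norm_num)]
    refine le_trans ?_ e6
    have hyy : y * y = (n:ℝ) ^ (δ / 2) := by
      rw [hy, ← Real.rpow_add hn0]
      congr 1
      ring
    have hl0 : 0 ≤ Real.log n := by linarith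
    have e7 : 2 * A * Real.log n ^ 3 ≤ y * y := by
      rw [hyy]
      refine le_trans (le_of_eq ?_) h13
      rw [Real.mul_rpow (by positivity) hl0, ← Real.rpow_mul (by positivity)]
      norm_num
    set M : ℝ := M0 * Real.exp (B * ((2 * s + 1) * Real.log n) ^ 3) with hM
    have hM0' : 0 < M0 := by linarith
    have e8 : (((ψ ^ k * n * (ψ ^ (k + 1) * n) : ℕ) : ℝ) * M) ^ 2 ≤
        ((n:ℝ) ^ (2 * s + 1) * M) ^ 2 := by
      refine pow_le_pow_left₀ (by positivity) ?_ 2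
      exact mul_le_mul_of_nonneg_right e3 (by positivity)
    have e9 : ((ψ ^ k * n : ℕ) : ℝ) ^ 2 ≤ ((n:ℝ) ^ s) ^ 2 := pow_le_pow_left₀ (by positivity) e1 2
    calc 1440 * (((ψ ^ k * n * (ψ ^ (k + 1) * n) : ℕ) : ℝ) * M) ^ 2 * ((ψ ^ k * n : ℕ) : ℝ) ^ 2
        ≤ 1440 * ((n:ℝ) ^ (2 * s + 1) * M) ^ 2 * ((n:ℝ) ^ s) ^ 2 :=
          mul_le_mul (mul_le_mul_of_nonneg_left e8 (by norm_num)) e9 (by positivity)
            (by positivity)
      _ = Real.exp (Real.log (1440 * M0 ^ 2) + (6 * s + 2) * Real.log n +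
            2 * B * (2 * s + 1) ^ 3 * Real.log n ^ 3) := by
          have e0 : Real.exp ((6 * s + 2) * Real.log n) = (n:ℝ) ^ (6 * s + 2) := by
            rw [Real.rpow_def_of_pos hn0, mul_comm]
          rw [Real.exp_add, Real.exp_add, Real.exp_log (by positivity), hM, e0]
          have e10 : ((n:ℝ) ^ (2 * s + 1)) ^ 2 * ((n:ℝ) ^ s) ^ 2 = (n:ℝ) ^ (6 * s + 2) := by
            rw [← Real.rpow_natCast, ← Real.rpow_natCast, ← Real.rpow_mul hn0.le,
              ← Real.rpow_mul hn0.le, ← Real.rpow_add hn0]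
            congr 1
            push_cast
            ring
          have e11 : Real.exp (B * ((2 * s + 1) * Real.log n) ^ 3) ^ 2 =
              Real.exp (2 * B * (2 * s + 1) ^ 3 * Real.log n ^ 3) := by
            rw [← Real.exp_nat_mul]
            congr 1
            push_cast
            ring
          rw [← e10, ← e11]
          ring
      _ ≤ Real.exp (y * y / 2) := by
          refine Real.exp_le_exp.2 ?_
          have hL1 : Real.log n ≤ Real.log n ^ 3 := by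
            have : Real.log n * 1 ≤ Real.log n * Real.log n ^ 2 :=
              mul_le_mul_of_nonneg_left (one_le_pow₀ h1) hl0
            calc Real.log n = Real.log n * 1 := (mul_one _).symm
              _ ≤ Real.log n * Real.log n ^ 2 := this
              _ = Real.log n ^ 3 := by ring
          have hL3 : 1 ≤ Real.log n ^ 3 := one_le_pow₀ h1
          have e12 : Real.log (1440 * M0 ^ 2) ≤ Real.log (1440 * M0 ^ 2) * Real.log n ^ 3 :=
            le_mul_of_one_le_right hA1 hL3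
          have e13 : (6 * s + 2) * Real.log n ≤ (6 * s + 2) * Real.log n ^ 3 :=
            mul_le_mul_of_nonneg_left hL1 (by linarith)
          have e14 : A * Real.log n ^ 3 = Real.log (1440 * M0 ^ 2) * Real.log n ^ 3 +
              (6 * s + 2) * Real.log n ^ 3 + 2 * B * (2 * s + 1) ^ 3 * Real.log n ^ 3 := by
            rw [hA]
            ring
          linarith

end Pool.Agent.Work.MP_376faf_co_win
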