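import Pool.Agent.Work.MP_376faf_co_win.Event
import Pool.Agent.Work.MP_376faf_co_win.BlockKey
import Pool.Agent.Work.MP_376faf_co_cub.FinalC
import Pool.Agent.Work.MP_376faf_co_ratio.Final

/-! Window theorem: every window [n, n^kappa], kappa > 2, contains a block of large polygon
numbers. -/

set_option autoImplicit false

namespace Pool.Agent.Work.MP_376faf_co_win

open Filter Topology Pool.Agent.Work.MP_376faf_co_lower Pool.Agent.Work.MP_376faf_co_ratio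

theorem upper_all {μ B : ℝ} (hμ : 1 ≤ μ) (hB : 0 < B)
    (h : ∀ n : ℕ, 2 ≤ n → (Nat.card (WalkFun n) : ℝ) ≤ μ ^ n * Real.exp (B * (Real.log n) ^ 3)) :
    ∃ M0 : ℝ, 1 ≤ M0 ∧ ∀ m : ℕ, (Nat.card (WalkFun m) : ℝ) ≤
      μ ^ m * (M0 * Real.exp (B * (Real.log m) ^ 3)) := by
  refine ⟨1 + (Nat.card (WalkFun 0) : ℝ) + (Nat.card (WalkFun 1) : ℝ), ?_, fun m => ?_⟩
  · have h0 : (0:ℝ) ≤ (Nat.card (WalkFun 0) : ℝ) := Nat.cast_nonneg _
    have h1 : (0:ℝ) ≤ (Nat.card (WalkFun 1) : ℝ) := Nat.cast_nonneg _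
    linarith
  · have h0 : (0:ℝ) ≤ (Nat.card (WalkFun 0) : ℝ) := Nat.cast_nonneg _
    have h1 : (0:ℝ) ≤ (Nat.card (WalkFun 1) : ℝ) := Nat.cast_nonneg _
    set M0 : ℝ := 1 + (Nat.card (WalkFun 0) : ℝ) + (Nat.card (WalkFun 1) : ℝ) with hM0
    have hM1 : 1 ≤ M0 := by linarith
    have hl : 0 ≤ Real.log m := Real.log_natCast_nonneg m
    have he : 1 ≤ Real.exp (B * (Real.log m) ^ 3) := Real.one_le_exp (by positivity)
    have hp : 1 ≤ μ ^ m := one_le_pow₀ hμ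
    rcases Nat.lt_or_ge m 2 with h2 | h2
    · have h3 : (Nat.card (WalkFun m) : ℝ) ≤ M0 := by
        rcases Nat.lt_or_ge m 1 with h4 | h4
        · rw [show m = 0 by omega]
          linarith
        · rw [show m = 1 by omega]
          linarith
      calc (Nat.card (WalkFun m) : ℝ) ≤ 1 * (M0 * 1) := by linarith
        _ ≤ μ ^ m * (M0 * Real.exp (B * (Real.log m) ^ 3)) := by
            refine mul_le_mul hp ?_ (by linarith) (by linarith)
            exact mul_le_mul_of_nonneg_left he (by linarith)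
    · refine (h m h2).trans ?_
      refine mul_le_mul_of_nonneg_left ?_ (by linarith)
      exact le_mul_of_one_le_left (by positivity) hM1

/-- WINDOW THEOREM -/
theorem window {μ B : ℝ} (hμ : 1 ≤ μ)
    (hT : Tendsto (fun n : ℕ => ((Nat.card (WalkFun n) : ℕ) : ℝ) ^ ((1:ℝ) / (n:ℝ))) atTop (𝓝 μ))
    (hc : ∀ n : ℕ, μ ^ n ≤ (Nat.card (WalkFun n) : ℝ)) (hB : 0 < B)
    (hup : ∀ n : ℕ, 2 ≤ n →
      (Nat.card (WalkFun n) : ℝ) ≤ μ ^ n * Real.exp (B * (Real.log n) ^ 3))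
    (hlow : ∀ n : ℕ, 2 ≤ n → μ ^ (2 * n) * Real.exp (-(B * (Real.log n) ^ 3)) ≤ pp n)
    {κ α : ℝ} (hκ : 2 < κ) (hα : 4 + 8 / κ < α) :
    ∀ᶠ n : ℕ in atTop, ∃ m : ℕ, n ≤ m ∧ (m:ℝ) ≤ (n:ℝ) ^ κ ∧
      ∀ k : ℕ, |(k:ℝ) - m| ≤ √(m / (Real.log m) ^ 3) →
        μ ^ (2 * k) * (k:ℝ) ^ (-α) < pp k := by
  have hμ0 : 0 < μ := by linarith
  obtain ⟨A, hA⟩ := poly_ratio (k := 3) (by norm_num) hμ hT hlow
  obtain ⟨M0, hM0, hM⟩ := upper_all hμ hB hup
  -- exponents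
  set d : ℝ := α - (4 + 8 / κ) with hd
  have hd0 : 0 < d := by rw [hd]; linarith
  set ε : ℝ := 8 / κ + d / 2 with hε
  have hκ0 : 0 < κ := by linarith
  have hε1 : 8 / κ < ε := by rw [hε]; linarith
  have hε0 : 0 < ε := lt_trans (by positivity) hε1
  have hpos : ∀ n : ℕ, 2 ≤ n → 0 < pp n := fun n hn => lt_of_lt_of_le (by positivity) (hlow n hn)
  have hblock := block_key (a := fun n => pp n / μ ^ (2 * n)) (k := 3) (A := A)
    (α := 4 + 8 / κ) (ε := d) (by norm_num) (by positivity) hd0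
    (fun m hm => div_pos (hpos m hm) (by positivity)) (fun n hn => by
      have h1 := hA n hn
      have hp := hpos n hn
      have e : pp (n + 1) / μ ^ (2 * (n + 1)) / (pp n / μ ^ (2 * n)) - 1 =
          (pp (n + 1) / pp n - μ ^ 2) / μ ^ 2 := by
        have : μ ^ (2 * (n + 1)) = μ ^ (2 * n) * μ ^ 2 := by ring
        rw [this]
        field_simp
      have h2 : (1:ℝ) ≤ μ ^ 2 := one_le_pow₀ hμ
      rw [e, abs_div, abs_of_pos (by positivity : (0:ℝ) < μ ^ 2)]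
      exact (div_le_self (abs_nonneg _) h2).trans h1)
  obtain ⟨N, hN⟩ := eventually_atTop.1 hblock
  filter_upwards [par_exists hκ hε1 (Cw_pos hμ hε0) hB.le hM0, eventually_ge_atTop N]
    with n hn hnN
  obtain ⟨p, K, J, H, β, Λ, hP⟩ := hn
  obtain ⟨m, h1, h2, h3⟩ := window_core hμ hT hc hB.le hM0 hM hε0 hP
  refine ⟨m, h1, h2, fun k hk => ?_⟩
  have h4 : (m:ℝ) ^ (-(4 + 8 / κ + d / 2)) < pp m / μ ^ (2 * m) := by
    have e : 4 + 8 / κ + d / 2 = 4 + ε := by rw [hε]; ring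
    rw [e]
    exact h3
  have h5 := hN m (hnN.trans h1) h4 k hk
  have e : 4 + 8 / κ + d = α := by rw [hd]; ring
  rw [e, lt_div_iff₀ (by positivity)] at h5
  rw [mul_comm]
  exact h5

end Pool.Agent.Work.MP_376faf_co_win
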