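import Pool.Agent.Work.MP_376faf_co_win.Phi

/-! Window theorem: at every scale the flat bridges have large mass. -/

set_option autoImplicit false

namespace Pool.Agent.Work.MP_376faf_co_win

open Pool.Agent.Work.MP_376faf_co_lower Pool.Agent.Work.MP_376faf_co_hw
open scoped ENNReal

theorem pos_abs {l : List Pt} (hu : ∀ s ∈ l, Un s) {i : ℕ} (hi : i ≤ l.length) :
    |(pos l i).1| ≤ i ∧ |(pos l i).2| ≤ i := by
  induction i with
  | zero => simp
  | succ i ih =>
    have h1 := ih (by omega)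
    rw [pos_succ l (by omega)]
    have h3 := (hu _ (List.getElem_mem (show i < l.length by omega))).bounds
    rw [abs_le, abs_le] at h1
    rw [abs_le, abs_le, Prod.fst_add, Prod.snd_add]
    push_cast
    omega

theorem rg_le_len {l : List Pt} (hu : ∀ s ∈ l, Un s) : rg px l ≤ 2 * l.length :=
  rg_le fun i j hi hj => by
    have h1 := (pos_abs hu hi).1
    have h2 := (pos_abs hu hj).1
    rw [abs_le] at h1 h2
    simp only [px_apply]
    push_cast
    omega

/-- weight truncated in the length -/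
noncomputable def w0 (x : ℝ≥0∞) (N : ℕ) (l : List Pt) : ℝ≥0∞ :=
  if l.length ≤ N then x ^ l.length else 0

/-- weight truncated in length and height, tilted by the width -/
noncomputable def w1 (x q : ℝ≥0∞) (R N : ℕ) (l : List Pt) : ℝ≥0∞ :=
  if rg py l < R ∧ l.length ≤ N then x ^ l.length * q ^ rg px l else 0

theorem w0_sub (x : ℝ≥0∞) (N : ℕ) : SubM (w0 x N) := by
  intro a b
  unfold w0
  by_cases h : (a ++ b).length ≤ N
  · rw [List.length_append] at h
    rw [List.length_append, if_pos h, if_pos (by omega), if_pos (by omega), pow_add]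
  · rw [if_neg h]
    exact zero_le

theorem w0_fl (x : ℝ≥0∞) (N : ℕ) : FlI (w0 x N) := by
  intro l
  unfold w0
  rw [List.length_map]

theorem w0_nil (x : ℝ≥0∞) (N : ℕ) : w0 x N [] ≤ 1 := by
  unfold w0
  simp

theorem w1_sub {x q : ℝ≥0∞} (hq : 1 ≤ q) (R N : ℕ) : SubM (w1 x q R N) := by
  intro a b
  unfold w1
  by_cases h : rg py (a ++ b) < R ∧ (a ++ b).length ≤ N
  · have h1 := rg_left py a b
    have h2 := rg_right py a b
    have h3 := rg_append_le px a b
    rw [if_pos h]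
    rw [List.length_append] at h ⊢
    rw [if_pos ⟨by omega, by omega⟩, if_pos ⟨by omega, by omega⟩]
    calc x ^ (a.length + b.length) * q ^ rg px (a ++ b)
        ≤ x ^ (a.length + b.length) * q ^ (rg px a + rg px b) :=
          mul_le_mul' le_rfl (pow_le_pow_right₀ hq h3)
      _ = _ := by rw [pow_add, pow_add]; ring
  · rw [if_neg h]
    exact zero_le

theorem w1_fl (x q : ℝ≥0∞) (R N : ℕ) : FlI (w1 x q R N) := by
  intro l
  unfold w1
  rw [List.length_map, rg_flip_x, rg_flip_y]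

theorem w0_fin {x : ℝ≥0∞} (hx : x ≠ ⊤) (N : ℕ) : wsum (w0 x N) Walk ≠ ⊤ := by
  have h1 : wsum (w0 x N) Walk ≤
      ∑' i : Fin (N + 1), mass x (fun l => Walk l ∧ l.length = i.val) := by
    calc wsum (w0 x N) Walk ≤ wsum (fun l => x ^ l.length) (fun l => Walk l ∧ l.length ≤ N) := by
          refine wsum_le fun l hl h0 => ?_
          unfold w0 at h0 ⊢
          by_cases h : l.length ≤ N
          · rw [if_pos h]
            exact ⟨⟨hl, h⟩, le_rfl⟩
          · rw [if_neg h] at h0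
            exact absurd rfl h0
      _ ≤ _ := by
          unfold wsum mass
          exact sigma_ge (fun i : Fin (N + 1) => fun l => Walk l ∧ l.length = i.val)
            (fun l => Walk l ∧ l.length ≤ N)
            (fun l hl => ⟨⟨l.length, by omega⟩, hl.1, rfl⟩) (fun l => x ^ l.length)
  refine ne_top_of_le_ne_top ?_ h1
  rw [tsum_fintype]
  refine (ENNReal.sum_lt_top.2 fun i _ => ?_).ne
  refine (walk_mass_le i.val x).trans_lt ?_
  exact ENNReal.mul_lt_top (ENNReal.natCast_lt_top _) (ENNReal.pow_lt_top hx.lt_top)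

theorem w1_fin {x q : ℝ≥0∞} (hx : x ≠ ⊤) (hq : 1 ≤ q) (hqt : q ≠ ⊤) (R N : ℕ) :
    wsum (w1 x q R N) Walk ≠ ⊤ := by
  have h1 : wsum (w1 x q R N) Walk ≤ q ^ (2 * N) * wsum (w0 x N) Walk := by
    refine wsum_le_mul _ fun l hl h0 => ⟨hl, ?_⟩
    unfold w1 at h0 ⊢
    unfold w0
    by_cases h : rg py l < R ∧ l.length ≤ N
    · rw [if_pos h, if_pos h.2, mul_comm]
      refine mul_le_mul' (pow_le_pow_right₀ hq ?_) le_rfl
      have := rg_le_len hl.1
      omega
    · rw [if_neg h] at h0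
      exact absurd rfl h0
  exact ne_top_of_le_ne_top (ENNReal.mul_ne_top (ENNReal.pow_ne_top hqt) (w0_fin hx N)) h1

theorem mass_of_trunc {x : ℝ≥0∞} {P : List Pt → Prop} {B : ℝ≥0∞}
    (h : ∀ N, wsum (w0 x N) P ≤ B) : mass x P ≤ B := by
  classical
  unfold mass
  rw [ENNReal.tsum_eq_iSup_sum]
  refine iSup_le fun F => ?_
  refine le_trans ?_ (h (F.sup (fun l => l.1.length)))
  unfold wsum
  refine le_trans ?_ (ENNReal.sum_le_tsum F)
  refine Finset.sum_le_sum fun l hl => ?_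
  unfold w0
  rw [if_pos (Finset.le_sup (f := fun l : {l // P l} => l.1.length) hl)]

theorem w0_le (x : ℝ≥0∞) (N : ℕ) (P : List Pt → Prop) : wsum (w0 x N) P ≤ mass x P := by
  rw [mass_eq]
  refine wsum_le fun l hl h0 => ⟨hl, ?_⟩
  unfold w0
  split_ifs
  · exact le_rfl
  · exact zero_le

/-! swapping the coordinates -/

theorem pos_swap (l : List Pt) (i : ℕ) : pos (l.map Prod.swap) i = (pos l i).swap := by
  unfold pos
  rw [← List.map_take]
  generalize l.take i = m
  induction m with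
  | nil => rfl
  | cons a m ih => simp only [List.map_cons, List.sum_cons, ih]; rfl

theorem walk_swap {l : List Pt} (h : Walk l) : Walk (l.map Prod.swap) := by
  refine ⟨?_, ?_⟩
  · intro s hs
    obtain ⟨t, ht, rfl⟩ := List.mem_map.1 hs
    have := h.1 t ht
    unfold Un at this ⊢
    simp only [Prod.fst_swap, Prod.snd_swap]
    omega
  · intro a ha b hb hab
    simp only [Set.mem_Iic, List.length_map] at ha hb
    rw [pos_swap, pos_swap] at hab
    exact h.2 ha hb (Prod.swap_injective hab)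

theorem rg_swap (l : List Pt) : rg px (l.map Prod.swap) = rg py l ∧
    rg py (l.map Prod.swap) = rg px l := by
  unfold rg
  simp only [List.length_map, pos_swap, px_apply, py_apply, Prod.fst_swap, Prod.snd_swap,
    and_self]

/-! the masses -/

/-- mass of the bridges with a ≤ span < b and height at most H -/
noncomputable def FB (x : ℝ≥0∞) (a b H : ℕ) : ℝ≥0∞ :=
  mass x (fun l => Bridge l ∧ (a : ℤ) ≤ l.sum.1 ∧ l.sum.1 < b ∧ rg py l ≤ H)

/-- mass of the walks in small boxes -/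
noncomputable def EE (x : ℝ≥0∞) (S R : ℕ) : ℝ≥0∞ :=
  mass x (fun l => Walk l ∧ rg px l < S ∧ rg py l < R)

theorem one_le_FB (x : ℝ≥0∞) {b : ℕ} (hb : 0 < b) (H : ℕ) : 1 ≤ FB x 0 b H := by
  unfold FB mass
  have hB : Bridge ([] : List Pt) := bridge_nil
  have h : Bridge ([] : List Pt) ∧ ((0 : ℕ) : ℤ) ≤ ([] : List Pt).sum.1 ∧
      ([] : List Pt).sum.1 < (b : ℤ) ∧ rg py ([] : List Pt) ≤ H := by
    refine ⟨hB, by simp, by simpa using hb, ?_⟩
    refine (rg_le (R := 0) fun i j hi hj => ?_).trans (Nat.zero_le _)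
    simp only [List.length_nil, Nat.le_zero] at hi hj
    subst hi hj
    simp
  calc (1 : ℝ≥0∞) = x ^ ([] : List Pt).length := by simp
    _ ≤ _ := ENNReal.le_tsum (f := fun l : {l : List Pt // Bridge l ∧ ((0 : ℕ) : ℤ) ≤ l.sum.1 ∧
      l.sum.1 < (b : ℤ) ∧ rg py l ≤ H} => x ^ l.1.length) ⟨[], h⟩

theorem span_lt_mass {x : ℝ≥0∞} (hu : ∀ t, uu x t ≤ 1) (k : ℕ) :
    mass x (fun l => Bridge l ∧ l.sum.1 < (k : ℤ)) ≤ k := by
  have h1 : mass x (fun l => Bridge l ∧ l.sum.1 < (k : ℤ)) ≤ ∑' i : Fin k, uu x i.val := by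
    unfold uu mass
    refine sigma_ge (fun i : Fin k => BridgeW i.val) (fun l => Bridge l ∧ l.sum.1 < (k : ℤ)) ?_
      (fun l => x ^ l.length)
    rintro l ⟨h1, h2⟩
    have h3 := h1.nonneg le_rfl
    rw [pos_len] at h3
    exact ⟨⟨l.sum.1.toNat, by omega⟩, h1, by simp only; omega⟩
  refine h1.trans ?_
  rw [tsum_fintype]
  calc ∑ i : Fin k, uu x i.val ≤ ∑ _i : Fin k, (1 : ℝ≥0∞) := Finset.sum_le_sum fun i _ => hu i.val
    _ = k := by simp

theorem FB_le {x : ℝ≥0∞} (hu : ∀ t, uu x t ≤ 1) (a b H : ℕ) : FB x a b H ≤ b :=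
  (mass_mono x fun _ hl => ⟨hl.1, hl.2.2.1⟩).trans (span_lt_mass hu b)

theorem FB_mono (x : ℝ≥0∞) {a b a' b' H H' : ℕ} (h1 : a' ≤ a) (h2 : b ≤ b') (h3 : H ≤ H') :
    FB x a b H ≤ FB x a' b' H' := by
  refine mass_mono x fun l hl => ⟨hl.1, ?_, ?_, hl.2.2.2.trans h3⟩
  · have := hl.2.1; omega
  · have := hl.2.2.1; omega

/-- a base of the tilt -/
theorem exists_q (n : ℕ) (hn : 0 < n) : ∃ q : ℝ≥0∞, 1 ≤ q ∧ q ≠ ⊤ ∧ q ^ n = 2 := by
  refine ⟨(2 : ℝ≥0∞) ^ ((1 : ℝ) / n), ?_, ?_, ?_⟩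
  · exact ENNReal.one_le_rpow (by norm_num) (by positivity)
  · exact ENNReal.rpow_ne_top_of_nonneg (by positivity) (by norm_num)
  · rw [← ENNReal.rpow_natCast, ← ENNReal.rpow_mul, one_div, inv_mul_cancel₀
      (by exact_mod_cast hn.ne'), ENNReal.rpow_one]

theorem two_ofReal {a : ℝ} (ha : 0 ≤ a) : 2 * ENNReal.ofReal a = ENNReal.ofReal (2 * a) := by
  rw [ENNReal.ofReal_mul (by norm_num)]
  norm_num

theorem pow_aux {p S : ℕ} (hp : 2 * S ≤ 8 ^ p) : (1 / 8 : ℝ) ^ p * (2 * S) ≤ 1 := by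
  have h : (2 * S : ℝ) ≤ 8 ^ p := by exact_mod_cast hp
  rw [one_div, inv_pow, inv_mul_le_iff₀ (by positivity), mul_one]
  exact h

theorem tall_mass {x : ℝ≥0∞} (hx : x ≠ ⊤) (hu : ∀ t, uu x t ≤ 1) {S H p R : ℕ} (hS : 0 < S)
    (hR : R = 3 * (p + 1) * S) (hp : 2 * S ≤ 8 ^ p) (hH : R ≤ H)
    (hFV : FB x S R H * FB x 0 (2 * S) H ≤ ENNReal.ofReal (1 / 16)) :
    mass x (fun l => Walk l ∧ rg py l < R ∧ H < rg px l) ≤
      (2 * EE x S R + 2 * EE x S R * (2 * EE x S R + 2 * EE x S R)) / 2 ^ (H / (8 * R)) := by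
  have hSR : 3 * S ≤ R := by
    rw [hR]
    nlinarith [Nat.zero_le (p * S)]
  obtain ⟨q, hq1, hqt, hq⟩ := exists_q (8 * R) (by omega)
  have hqle : ∀ n ≤ 8 * R, q ^ n ≤ 2 := fun n hn => hq ▸ pow_le_pow_right₀ hq1 hn
  set F := FB x S R H with hF
  set V := FB x 0 (2 * S) H with hV
  have hV1 : 1 ≤ V := one_le_FB x (by omega) H
  have hF1 : F ≤ ENNReal.ofReal (1 / 16) := le_trans (le_mul_of_one_le_right' hV1) hFV
  have hVS : V ≤ ENNReal.ofReal (2 * S) := by
    refine (FB_le hu _ _ _).trans (le_of_eq ?_)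
    rw [← ENNReal.ofReal_natCast]
    push_cast
    rfl
  refine mass_of_trunc fun N => ?_
  rw [ENNReal.le_div_iff_mul_le (Or.inl (by positivity)) (Or.inl (ENNReal.pow_ne_top (by norm_num)))]
  set w := w1 x q R N with hw
  have hflat : ∀ (a b n : ℕ), b ≤ n → b ≤ R →
      wsum w (fun l => Bridge l ∧ (a : ℤ) ≤ l.sum.1 ∧ l.sum.1 < b) ≤ q ^ n * FB x a b H := by
    intro a b n hbn hb3
    unfold FB
    rw [mass_eq]
    refine wsum_le_mul _ fun l hl h0 => ?_
    rw [hw] at h0 ⊢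
    unfold w1 at h0 ⊢
    by_cases h : rg py l < R ∧ l.length ≤ N
    · refine ⟨⟨hl.1, hl.2.1, hl.2.2, by omega⟩, ?_⟩
      rw [if_pos h, mul_comm]
      refine mul_le_mul' (pow_le_pow_right₀ hq1 ?_) le_rfl
      have := rg_bridge hl.1
      have := hl.2.2
      omega
    · rw [if_neg h] at h0
      exact absurd rfl h0
  have hall : wsum w Walk ≤ 2 * EE x S R + 2 * EE x S R * (2 * EE x S R + 2 * EE x S R) := by
    refine tall_bound (w1_sub hq1 _ _) (w1_fl _ _ _ _) hS ?_ ?_ (w1_fin hx hq1 hqt _ _)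
    · unfold EE
      rw [mass_eq]
      refine wsum_le_mul _ fun l hl h0 => ?_
      unfold w1 at h0 ⊢
      by_cases h : rg py l < R ∧ l.length ≤ N
      · refine ⟨⟨hl.1, hl.2, h.1⟩, ?_⟩
        rw [if_pos h, mul_comm]
        exact mul_le_mul' (hqle _ (by omega)) le_rfl
      · rw [if_neg h] at h0
        exact absurd rfl h0
    · have hs := sm_small (w := w) (w1_sub hq1 _ _) (w1_fl _ _ _ _) hS (w1_fin hx hq1 hqt _ _) p
        (s1 := 2 * F) (s2 := q ^ (3 * S) * F) (v1 := q ^ S * V) (v2 := q ^ (2 * S) * V)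
        (a := 1 / 8 * (2 * S)) (b := 1 / 8) (by positivity) (by norm_num) (by norm_num)
        ?_ ?_ ?_ ?_ ?_ ?_
      · refine hs.trans ?_
        have h8 := pow_aux hp
        calc 2 * F + ENNReal.ofReal ((1 / 8) ^ p * (1 / 8 * (2 * S) / (1 - 1 / 8)))
            ≤ 2 * ENNReal.ofReal (1 / 16) + ENNReal.ofReal (1 / 7) := by
              refine add_le_add (mul_le_mul' le_rfl hF1) (ENNReal.ofReal_le_ofReal ?_)
              have : (1 / 8 : ℝ) ^ p * (1 / 8 * (2 * S) / (1 - 1 / 8)) =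
                  (1 / 8 : ℝ) ^ p * (2 * S) * (1 / 7) := by ring
              rw [this]
              linarith
          _ = ENNReal.ofReal (2 * (1 / 16) + 1 / 7) := by
              rw [two_ofReal (by norm_num), ← ENNReal.ofReal_add (by norm_num) (by norm_num)]
          _ ≤ ENNReal.ofReal 2⁻¹ := ENNReal.ofReal_le_ofReal (by norm_num)
          _ = 2⁻¹ := by
              rw [ENNReal.ofReal_inv_of_pos (by norm_num)]
              norm_num
      · have h1 := hflat S R R le_rfl le_rfl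
        refine le_trans (wsum_mono w fun l hl => ?_)
          (h1.trans (mul_le_mul' (hqle _ (by omega)) le_rfl))
        refine ⟨hl.1, hl.2.1, ?_⟩
        rw [hR]
        push_cast
        exact hl.2.2
      · have h1 := hflat (2 * S) (3 * S) (3 * S) le_rfl (by omega)
        push_cast at h1
        exact h1.trans (mul_le_mul' le_rfl (FB_mono x (by omega) (by omega) le_rfl))
      · have h1 := hflat 0 S S le_rfl (by omega)
        refine le_trans (wsum_mono w fun l hl => ?_)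
          (h1.trans (mul_le_mul' le_rfl (FB_mono x le_rfl (by omega) le_rfl)))
        refine ⟨hl.1, ?_, hl.2⟩
        have h3 := hl.1.nonneg le_rfl
        rw [pos_len] at h3
        simpa using h3
      · have h1 := hflat 0 (2 * S) (2 * S) le_rfl (by omega)
        push_cast at h1
        refine le_trans (wsum_mono w fun l hl => ?_) h1
        refine ⟨hl.1, ?_, hl.2⟩
        have h3 := hl.1.nonneg le_rfl
        rw [pos_len] at h3
        exact h3
      · calc q ^ (3 * S) * F * (q ^ S * V * (q ^ (2 * S) * V))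
            = q ^ (3 * S + S + 2 * S) * (F * V) * V := by rw [pow_add, pow_add]; ring
          _ ≤ 2 * ENNReal.ofReal (1 / 16) * ENNReal.ofReal (2 * S) :=
              mul_le_mul' (mul_le_mul' (hqle _ (by omega)) hFV) hVS
          _ = ENNReal.ofReal (1 / 8 * (2 * S)) := by
              rw [two_ofReal (by norm_num), ← ENNReal.ofReal_mul (by norm_num)]
              norm_num
      · calc q ^ (3 * S) * F * (q ^ S * V) = q ^ (3 * S + S) * (F * V) := by
              rw [pow_add]; ring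
          _ ≤ 2 * ENNReal.ofReal (1 / 16) := mul_le_mul' (hqle _ (by omega)) hFV
          _ = ENNReal.ofReal (1 / 8) := by
              rw [two_ofReal (by norm_num)]
              norm_num
  refine le_trans ?_ hall
  have h2 : (2 : ℝ≥0∞) ^ (H / (8 * R)) ≤ q ^ H := by
    rw [← hq, ← pow_mul]
    exact pow_le_pow_right₀ hq1 (Nat.mul_div_le H (8 * R))
  refine (mul_le_mul' le_rfl h2).trans ?_
  unfold wsum
  rw [← ENNReal.tsum_mul_right]
  refine tsum_le_inj (fun l : {l // Walk l ∧ rg py l < R ∧ H < rg px l} =>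
    (⟨l.1, l.2.1⟩ : {l // Walk l})) ?_ ?_
  · intro a b hab
    exact Subtype.ext (congrArg (fun t : {l // Walk l} => t.1) hab)
  · intro l
    simp only
    rw [hw]
    unfold w0 w1
    by_cases h : l.1.length ≤ N
    · rw [if_pos h, if_pos ⟨l.2.2.1, h⟩]
      exact mul_le_mul' le_rfl (pow_le_pow_right₀ hq1 l.2.2.2.le)
    · rw [if_neg h, zero_mul]
      exact zero_le

theorem num_aux {f v τ S : ℝ} (hf : 0 ≤ f) (hv : 1 ≤ v) (hτ : 0 ≤ τ) (hS : 1 ≤ S)
    (hvS : v ≤ 2 * S) (hτS : τ * (144 * S ^ 2) ≤ 1) (h : f * v ≤ 1 / 16) :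
    (f + τ) * (v + τ) ≤ 1 / 8 ∧ v + τ ≤ 3 * S ∧ τ ≤ 1 / 144 := by
  have hS2 : 0 ≤ S ^ 2 - 1 := by nlinarith
  have hS3 : 0 ≤ S ^ 2 - S := by nlinarith
  have h1 : τ ≤ 1 / 144 := by nlinarith [mul_nonneg hτ hS2]
  have h1' : τ * S ≤ 1 / 144 := by nlinarith [mul_nonneg hτ hS3]
  have hf1 : f ≤ 1 / 16 := by nlinarith
  have h2 : τ * f ≤ 1 / 144 * (1 / 16) := mul_le_mul h1 hf1 hf (by norm_num)
  have h3 : τ * v ≤ τ * (2 * S) := mul_le_mul_of_nonneg_left hvS hτ
  have h4 : τ * τ ≤ 1 / 144 * (1 / 144) := mul_le_mul h1 h1 hτ (by norm_num)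
  refine ⟨?_, by linarith, h1⟩
  nlinarith

/-- FLAT MASS: at every scale S the bridges with span in [S,3(p+1)S) and height at most H have
mass at least 1/(16 V), where V is the mass of bridges with span less than 2S and height at
most H, and p is about log S -/
theorem flat_mass {x : ℝ≥0∞} (hx : x ≠ ⊤) (hu : ∀ t, uu x t ≤ 1) (hH0 : mass x Half = ⊤)
    {S H p R : ℕ} (hS : 0 < S) (hR : R = 3 * (p + 1) * S) (hp : 2 * S ≤ 8 ^ p) (hH : R ≤ H)
    (hE : (2 * EE x S R + 2 * EE x S R * (2 * EE x S R + 2 * EE x S R)) / 2 ^ (H / (8 * R)) ≤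
      ENNReal.ofReal (1 / (144 * (S : ℝ) ^ 2))) :
    ENNReal.ofReal (1 / 16) < FB x S R H * FB x 0 (2 * S) H := by
  by_contra hcon
  rw [not_lt] at hcon
  have hSR : 3 * S ≤ R := by
    rw [hR]
    nlinarith [Nat.zero_le (p * S)]
  have hS1 : (1:ℝ) ≤ S := by exact_mod_cast hS
  set τ : ℝ := 1 / (144 * (S : ℝ) ^ 2) with hτ
  have hτ0 : 0 ≤ τ := by positivity
  have hT : mass x (fun l => Walk l ∧ rg px l < R ∧ H < rg py l) ≤ ENNReal.ofReal τ := by
    refine le_trans ?_ ((tall_mass hx hu hS hR hp hH hcon).trans hE)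
    rw [mass_eq, mass_eq]
    refine wsum_inj (fun l => l.map Prod.swap)
      (List.map_injective_iff.2 Prod.swap_injective) (fun l => by rw [List.length_map]) ?_
    rintro l ⟨h1, h2, h3⟩
    exact ⟨walk_swap h1, by rwa [(rg_swap l).2], by rwa [(rg_swap l).1]⟩
  set F := FB x S R H with hF
  set V := FB x 0 (2 * S) H with hV
  have hV1 : 1 ≤ V := one_le_FB x (by omega) H
  have hVle : V ≤ ((2 * S : ℕ) : ℝ≥0∞) := FB_le hu _ _ _
  have hVt : V ≠ ⊤ := ne_top_of_le_ne_top (ENNReal.natCast_ne_top _) hVle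
  have hFt : F ≠ ⊤ := ne_top_of_le_ne_top (ENNReal.natCast_ne_top _) (FB_le hu _ _ _)
  set v := V.toReal with hv
  set f := F.toReal with hf
  have hVv : V = ENNReal.ofReal v := (ENNReal.ofReal_toReal hVt).symm
  have hFf : F = ENNReal.ofReal f := (ENNReal.ofReal_toReal hFt).symm
  have hf0 : 0 ≤ f := ENNReal.toReal_nonneg
  have hv1 : 1 ≤ v := by
    have := ENNReal.toReal_mono hVt hV1
    simpa using this
  have hv2 : v ≤ 2 * S := by
    have := ENNReal.toReal_mono (ENNReal.natCast_ne_top _) hVle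
    rw [ENNReal.toReal_natCast] at this
    push_cast at this
    exact this
  have hv0 : 0 ≤ v := by linarith
  have hfv : f * v ≤ 1 / 16 := by
    rw [hVv, hFf, ← ENNReal.ofReal_mul hf0, ENNReal.ofReal_le_ofReal_iff (by norm_num)] at hcon
    exact hcon
  obtain ⟨hn1, hn2, hn3⟩ := num_aux hf0 hv1 hτ0 hS1 hv2 (by
    rw [hτ, one_div, inv_mul_cancel₀ (by positivity)]) hfv
  have hsplit : ∀ a b : ℕ, b ≤ R → mass x (fun l => Bridge l ∧ (a : ℤ) ≤ l.sum.1 ∧
      l.sum.1 < b) ≤ FB x a b H + ENNReal.ofReal τ := by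
    intro a b hb
    refine le_trans ?_ (add_le_add le_rfl hT)
    rw [mass_eq, mass_eq]
    unfold FB
    rw [mass_eq]
    refine wsum_or _ fun l hl => ?_
    rcases Nat.lt_or_ge H (rg py l) with h | h
    · right
      have h1 := rg_bridge hl.1
      have h2 := hl.2.2
      exact ⟨hl.1.1, by omega, h⟩
    · exact Or.inl ⟨hl.1, hl.2.1, hl.2.2, h⟩
  have hnn : ∀ (N b : ℕ), wsum (w0 x N) (fun l => Bridge l ∧ l.sum.1 < (b : ℤ)) ≤
      mass x (fun l => Bridge l ∧ ((0 : ℕ) : ℤ) ≤ l.sum.1 ∧ l.sum.1 < (b : ℤ)) := by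
    intro N b
    refine (w0_le x N _).trans (mass_mono x fun l hl => ⟨hl.1, ?_, hl.2⟩)
    have h3 := hl.1.nonneg le_rfl
    rw [pos_len] at h3
    simpa using h3
  have key : ∀ N, wsum (w0 x N) (fun l => Bridge l ∧ (S : ℤ) ≤ l.sum.1) ≤ 2 := by
    intro N
    refine bridge_far (w0_sub x N) (w0_fl x N) (w0_nil x N) hS ?_ (w0_fin hx N)
    have hs := sm_small (w := w0 x N) (w0_sub x N) (w0_fl x N) hS (w0_fin hx N) p
      (s1 := F + ENNReal.ofReal τ) (s2 := F + ENNReal.ofReal τ) (v1 := V + ENNReal.ofReal τ)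
      (v2 := V + ENNReal.ofReal τ) (a := 1 / 8 * (3 * S)) (b := 1 / 8) (by positivity)
      (by norm_num) (by norm_num) ?_ ?_ ?_ ?_ ?_ ?_
    · refine hs.trans ?_
      rw [hFf, ← ENNReal.ofReal_add hf0 hτ0, ← ENNReal.ofReal_add (by positivity) (by positivity)]
      refine ENNReal.ofReal_le_ofReal ?_
      have h1 : f + τ ≤ (f + τ) * (v + τ) :=
        le_mul_of_one_le_right (by positivity) (by linarith)
      have h8 := pow_aux hp
      have h9 : (1 / 8 : ℝ) ^ p * (1 / 8 * (3 * S) / (1 - 1 / 8)) =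
          (1 / 8 : ℝ) ^ p * (2 * S) * (3 / 14) := by ring
      rw [h9]
      linarith
    · refine (w0_le x N _).trans (le_trans (mass_mono x fun l hl => ?_) (hsplit S R le_rfl))
      refine ⟨hl.1, hl.2.1, ?_⟩
      rw [hR]
      push_cast
      exact hl.2.2
    · have h1 := hsplit (2 * S) (3 * S) (by omega)
      push_cast at h1
      exact (w0_le x N _).trans (h1.trans (add_le_add (FB_mono x (by omega) (by omega) le_rfl)
        le_rfl))
    · exact (hnn N S).trans ((hsplit 0 S (by omega)).trans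
        (add_le_add (FB_mono x le_rfl (by omega) le_rfl) le_rfl))
    · have h1 := (hnn N (2 * S)).trans (hsplit 0 (2 * S) (by omega))
      push_cast at h1
      exact h1
    · rw [hFf, hVv, ← ENNReal.ofReal_add hf0 hτ0, ← ENNReal.ofReal_add hv0 hτ0,
        ← ENNReal.ofReal_mul (by positivity), ← ENNReal.ofReal_mul (by positivity)]
      refine ENNReal.ofReal_le_ofReal ?_
      calc (f + τ) * ((v + τ) * (v + τ)) = (f + τ) * (v + τ) * (v + τ) := by ring
        _ ≤ 1 / 8 * (3 * S) := mul_le_mul hn1 hn2 (by positivity) (by norm_num)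
    · rw [hFf, hVv, ← ENNReal.ofReal_add hf0 hτ0, ← ENNReal.ofReal_add hv0 hτ0,
        ← ENNReal.ofReal_mul (by positivity)]
      exact ENNReal.ofReal_le_ofReal hn1
  have hfar : mass x (fun l => Bridge l ∧ (S : ℤ) ≤ l.sum.1) ≤ 2 := mass_of_trunc key
  have htop := bridge_top hH0
  have hfin : (∑' l : {l // Bridge l ∧ l ≠ []}, x ^ l.1.length) ≤ (S : ℝ≥0∞) + 2 := by
    refine le_trans ?_ (add_le_add (span_lt_mass hu S) hfar)
    have := wsum_or (fun l => x ^ l.length) (P := fun l => Bridge l ∧ l ≠ [])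
      (Q := fun l => Bridge l ∧ l.sum.1 < (S : ℤ)) (R := fun l => Bridge l ∧ (S : ℤ) ≤ l.sum.1)
      (fun l hl => by
        rcases lt_or_ge l.sum.1 (S : ℤ) with h | h
        · exact Or.inl ⟨hl.1, h⟩
        · exact Or.inr ⟨hl.1, h⟩)
    exact this
  rw [htop, top_le_iff] at hfin
  exact ENNReal.add_ne_top.2 ⟨ENNReal.natCast_ne_top _, by norm_num⟩ hfin

end Pool.Agent.Work.MP_376faf_co_win
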