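import Pool.Agent.Work.MP_376faf_co_win.Split

/-! Window theorem: inequalities between masses which come from the splittings. -/

set_option autoImplicit false

namespace Pool.Agent.Work.MP_376faf_co_win

open Pool.Agent.Work.MP_376faf_co_lower Pool.Agent.Work.MP_376faf_co_hw
open scoped ENNReal

/-- weights invariant under the reflection -/
def FlI (w : List Pt → ℝ≥0∞) : Prop := ∀ l, w (l.map fl) = w l

theorem flip_le {w : List Pt → ℝ≥0∞} (hf : FlI w) {P Q : List Pt → Prop}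
    (h : ∀ l, P l → Q (l.map fl)) : wsum w P ≤ wsum w Q :=
  wsum_inj (fun l => l.map fl) map_fl_inj (fun l => (hf l).ge) h

theorem low_rg {S : ℕ} (hS : 0 < S) {l : List Pt} (h : Low S l) : rg px l < S := by
  have : rg px l ≤ S - 1 := rg_le fun i j hi hj => by
    simp only [px_apply]
    rcases Nat.eq_zero_or_pos i with h1 | h1 <;> rcases Nat.eq_zero_or_pos j with h2 | h2
    · rw [h1, h2]; simp
    · have := h j h2 hj
      rw [h1, pos_zero, Prod.fst_zero]
      omega
    · have := h i h1 hi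
      rw [h2, pos_zero, Prod.fst_zero]
      omega
    · have e1 := h i h1 hi
      have e2 := h j h2 hj
      omega
  omega

/-- all walks are controlled by small walks if the mass of long monotone bridges is small -/
theorem tall_bound {w : List Pt → ℝ≥0∞} (hw : SubM w) (hf : FlI w) {S : ℕ} (hS : 0 < S)
    {E : ℝ≥0∞} (hE : wsum w (fun l => Walk l ∧ rg px l < S) ≤ E) (hΦ : wsum w (SM S) ≤ 2⁻¹)
    (hfin : wsum w Walk ≠ ⊤) : wsum w Walk ≤ E + E * (E + E) := by
  set U := wsum w (fun l => Walk l ∧ UpS S l) with hU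
  have hD : wsum w (fun l => Walk l ∧ DnS S l) ≤ U :=
    flip_le hf fun l hl => ⟨hl.1.flip, dn_flip.1 hl.2⟩
  have hUfin : U ≠ ⊤ := ne_top_of_le_ne_top hfin (wsum_mono w fun l hl => hl.1)
  have h1 : U ≤ 2⁻¹ * (U + E) := by
    calc U ≤ wsum w (SM S) * wsum w (fun l => (Walk l ∧ DnS S l) ∨ (Walk l ∧ rg px l < S)) := by
          refine wsum_mul hw ?_
          rintro l ⟨hl, hu⟩
          obtain ⟨k, hk, h2, h3⟩ := up_split hS hl hu
          refine ⟨l.take k, l.drop k, (List.take_append_drop k l).symm, h2, ?_⟩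
          rcases h3 with h3 | h3
          · exact Or.inl ⟨hl.drop hk, h3⟩
          · exact Or.inr ⟨hl.drop hk, low_rg hS h3⟩
      _ ≤ 2⁻¹ * (U + E) := by
          refine mul_le_mul' hΦ ?_
          refine (wsum_or w (Q := fun l => Walk l ∧ DnS S l)
            (R := fun l => Walk l ∧ rg px l < S) fun l hl => hl).trans ?_
          exact add_le_add hD hE
  have h2 : U ≤ E := by
    have h3 : 2 * U ≤ U + E := by
      calc 2 * U ≤ 2 * (2⁻¹ * (U + E)) := mul_le_mul' le_rfl h1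
        _ = U + E := by
          rw [← mul_assoc, ENNReal.mul_inv_cancel (by norm_num) (by norm_num), one_mul]
    rw [two_mul] at h3
    exact (ENNReal.add_le_add_iff_left hUfin).1 h3
  have h3 : wsum w (fun l => Walk l ∧ S ≤ rg px l) ≤ E * (E + E) := by
    calc wsum w (fun l => Walk l ∧ S ≤ rg px l)
        ≤ wsum w (fun l => Walk l ∧ rg px l < S) *
          wsum w (fun l => (Walk l ∧ UpS S l) ∨ (Walk l ∧ DnS S l)) := by
          refine wsum_mul hw ?_
          rintro l ⟨hl, hu⟩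
          obtain ⟨k, hk, h2, h3⟩ := start_split hS hu
          refine ⟨l.take k, l.drop k, (List.take_append_drop k l).symm, ⟨hl.take k, h2⟩, ?_⟩
          rcases h3 with h3 | h3
          · exact Or.inl ⟨hl.drop hk, h3⟩
          · exact Or.inr ⟨hl.drop hk, h3⟩
      _ ≤ E * (E + E) := by
          refine mul_le_mul' hE ?_
          refine (wsum_or w (Q := fun l => Walk l ∧ UpS S l)
            (R := fun l => Walk l ∧ DnS S l) fun l hl => hl).trans ?_
          exact add_le_add h2 (hD.trans h2)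
  refine (wsum_or w (Q := fun l => Walk l ∧ rg px l < S)
    (R := fun l => Walk l ∧ S ≤ rg px l) fun l hl => ?_).trans (add_le_add hE h3)
  rcases Nat.lt_or_ge (rg px l) S with h | h
  · exact Or.inl ⟨hl, h⟩
  · exact Or.inr ⟨hl, h⟩

/-- the end is a rightmost point -/
def EndMax (l : List Pt) : Prop := ∀ i ≤ l.length, (pos l i).1 ≤ (pos l l.length).1

theorem EndMax.drop {l : List Pt} (h : EndMax l) {k : ℕ} (hk : k ≤ l.length) :
    EndMax (l.drop k) := by
  intro i hi
  rw [List.length_drop] at hi ⊢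
  rw [pos_drop _ hk, pos_drop _ hk, show k + (l.length - k) = l.length by omega, Prod.fst_sub,
    Prod.fst_sub]
  have := h (k + i) (by omega)
  omega

/-- if the monotone bridges of span at least S have mass at most 3/4 then the bridges of span
at least S have bounded mass -/
theorem bridge_far {w : List Pt → ℝ≥0∞} (hw : SubM w) (hf : FlI w) (hnil : w [] ≤ 1) {S : ℕ}
    (hS : 0 < S) (hΦ : wsum w (SM S) ≤ ENNReal.ofReal (3 / 4)) (hfin : wsum w Walk ≠ ⊤) :
    wsum w (fun l => Bridge l ∧ (S : ℤ) ≤ l.sum.1) ≤ 2 := by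
  set U := wsum w (fun l => Walk l ∧ UpS S l ∧ EndMax l) with hU
  set D := wsum w (fun l => Walk l ∧ DnS S l ∧ EndMax l) with hD
  have hUfin : U ≠ ⊤ := ne_top_of_le_ne_top hfin (wsum_mono w fun l hl => hl.1)
  have hDfin : D ≠ ⊤ := ne_top_of_le_ne_top hfin (wsum_mono w fun l hl => hl.1)
  have h1 : U ≤ ENNReal.ofReal (3 / 4) * (1 + D) := by
    calc U ≤ wsum w (SM S) * wsum w (fun l => (l = []) ∨ (Walk l ∧ DnS S l ∧ EndMax l)) := by
          refine wsum_mul hw ?_
          rintro l ⟨hl, hu, he⟩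
          obtain ⟨k, hk, h2, h3⟩ := up_split hS hl hu
          refine ⟨l.take k, l.drop k, (List.take_append_drop k l).symm, h2, ?_⟩
          rcases h3 with h3 | h3
          · exact Or.inr ⟨hl.drop hk, h3, he.drop hk⟩
          · left
            by_contra hne
            have hp : 0 < (l.drop k).length := List.length_pos_iff.2 hne
            have e1 := h3 _ hp le_rfl
            have e2 := he.drop hk 0 (Nat.zero_le _)
            rw [pos_zero, Prod.fst_zero] at e2
            omega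
      _ ≤ _ := by
          refine mul_le_mul' hΦ ?_
          refine (wsum_or w (Q := fun l => l = [])
            (R := fun l => Walk l ∧ DnS S l ∧ EndMax l) fun l hl => hl).trans ?_
          rw [wsum_nil]
          exact add_le_add hnil le_rfl
  have h2 : D ≤ ENNReal.ofReal (3 / 4) * U := by
    have e1 : D ≤ wsum w (fun l => SM S (l.map fl)) *
        wsum w (fun l => Walk l ∧ UpS S l ∧ EndMax l) := by
      refine wsum_mul hw ?_
      rintro l ⟨hl, hu, he⟩
      obtain ⟨k, hk, h2, h3⟩ := up_split hS hl.flip (dn_flip.1 hu)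
      rw [List.length_map] at hk
      rw [← List.map_take] at h2
      rw [← List.map_drop] at h3
      refine ⟨l.take k, l.drop k, (List.take_append_drop k l).symm, h2, hl.drop hk, ?_,
        he.drop hk⟩
      rcases h3 with h3 | h3
      · exact up_flip.2 h3
      · exfalso
        have e1 := h2.2.2
        rw [← pos_len, List.length_map, pos_flip, List.length_take, min_eq_left hk,
          pos_take _ le_rfl] at e1
        simp only [fl] at e1
        have e2 := he 0 (Nat.zero_le _)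
        rw [pos_zero, Prod.fst_zero] at e2
        rcases Nat.lt_or_ge k l.length with h4 | h4
        · have e3 := h3 (l.drop k).length (by rw [List.length_drop]; omega)
            (by rw [List.length_map])
          rw [pos_flip, pos_drop _ hk, List.length_drop,
            show k + (l.length - k) = l.length by omega] at e3
          simp only [fl, Prod.fst_sub] at e3
          omega
        · rw [show l.length = k by omega] at e2
          omega
    refine e1.trans (mul_le_mul' ?_ le_rfl)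
    refine (flip_le hf (Q := SM S) fun l hl => ?_).trans hΦ
    exact hl
  have h3 : U ≤ 2 := by
    rw [← ENNReal.ofReal_toReal hUfin] at h1 h2 ⊢
    rw [← ENNReal.ofReal_toReal hDfin] at h1 h2
    have u0 : 0 ≤ U.toReal := ENNReal.toReal_nonneg
    have d0 : 0 ≤ D.toReal := ENNReal.toReal_nonneg
    rw [← ENNReal.ofReal_one, ← ENNReal.ofReal_add zero_le_one d0,
      ← ENNReal.ofReal_mul (by norm_num), ENNReal.ofReal_le_ofReal_iff (by positivity)] at h1
    rw [← ENNReal.ofReal_mul (by norm_num), ENNReal.ofReal_le_ofReal_iff (by positivity)] at h2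
    rw [show (2 : ℝ≥0∞) = ENNReal.ofReal 2 by norm_num]
    refine ENNReal.ofReal_le_ofReal ?_
    linarith
  refine (wsum_mono w fun l hl => ?_).trans h3
  refine ⟨hl.1.1, ⟨l.length, le_rfl, ?_, fun i h4 h5 => (hl.1.2 i h4 h5).1⟩,
    fun i hi => hl.1.le_end hi⟩
  rw [pos_len]
  exact hl.2

/-- the column cut for masses -/
theorem col_mass {w : List Pt → ℝ≥0∞} (hw : SubM w) (hf : FlI w) {S : ℕ} (hS : 0 < S) :
    wsum w (fun l => Bridge l ∧ Smono S l ∧ 2 * (S : ℤ) ≤ l.sum.1) ≤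
      wsum w (fun l => Bridge l ∧ 2 * (S : ℤ) ≤ l.sum.1 ∧ l.sum.1 < 3 * S) *
      (wsum w (fun l => Bridge l ∧ l.sum.1 < S) *
        (wsum w (fun l => Bridge l ∧ l.sum.1 < 2 * S) +
          wsum w (fun l => Bridge l ∧ Smono S l ∧ 2 * (S : ℤ) ≤ l.sum.1))) := by
  set R2 : List Pt → Prop := fun m => ∃ b c, m = b ++ c ∧
      (Bridge (b.map fl) ∧ (b.map fl).sum.1 < (S : ℤ)) ∧ (Bridge c ∧ Smono S c) with hR2
  have h1 : wsum w (fun l => Bridge l ∧ Smono S l ∧ 2 * (S : ℤ) ≤ l.sum.1) ≤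
      wsum w (fun l => Bridge l ∧ 2 * (S : ℤ) ≤ l.sum.1 ∧ l.sum.1 < 3 * S) * wsum w R2 := by
    refine wsum_mul hw ?_
    rintro l ⟨hb, hm, h⟩
    obtain ⟨a, b, c, e, h1, h2, h3⟩ := col_cut hS hb hm h
    exact ⟨a, b ++ c, e, h1, b, c, rfl, h2, h3⟩
  refine h1.trans (mul_le_mul' le_rfl ?_)
  have h2 : wsum w R2 ≤ wsum w (fun b => Bridge (b.map fl) ∧ (b.map fl).sum.1 < (S : ℤ)) *
      wsum w (fun c => Bridge c ∧ Smono S c) := by
    refine wsum_mul hw ?_
    rintro l ⟨b, c, e, h1, h2⟩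
    exact ⟨b, c, e, h1, h2⟩
  refine h2.trans (mul_le_mul' (flip_le hf fun l hl => hl) ?_)
  refine wsum_or w fun l hl => ?_
  rcases lt_or_ge l.sum.1 (2 * (S : ℤ)) with h | h
  · exact Or.inl ⟨hl.1, h⟩
  · exact Or.inr ⟨hl.1, hl.2, h⟩

/-- one more column cut: the span drops by at most 3S -/
theorem col_iter {w : List Pt → ℝ≥0∞} (hw : SubM w) (hf : FlI w) {S : ℕ} (hS : 0 < S) (i : ℕ) :
    wsum w (fun l => Bridge l ∧ Smono S l ∧ 3 * ((i : ℤ) + 1) * S ≤ l.sum.1) ≤
      wsum w (fun l => Bridge l ∧ 2 * (S : ℤ) ≤ l.sum.1 ∧ l.sum.1 < 3 * S) *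
      (wsum w (fun l => Bridge l ∧ l.sum.1 < S) *
        wsum w (fun l => Bridge l ∧ Smono S l ∧ 3 * (i : ℤ) * S ≤ l.sum.1)) := by
  set R2 : List Pt → Prop := fun m => ∃ b c, m = b ++ c ∧
      (Bridge (b.map fl) ∧ (b.map fl).sum.1 < (S : ℤ)) ∧
      (Bridge c ∧ Smono S c ∧ 3 * (i : ℤ) * S ≤ c.sum.1) with hR2
  have h1 : wsum w (fun l => Bridge l ∧ Smono S l ∧ 3 * ((i : ℤ) + 1) * S ≤ l.sum.1) ≤
      wsum w (fun l => Bridge l ∧ 2 * (S : ℤ) ≤ l.sum.1 ∧ l.sum.1 < 3 * S) * wsum w R2 := by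
    refine wsum_mul hw ?_
    rintro l ⟨hb, hm, h⟩
    have hS0 : (0 : ℤ) ≤ (i : ℤ) * S := by positivity
    obtain ⟨a, b, c, e, h1, h2, h3⟩ := col_cut hS hb hm (by nlinarith)
    refine ⟨a, b ++ c, e, h1, b, c, rfl, h2, h3.1, h3.2, ?_⟩
    have h4 := h2.1.nonneg le_rfl
    rw [List.length_map, pos_flip, pos_len] at h4
    simp only [fl] at h4
    have h5 : l.sum.1 = a.sum.1 + (b.sum.1 + c.sum.1) := by
      rw [e, List.sum_append, List.sum_append]
      rfl
    have h6 := h1.2.2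
    have h7 : 3 * ((i : ℤ) + 1) * S = 3 * (i : ℤ) * S + 3 * S := by ring
    omega
  refine h1.trans (mul_le_mul' le_rfl ?_)
  have h2 : wsum w R2 ≤ wsum w (fun b => Bridge (b.map fl) ∧ (b.map fl).sum.1 < (S : ℤ)) *
      wsum w (fun c => Bridge c ∧ Smono S c ∧ 3 * (i : ℤ) * S ≤ c.sum.1) := by
    refine wsum_mul hw ?_
    rintro l ⟨b, c, e, h1, h2⟩
    exact ⟨b, c, e, h1, h2⟩
  exact h2.trans (mul_le_mul' (flip_le hf fun l hl => hl) le_rfl)

theorem sm_le (w : List Pt → ℝ≥0∞) (S p : ℕ) : wsum w (SM S) ≤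
    wsum w (fun l => Bridge l ∧ (S : ℤ) ≤ l.sum.1 ∧ l.sum.1 < 3 * ((p : ℤ) + 1) * S) +
      wsum w (fun l => Bridge l ∧ Smono S l ∧ 3 * ((p : ℤ) + 1) * S ≤ l.sum.1) := by
  refine wsum_or w fun l hl => ?_
  rcases lt_or_ge l.sum.1 (3 * ((p : ℤ) + 1) * S) with h | h
  · exact Or.inl ⟨hl.1, hl.2.2, h⟩
  · exact Or.inr ⟨hl.1, hl.2.1, h⟩

/-- numerical consequence: with s, v as below the monotone bridges have small mass -/
theorem sm_small {w : List Pt → ℝ≥0∞} (hw : SubM w) (hf : FlI w) {S : ℕ} (hS : 0 < S)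
    (hfin : wsum w Walk ≠ ⊤) (p : ℕ) {s1 s2 v1 v2 : ℝ≥0∞} {a b : ℝ} (ha : 0 ≤ a) (hb : 0 ≤ b)
    (hb1 : b < 1)
    (h1 : wsum w (fun l => Bridge l ∧ (S : ℤ) ≤ l.sum.1 ∧ l.sum.1 < 3 * ((p : ℤ) + 1) * S) ≤ s1)
    (h2 : wsum w (fun l => Bridge l ∧ 2 * (S : ℤ) ≤ l.sum.1 ∧ l.sum.1 < 3 * S) ≤ s2)
    (h3 : wsum w (fun l => Bridge l ∧ l.sum.1 < S) ≤ v1)
    (h4 : wsum w (fun l => Bridge l ∧ l.sum.1 < 2 * S) ≤ v2)
    (e1 : s2 * (v1 * v2) ≤ ENNReal.ofReal a) (e2 : s2 * v1 ≤ ENNReal.ofReal b) :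
    wsum w (SM S) ≤ s1 + ENNReal.ofReal (b ^ p * (a / (1 - b))) := by
  refine (sm_le w S p).trans (add_le_add h1 ?_)
  set G := wsum w (fun l => Bridge l ∧ Smono S l ∧ 2 * (S : ℤ) ≤ l.sum.1) with hG
  have hGfin : G ≠ ⊤ := ne_top_of_le_ne_top hfin (wsum_mono w fun l hl => hl.1.1)
  have h5 : G ≤ ENNReal.ofReal a + ENNReal.ofReal b * G := by
    calc G ≤ _ := col_mass hw hf hS
      _ ≤ s2 * (v1 * (v2 + G)) :=
          mul_le_mul' h2 (mul_le_mul' h3 (add_le_add h4 le_rfl))
      _ = s2 * (v1 * v2) + s2 * v1 * G := by ring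
      _ ≤ _ := add_le_add e1 (mul_le_mul' e2 le_rfl)
  have h6 : G ≤ ENNReal.ofReal (a / (1 - b)) := by
    rw [← ENNReal.ofReal_toReal hGfin] at h5 ⊢
    have g0 : 0 ≤ G.toReal := ENNReal.toReal_nonneg
    rw [← ENNReal.ofReal_mul hb, ← ENNReal.ofReal_add ha (by positivity),
      ENNReal.ofReal_le_ofReal_iff (by positivity)] at h5
    refine ENNReal.ofReal_le_ofReal ?_
    rw [le_div_iff₀ (by linarith)]
    linarith
  have hc0 : 0 ≤ a / (1 - b) := div_nonneg ha (by linarith)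
  induction p with
  | zero =>
    rw [pow_zero, one_mul]
    refine (wsum_mono w fun l hl => ?_).trans h6
    refine ⟨hl.1, hl.2.1, ?_⟩
    have := hl.2.2
    push_cast at this
    omega
  | succ p ih =>
    have h7 := ih (le_trans (wsum_mono w fun l hl => by
      refine ⟨hl.1, hl.2.1, hl.2.2.trans_le ?_⟩
      push_cast
      nlinarith [Int.natCast_nonneg S]) h1)
    calc wsum w (fun l => Bridge l ∧ Smono S l ∧ 3 * (((p + 1 : ℕ) : ℤ) + 1) * S ≤ l.sum.1)
        ≤ _ := col_iter hw hf hS (p + 1)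
      _ ≤ s2 * (v1 * ENNReal.ofReal (b ^ p * (a / (1 - b)))) := by
          refine mul_le_mul' h2 (mul_le_mul' h3 ?_)
          push_cast
          exact h7
      _ = s2 * v1 * ENNReal.ofReal (b ^ p * (a / (1 - b))) := by ring
      _ ≤ ENNReal.ofReal b * ENNReal.ofReal (b ^ p * (a / (1 - b))) := mul_le_mul' e2 le_rfl
      _ = _ := by
          rw [← ENNReal.ofReal_mul hb]
          congr 1
          ring

end Pool.Agent.Work.MP_376faf_co_win
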