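import Pool.Agent.Work.MP_376faf_co_win.Flat
import Pool.Agent.Work.MP_376faf_co_lower.Final

/-! Window theorem: polygons from bridges of bounded length. -/

set_option autoImplicit false

namespace Pool.Agent.Work.MP_376faf_co_win

open Pool.Agent.Work.MP_376faf_co_lower Pool.Agent.Work.MP_376faf_co_hw
open scoped ENNReal

/-- good_count with an arbitrary weight of the two lengths -/
theorem good_count_g (g : ℕ → ℕ → ℝ≥0∞) {v : Pt} (hv : 0 < v.1) :
    (v.1.toNat : ℝ≥0∞) * (∑' p : SB v × SB v, g p.1.1.length p.2.1.length *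
      (((rr p.1.1 : ℕ) : ℝ≥0∞)⁻¹ * ((rr p.2.1 : ℕ) : ℝ≥0∞)⁻¹)) ≤
      ∑' q : GP v, g q.1.1.length q.1.2.length := by
  set w1 : SB v × SB v → ℝ≥0∞ := fun p => g p.1.1.length p.2.1.length *
    (((rr p.1.1 : ℕ) : ℝ≥0∞)⁻¹ * ((rr p.2.1 : ℕ) : ℝ≥0∞)⁻¹) with hw1
  set w2 : GP v → ℝ≥0∞ := fun q => g q.1.1.length q.1.2.length *
    (((rr q.1.1 : ℕ) : ℝ≥0∞)⁻¹ * ((rr q.1.2 : ℕ) : ℝ≥0∞)⁻¹) with hw2
  calc (v.1.toNat : ℝ≥0∞) * (∑' p : SB v × SB v, w1 p)
      = ∑' p : SB v × SB v, (v.1.toNat : ℝ≥0∞) * w1 p := by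
        rw [ENNReal.tsum_mul_left]
    _ ≤ ∑' p : SB v × SB v, ∑' _ : RotPair v p, w1 p :=
        ENNReal.tsum_le_tsum (fun p => rotPair_ge hv p (w1 p))
    _ = ∑' t : Σ p, RotPair v p, w1 t.1 := by
        rw [ENNReal.tsum_sigma' (f := fun t : Σ p, RotPair v p => w1 t.1)]
    _ ≤ ∑' t : Σ q, RenPair v q, w2 t.1 := by
        refine tsum_le_inj (fun t : Σ p, RotPair v p =>
          (⟨⟨(t.1.1.1.rotate t.2.1.1, t.1.2.1.rotate t.2.1.2), t.2.2.2.2⟩,
            ⟨((t.1.1.1.length - t.2.1.1) % t.1.1.1.length,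
              (t.1.2.1.length - t.2.1.2) % t.1.2.1.length), ?_, ?_⟩⟩ : Σ q, RenPair v q)) ?_ ?_
        · rw [mem_Ren, List.length_rotate, rotate_back _ t.2.2.1]
          exact ⟨Nat.mod_lt _ (List.length_pos_iff.2 t.1.1.2.1.2), t.1.1.2.1.1⟩
        · rw [mem_Ren, List.length_rotate, rotate_back _ t.2.2.2.1]
          exact ⟨Nat.mod_lt _ (List.length_pos_iff.2 t.1.2.2.1.2), t.1.2.2.1.1⟩
        · rintro ⟨⟨⟨ω, h1⟩, ⟨η, h2⟩⟩, ⟨⟨a, b⟩, ha, hb, hg⟩⟩ ⟨⟨⟨ω', h1'⟩, ⟨η', h2'⟩⟩,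
            ⟨⟨a', b'⟩, ha', hb', hg'⟩⟩ hab
          simp only at ha hb ha' hb' hg hg'
          have e1 := congrArg (fun t : Σ q, RenPair v q => t.1.1) hab
          have e2 := congrArg (fun t : Σ q, RenPair v q => t.2.1) hab
          simp only [Prod.mk.injEq] at e1 e2
          have key : ∀ {ω ω' : List Pt} {a a' : ℕ}, a < ω.length → a' < ω'.length →
              ω.rotate a = ω'.rotate a' → (ω.length - a) % ω.length = (ω'.length - a') % ω'.length →
              ω = ω' ∧ a = a' := by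
            intro ω ω' a a' ha ha' h3 h4
            have h5 : ω = ω' := by
              rw [← rotate_back ω ha, ← rotate_back ω' ha', h3, h4]
            subst h5
            refine ⟨rfl, ?_⟩
            rcases Nat.eq_zero_or_pos a with h6 | h6 <;> rcases Nat.eq_zero_or_pos a' with h7 | h7
            · omega
            · rw [h6, Nat.sub_zero, Nat.mod_self, Nat.mod_eq_of_lt (by omega)] at h4; omega
            · rw [h7, Nat.sub_zero, Nat.mod_self, Nat.mod_eq_of_lt (by omega)] at h4; omega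
            · rw [Nat.mod_eq_of_lt (by omega), Nat.mod_eq_of_lt (by omega)] at h4; omega
          obtain ⟨r1, r2⟩ := key ha ha' e1.1 e2.1
          obtain ⟨r3, r4⟩ := key hb hb' e1.2 e2.2
          subst r1 r2 r3 r4
          rfl
        · intro t
          simp only [hw1, hw2, List.length_rotate]
          rw [rr_rotate t.2.2.1, rr_rotate t.2.2.2.1]
    _ = ∑' q : GP v, ∑' _ : RenPair v q, w2 q := by
        rw [ENNReal.tsum_sigma' (f := fun t : Σ q, RenPair v q => w2 t.1)]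
    _ ≤ ∑' q : GP v, g q.1.1.length q.1.2.length :=
        ENNReal.tsum_le_tsum (fun q => renPair_le q _)

/-- truncated power -/
noncomputable def xh (x : ℝ≥0∞) (L n : ℕ) : ℝ≥0∞ := if n ≤ L then x ^ n else 0

/-- weighted mass of the bridges with displacement v and length at most L -/
noncomputable def WL (x : ℝ≥0∞) (L : ℕ) (v : Pt) : ℝ≥0∞ :=
  ∑' l : SB v, xh x L l.1.length * ((rr l.1 : ℕ) : ℝ≥0∞)⁻¹

theorem tail_geL {μ : ℝ} (hμ : 1 ≤ μ) (L : ℕ) {v : Pt} (hv : 0 < v.1) :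
    (v.1.toNat : ℝ≥0∞) * (WL (ENNReal.ofReal μ)⁻¹ L v * WL (ENNReal.ofReal μ)⁻¹ L v) *
      ((ENNReal.ofReal μ)⁻¹ * (ENNReal.ofReal μ)⁻¹) ≤
      ∑' n : ℕ, if n + (v.1.natAbs + v.2.natAbs + 1) ≤ L + 1 then
        ENNReal.ofReal (aN μ (n + (v.1.natAbs + v.2.natAbs + 1))) else 0 := by
  classical
  set x : ℝ≥0∞ := (ENNReal.ofReal μ)⁻¹ with hx
  set S := v.1.natAbs + v.2.natAbs + 1 with hS
  have h0 : WL x L v * WL x L v = ∑' p : SB v × SB v, (xh x L p.1.1.length *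
      xh x L p.2.1.length) * (((rr p.1.1 : ℕ) : ℝ≥0∞)⁻¹ * ((rr p.2.1 : ℕ) : ℝ≥0∞)⁻¹) := by
    unfold WL
    rw [← tsum_mul]
    refine tsum_congr fun p => ?_
    ring
  have h1 : (v.1.toNat : ℝ≥0∞) * (WL x L v * WL x L v) * (x * x) ≤
      ∑' q : GP v, (xh x L q.1.1.length * xh x L q.1.2.length) * (x * x) := by
    rw [ENNReal.tsum_mul_right, h0]
    exact mul_le_mul' (good_count_g (fun a b => xh x L a * xh x L b) hv) le_rfl
  refine h1.trans ?_
  have hex : ∀ q : GP v, ∃ n : ℕ, q.1.1.length + q.1.2.length + 2 = 2 * (n + S) := by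
    intro q
    have p1 := sum_parity q.1.1 q.2.un
    have p2 := sum_parity q.1.2 q.2.un'
    rw [q.2.sum] at p1
    rw [q.2.sum'] at p2
    refine ⟨(q.1.1.length + q.1.2.length + 2) / 2 - S, ?_⟩
    have a1 : |v.1| = (v.1.natAbs : ℤ) := Int.abs_eq_natAbs _
    have a2 : |v.2| = (v.2.natAbs : ℤ) := Int.abs_eq_natAbs _
    omega
  choose n hn using hex
  calc ∑' q : GP v, (xh x L q.1.1.length * xh x L q.1.2.length) * (x * x)
      ≤ ∑' t : Σ n : ℕ, GPN v (n + S),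
          (if t.1 + S ≤ L + 1 then x ^ (2 * (t.1 + S)) else 0) := by
        refine tsum_le_inj (fun q : GP v => (⟨n q, ⟨q.1, q.2, hn q⟩⟩ : Σ n : ℕ, GPN v (n + S)))
          ?_ ?_
        · intro a b hab
          have := congrArg (fun t : Σ n : ℕ, GPN v (n + S) => t.2.1) hab
          exact Subtype.ext this
        · intro q
          simp only
          unfold xh
          have h2 := hn q
          by_cases h3 : q.1.1.length ≤ L
          · by_cases h4 : q.1.2.length ≤ L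
            · rw [if_pos h3, if_pos h4, if_pos (by omega), ← h2, ← pow_add, ← sq, ← pow_add]
            · rw [if_neg h4, mul_zero, zero_mul]
              exact zero_le
          · rw [if_neg h3, zero_mul, zero_mul]
            exact zero_le
    _ = ∑' n : ℕ, ∑' _ : GPN v (n + S), (if n + S ≤ L + 1 then x ^ (2 * (n + S)) else 0) := by
        rw [ENNReal.tsum_sigma' (f := fun t : Σ n : ℕ, GPN v (n + S) =>
          (if t.1 + S ≤ L + 1 then x ^ (2 * (t.1 + S)) else 0))]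
    _ ≤ _ := by
        refine ENNReal.tsum_le_tsum fun n => ?_
        by_cases h : n + S ≤ L + 1
        · simp only [if_pos h]
          exact GPN_le hμ v (by omega)
        · simp only [if_neg h, tsum_zero]
          exact le_rfl

theorem step_rpow {t r : ℝ} (ht : 0 < t) (hr : 0 < r) :
    (t + 1) ^ (-(r + 1)) ≤ (1 / r) * (t ^ (-r) - (t + 1) ^ (-r)) := by
  have ht1 : 0 < t + 1 := by linarith
  have h1 : 1 + r * (1 / (t + 1)) ≤ ((t + 1) / t) ^ r := by
    have h2 : 1 / (t + 1) ≤ Real.log ((t + 1) / t) := by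
      have := Real.one_sub_inv_le_log_of_pos (show 0 < (t + 1) / t by positivity)
      refine le_trans (le_of_eq ?_) this
      field_simp
      ring
    calc 1 + r * (1 / (t + 1)) ≤ r * Real.log ((t + 1) / t) + 1 := by
          have := mul_le_mul_of_nonneg_left h2 hr.le
          linarith
      _ ≤ Real.exp (r * Real.log ((t + 1) / t)) := Real.add_one_le_exp _
      _ = ((t + 1) / t) ^ r := by
          rw [Real.rpow_def_of_pos (by positivity), mul_comm]
  have h3 : t ^ (-r) = (t + 1) ^ (-r) * ((t + 1) / t) ^ r := by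
    rw [Real.div_rpow ht1.le ht.le, Real.rpow_neg ht.le, Real.rpow_neg ht1.le]
    have : (t + 1) ^ r ≠ 0 := (Real.rpow_pos_of_pos ht1 r).ne'
    field_simp
  have h4 : (t + 1) ^ (-(r + 1)) = (t + 1) ^ (-r) * (1 / (t + 1)) := by
    rw [show -(r + 1) = -r + -1 by ring, Real.rpow_add ht1, Real.rpow_neg_one, one_div]
  rw [h3, h4]
  have h5 : 0 < (t + 1) ^ (-r) := Real.rpow_pos_of_pos ht1 _
  rw [one_div_mul_eq_div, le_div_iff₀ hr]
  nlinarith [mul_le_mul_of_nonneg_left h1 h5.le]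

theorem pow_tail {s : ℝ} (hs : 1 < s) {k : ℕ} (hk : 1 ≤ k) :
    ∑' j : ℕ, ENNReal.ofReal (((k + j : ℕ) : ℝ) ^ (-s)) ≤
      ENNReal.ofReal (s / (s - 1) * (k : ℝ) ^ (-(s - 1))) := by
  have hr : 0 < s - 1 := by linarith
  have hk0 : (0:ℝ) < k := by exact_mod_cast hk
  rw [ENNReal.tsum_eq_iSup_nat]
  refine iSup_le fun J => ?_
  rw [← ENNReal.ofReal_sum_of_nonneg fun _ _ => by positivity]
  refine ENNReal.ofReal_le_ofReal ?_
  have key : ∀ J : ℕ, ∑ j ∈ Finset.range (J + 1), ((k + j : ℕ) : ℝ) ^ (-s) ≤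
      (k : ℝ) ^ (-s) + (1 / (s - 1)) * ((k : ℝ) ^ (-(s - 1)) - ((k + J : ℕ) : ℝ) ^ (-(s - 1))) := by
    intro J
    induction J with
    | zero => simp
    | succ J ih =>
      rw [Finset.sum_range_succ]
      have h1 := step_rpow (t := ((k + J : ℕ) : ℝ)) (r := s - 1)
        (by exact_mod_cast (by omega : 0 < k + J)) hr
      have h2 : ((k + (J + 1) : ℕ) : ℝ) = ((k + J : ℕ) : ℝ) + 1 := by push_cast; ring
      rw [h2]
      rw [show -(s - 1 + 1) = -s by ring] at h1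
      linarith
  have h1 : ∑ j ∈ Finset.range J, ((k + j : ℕ) : ℝ) ^ (-s) ≤
      ∑ j ∈ Finset.range (J + 1), ((k + j : ℕ) : ℝ) ^ (-s) :=
    Finset.sum_le_sum_of_subset_of_nonneg (Finset.range_mono (Nat.le_succ J))
      fun _ _ _ => by positivity
  refine h1.trans ((key J).trans ?_)
  have h2 : (k : ℝ) ^ (-s) ≤ (k : ℝ) ^ (-(s - 1)) :=
    Real.rpow_le_rpow_of_exponent_le (by exact_mod_cast hk) (by linarith)
  have h3 : 0 ≤ ((k + J : ℕ) : ℝ) ^ (-(s - 1)) := by positivity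
  have h4 : s / (s - 1) = 1 + 1 / (s - 1) := by field_simp; ring
  rw [h4]
  have h5 : 0 ≤ 1 / (s - 1) := by positivity
  nlinarith [mul_nonneg h5 h3]

theorem toNat_cast {a : ℤ} (h : 0 ≤ a) : ((a.toNat : ℕ) : ℝ) = a := by
  have : ((a.toNat : ℕ) : ℤ) = a := Int.toNat_of_nonneg h
  exact_mod_cast this

/-- if all polygon numbers in the window are small then the weighted mass of bridges with
a given displacement is small -/
theorem WL_le {μ : ℝ} (hμ : 1 ≤ μ) {ε : ℝ} (hε : 0 < ε) {n0 L : ℕ}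
    (hyp : ∀ m : ℕ, n0 ≤ m → m ≤ L + 1 → aN μ m ≤ (m:ℝ) ^ (-(4 + ε)))
    (k j : ℕ) (b : ℤ) (hb : b.natAbs = j) (hk : n0 ≤ k) (hk1 : 1 ≤ k) :
    WL (ENNReal.ofReal μ)⁻¹ L ((k : ℤ), b) ≤ ENNReal.ofReal μ *
      ENNReal.ofReal (2 * ((k : ℝ) ^ (-(1 / 2 : ℝ)) * ((k + j : ℕ) : ℝ) ^ (-((3 + ε) / 2)))) := by
  have hμ0 : 0 < μ := by linarith
  set x : ℝ≥0∞ := (ENNReal.ofReal μ)⁻¹ with hx
  have hv : 0 < (((k : ℤ), b) : Pt).1 := by simp only; omega
  have h1 := tail_geL hμ L hv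
  rw [← hx] at h1
  simp only [Int.toNat_natCast, Int.natAbs_natCast, hb] at h1
  have h2 : (∑' n : ℕ, if n + (k + j + 1) ≤ L + 1 then
        ENNReal.ofReal (aN μ (n + (k + j + 1))) else 0) ≤
      ENNReal.ofReal (4 * ((k + j : ℕ) : ℝ) ^ (-(3 + ε))) := by
    calc _ ≤ ∑' n : ℕ, ENNReal.ofReal (((k + j + 1 + n : ℕ) : ℝ) ^ (-(4 + ε))) := by
          refine ENNReal.tsum_le_tsum fun n => ?_
          by_cases h : n + (k + j + 1) ≤ L + 1
          · rw [if_pos h]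
            have := hyp (n + (k + j + 1)) (by omega) h
            rw [show k + j + 1 + n = n + (k + j + 1) by ring]
            exact ENNReal.ofReal_le_ofReal this
          · rw [if_neg h]
            exact zero_le
      _ ≤ _ := pow_tail (s := 4 + ε) (by linarith) (k := k + j + 1) (by omega)
      _ ≤ _ := by
          refine ENNReal.ofReal_le_ofReal ?_
          have e1 : (4 + ε) / (4 + ε - 1) ≤ 4 := by
            rw [div_le_iff₀ (by linarith)]; linarith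
          have e2 : ((k + j + 1 : ℕ) : ℝ) ^ (-(4 + ε - 1)) ≤ ((k + j : ℕ) : ℝ) ^ (-(3 + ε)) := by
            rw [show -(4 + ε - 1) = -(3 + ε) by ring]
            refine Real.rpow_le_rpow_of_nonpos (by exact_mod_cast (by omega : 0 < k + j))
              (by push_cast; linarith) (by linarith)
          exact mul_le_mul e1 e2 (by positivity) (by norm_num)
  have h3 := rt_mono (h1.trans h2)
  rw [rt_mul, rt_mul, rt_sq, rt_sq, rt_ofReal (by positivity), rt_nat] at h3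
  have hkp : (0:ℝ) < k := by exact_mod_cast hk1
  have hkj : (0:ℝ) < ((k + j : ℕ) : ℝ) := by exact_mod_cast (by omega : 0 < k + j)
  have e3 : √(4 * ((k + j : ℕ) : ℝ) ^ (-(3 + ε))) = 2 * ((k + j : ℕ) : ℝ) ^ (-((3 + ε) / 2)) := by
    rw [Real.sqrt_mul (by norm_num), show (4:ℝ) = 2 ^ 2 by norm_num,
      Real.sqrt_sq (by norm_num), Real.sqrt_eq_rpow, ← Real.rpow_mul hkj.le]
    congr 2
    ring
  rw [e3] at h3
  set r := ENNReal.ofReal (√(k:ℝ)) with hr
  have hr0 : r ≠ 0 := by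
    rw [hr]
    simp only [ne_eq, ENNReal.ofReal_eq_zero, not_le]
    exact Real.sqrt_pos.2 hkp
  have hrt : r ≠ ⊤ := ENNReal.ofReal_ne_top
  have hxi : ENNReal.ofReal μ * x = 1 := by
    rw [hx]
    exact ENNReal.mul_inv_cancel (by simpa using hμ0) ENNReal.ofReal_ne_top
  have hri : ENNReal.ofReal ((k:ℝ) ^ (-(1 / 2 : ℝ))) = r⁻¹ := by
    rw [hr, ← ENNReal.ofReal_inv_of_pos (Real.sqrt_pos.2 hkp), Real.rpow_neg hkp.le,
      Real.sqrt_eq_rpow]
  calc WL x L ((k : ℤ), b) = (ENNReal.ofReal μ * x) * ((r⁻¹ * r) * WL x L ((k : ℤ), b)) := by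
        rw [hxi, ENNReal.inv_mul_cancel hr0 hrt, one_mul, one_mul]
    _ = ENNReal.ofReal μ * (r⁻¹ * (r * WL x L ((k : ℤ), b) * x)) := by ring
    _ ≤ ENNReal.ofReal μ * (r⁻¹ * ENNReal.ofReal (2 * ((k + j : ℕ) : ℝ) ^ (-((3 + ε) / 2)))) :=
        mul_le_mul' le_rfl (mul_le_mul' le_rfl h3)
    _ = _ := by
        rw [← hri, ← ENNReal.ofReal_mul (by positivity)]
        congr 2
        ring

/-- the constant in the next theorem -/
noncomputable def Cw (μ ε : ℝ) : ℝ :=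
  μ * (4 * ((3 + ε) / 2 / ((3 + ε) / 2 - 1)) * ((1 + ε / 2) / (1 + ε / 2 - 1)))

theorem Cw_pos {μ ε : ℝ} (hμ : 1 ≤ μ) (hε : 0 < ε) : 0 < Cw μ ε := by
  unfold Cw
  have : 0 < (3 + ε) / 2 - 1 := by linarith
  have : 0 < 1 + ε / 2 - 1 := by linarith
  positivity

theorem WL_sum {μ : ℝ} (hμ : 1 ≤ μ) {ε : ℝ} (hε : 0 < ε) {n0 L : ℕ}
    (hyp : ∀ m : ℕ, n0 ≤ m → m ≤ L + 1 → aN μ m ≤ (m:ℝ) ^ (-(4 + ε)))
    {S : ℕ} (hS : n0 ≤ S) (hS1 : 1 ≤ S) :
    ∑' p : ℕ × ℤ, WL (ENNReal.ofReal μ)⁻¹ L (((S + p.1 : ℕ) : ℤ), p.2) ≤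
      ENNReal.ofReal (Cw μ ε * (S : ℝ) ^ (-(ε / 2))) := by
  have hμ0 : 0 < μ := by linarith
  set s : ℝ := (3 + ε) / 2 with hs
  have hs1 : 1 < s := by rw [hs]; linarith
  set s' : ℝ := 1 + ε / 2 with hs'
  have hs'1 : 1 < s' := by rw [hs']; linarith
  have hc1 : 0 ≤ s / (s - 1) := div_nonneg (by linarith) (by linarith)
  have hc2 : 0 ≤ s' / (s' - 1) := div_nonneg (by linarith) (by linarith)
  calc ∑' p : ℕ × ℤ, WL (ENNReal.ofReal μ)⁻¹ L (((S + p.1 : ℕ) : ℤ), p.2)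
      ≤ ∑' p : ℕ × ℤ, ENNReal.ofReal μ * ENNReal.ofReal
        (2 * (((S + p.1 : ℕ) : ℝ) ^ (-(1 / 2 : ℝ)) *
          ((S + p.1 + p.2.natAbs : ℕ) : ℝ) ^ (-s))) := by
        refine ENNReal.tsum_le_tsum fun p => ?_
        exact WL_le hμ hε hyp (S + p.1) p.2.natAbs p.2 rfl (by omega) (by omega)
    _ = ENNReal.ofReal μ * ∑' k : ℕ, ENNReal.ofReal (2 * ((S + k : ℕ) : ℝ) ^ (-(1 / 2 : ℝ))) *
          ∑' b : ℤ, ENNReal.ofReal (((S + k + b.natAbs : ℕ) : ℝ) ^ (-s)) := by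
        rw [ENNReal.tsum_mul_left]
        congr 1
        rw [ENNReal.tsum_prod' (f := fun p : ℕ × ℤ => ENNReal.ofReal
          (2 * (((S + p.1 : ℕ) : ℝ) ^ (-(1 / 2 : ℝ)) *
          ((S + p.1 + p.2.natAbs : ℕ) : ℝ) ^ (-s))))]
        refine tsum_congr fun k => ?_
        rw [← ENNReal.tsum_mul_left]
        refine tsum_congr fun b => ?_
        rw [← ENNReal.ofReal_mul (by positivity)]
        congr 1
        ring
    _ ≤ ENNReal.ofReal μ * ∑' k : ℕ, ENNReal.ofReal (2 * ((S + k : ℕ) : ℝ) ^ (-(1 / 2 : ℝ))) *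
          (2 * ENNReal.ofReal (s / (s - 1) * ((S + k : ℕ) : ℝ) ^ (-(s - 1)))) := by
        refine mul_le_mul' le_rfl (ENNReal.tsum_le_tsum fun k => mul_le_mul' le_rfl ?_)
        refine (tsum_int_le (fun j => ENNReal.ofReal (((S + k + j : ℕ) : ℝ) ^ (-s)))).trans ?_
        exact mul_le_mul' le_rfl (pow_tail hs1 (by omega))
    _ = ENNReal.ofReal μ * (ENNReal.ofReal (4 * (s / (s - 1))) *
          ∑' k : ℕ, ENNReal.ofReal (((S + k : ℕ) : ℝ) ^ (-s'))) := by
        congr 1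
        rw [← ENNReal.tsum_mul_left]
        refine tsum_congr fun k => ?_
        have hk : (0:ℝ) < ((S + k : ℕ) : ℝ) := by exact_mod_cast (by omega : 0 < S + k)
        rw [show (2 : ℝ≥0∞) = ENNReal.ofReal 2 by norm_num, ← ENNReal.ofReal_mul (by norm_num),
          ← ENNReal.ofReal_mul (by positivity), ← ENNReal.ofReal_mul (by positivity)]
        congr 1
        have : ((S + k : ℕ) : ℝ) ^ (-s') =
            ((S + k : ℕ) : ℝ) ^ (-(1 / 2 : ℝ)) * ((S + k : ℕ) : ℝ) ^ (-(s - 1)) := by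
          rw [← Real.rpow_add hk]
          congr 1
          rw [hs, hs']
          ring
        rw [this]
        ring
    _ ≤ ENNReal.ofReal μ * (ENNReal.ofReal (4 * (s / (s - 1))) *
          ENNReal.ofReal (s' / (s' - 1) * (S : ℝ) ^ (-(s' - 1)))) :=
        mul_le_mul' le_rfl (mul_le_mul' le_rfl (pow_tail hs'1 hS1))
    _ = _ := by
        rw [← ENNReal.ofReal_mul (by positivity), ← ENNReal.ofReal_mul hμ0.le]
        congr 1
        unfold Cw
        rw [← hs, ← hs', show -(s' - 1) = -(ε / 2) by rw [hs']; ring]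
        ring

end Pool.Agent.Work.MP_376faf_co_win
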