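import Pool.Agent.Work.MP_376faf_co_win.Basic

/-! Window theorem: splitting walks at their S-extrema and at a column. -/

set_option autoImplicit false

namespace Pool.Agent.Work.MP_376faf_co_win

open Pool.Agent.Work.MP_376faf_co_lower Pool.Agent.Work.MP_376faf_co_hw

/-- no drawdown of size S -/
def Smono (S : ℕ) (l : List Pt) : Prop :=
  ∀ i j, i ≤ j → j ≤ l.length → (pos l i).1 - (pos l j).1 < S

/-- bridges of span at least S without drawdown S -/
def SM (S : ℕ) (l : List Pt) : Prop := Bridge l ∧ Smono S l ∧ (S : ℤ) ≤ l.sum.1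

/-- the walk rises by S before it returns to its initial column -/
def UpS (S : ℕ) (l : List Pt) : Prop := ∃ τ ≤ l.length, (S : ℤ) ≤ (pos l τ).1 ∧
  ∀ i, 0 < i → i ≤ τ → 0 < (pos l i).1

/-- the walk falls by S before it returns to its initial column -/
def DnS (S : ℕ) (l : List Pt) : Prop := ∃ τ ≤ l.length, (pos l τ).1 ≤ -(S : ℤ) ∧
  ∀ i, 0 < i → i ≤ τ → (pos l i).1 < 0

def Low (S : ℕ) (l : List Pt) : Prop :=
  ∀ i, 0 < i → i ≤ l.length → -(S : ℤ) < (pos l i).1 ∧ (pos l i).1 < 0

theorem dn_flip {S : ℕ} {l : List Pt} : DnS S l ↔ UpS S (l.map fl) := by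
  unfold DnS UpS
  simp only [List.length_map, pos_flip, fl]
  constructor
  · rintro ⟨τ, h1, h2, h3⟩
    exact ⟨τ, h1, by omega, fun i h4 h5 => by have := h3 i h4 h5; omega⟩
  · rintro ⟨τ, h1, h2, h3⟩
    exact ⟨τ, h1, by omega, fun i h4 h5 => by have := h3 i h4 h5; omega⟩

theorem up_flip {S : ℕ} {l : List Pt} : UpS S l ↔ DnS S (l.map fl) := by
  rw [dn_flip, map_fl_map_fl]

/-- first maximum type split of a walk which starts with a rise -/
theorem up_split {S : ℕ} (hS : 0 < S) {l : List Pt} (hw : Walk l) (hu : UpS S l) :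
    ∃ k ≤ l.length, SM S (l.take k) ∧ (DnS S (l.drop k) ∨ Low S (l.drop k)) := by
  classical
  obtain ⟨τ, hτ, hτS, hτp⟩ := hu
  by_cases hd : ∃ t, t ≤ l.length ∧ ∃ i ≤ t, (S : ℤ) ≤ (pos l i).1 - (pos l t).1
  · -- first time with a drawdown S
    set t := Nat.find hd with ht
    obtain ⟨htl, i0, hi0, hi0S⟩ := Nat.find_spec hd
    rw [← ht] at htl hi0 hi0S
    have hmin : ∀ t' < t, t' ≤ l.length → ∀ i ≤ t', (pos l i).1 - (pos l t').1 < S := by
      intro t' h1 h2 i hi
      by_contra h3
      exact Nat.find_min hd h1 ⟨h2, i, hi, not_lt.1 h3⟩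
    obtain ⟨k, hk, hk1, hk2⟩ := last_max (fun i => (pos l i).1) t
    have hkt : k < t := by
      rcases Nat.lt_or_ge k t with h | h
      · exact h
      · exfalso
        have : k = t := by omega
        have h2 := hk1 i0 hi0
        rw [this] at h2
        omega
    have hkl : k ≤ l.length := by omega
    have hpos : ∀ i, 0 < i → i ≤ k → 0 < (pos l i).1 := by
      intro i h1 h2
      rcases Nat.le_total i τ with h3 | h3
      · exact hτp i h1 h3
      · have := hmin i (by omega) (by omega) τ h3
        omega
    have hkS : (S : ℤ) ≤ (pos l k).1 := by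
      rcases Nat.lt_or_ge t τ with h | h
      · have h1 := hτp t (by omega) h.le
        have h2 := hk1 i0 hi0
        omega
      · exact hτS.trans (hk1 τ h)
    have hlen : (l.take k).length = k := by rw [List.length_take, min_eq_left hkl]
    refine ⟨k, hkl, ⟨⟨hw.take k, ?_⟩, ?_, ?_⟩, Or.inl ⟨t - k, ?_, ?_, ?_⟩⟩
    · intro i h1 h2
      rw [hlen] at h2 ⊢
      rw [pos_take _ h2, pos_take _ le_rfl]
      exact ⟨hpos i h1 h2, hk1 i (by omega)⟩
    · intro i j hij hj
      rw [hlen] at hj
      rw [pos_take _ (hij.trans hj), pos_take _ hj]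
      exact hmin j (by omega) (by omega) i hij
    · exact hkS
    · rw [List.length_drop]; omega
    · rw [pos_drop _ hkl, show k + (t - k) = t by omega, Prod.fst_sub]
      have := hk1 i0 hi0
      omega
    · intro i h1 h2
      rw [pos_drop _ hkl, Prod.fst_sub]
      have := hk2 (k + i) (by omega) (by omega)
      omega
  · -- no drawdown S at all
    push Not at hd
    obtain ⟨k, hkl, hk1, hk2⟩ := last_max (fun i => (pos l i).1) l.length
    have hkS : (S : ℤ) ≤ (pos l k).1 := hτS.trans (hk1 τ hτ)
    have hlen : (l.take k).length = k := by rw [List.length_take, min_eq_left hkl]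
    refine ⟨k, hkl, ⟨⟨hw.take k, ?_⟩, ?_, hkS⟩, Or.inr ?_⟩
    · intro i h1 h2
      rw [hlen] at h2 ⊢
      rw [pos_take _ h2, pos_take _ le_rfl]
      refine ⟨?_, hk1 i (by omega)⟩
      rcases Nat.le_total i τ with h3 | h3
      · exact hτp i h1 h3
      · have := hd i (by omega) τ h3
        omega
    · intro i j hij hj
      rw [hlen] at hj
      rw [pos_take _ (hij.trans hj), pos_take _ hj]
      exact hd j (by omega) i hij
    · intro i h1 h2
      rw [List.length_drop] at h2
      rw [pos_drop _ hkl, Prod.fst_sub]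
      have h3 := hk2 (k + i) (by omega) (by omega)
      have h4 := hd (k + i) (by omega) k (by omega)
      omega

/-- initial piece of small range -/
theorem start_split {S : ℕ} (hS : 0 < S) {l : List Pt} (h : S ≤ rg px l) :
    ∃ k ≤ l.length, rg px (l.take k) < S ∧ (UpS S (l.drop k) ∨ DnS S (l.drop k)) := by
  classical
  have hex : ∃ t, t ≤ l.length ∧ S ≤ rg px (l.take t) :=
    ⟨l.length, le_rfl, by rwa [List.take_length]⟩
  set t := Nat.find hex with ht
  obtain ⟨htl, htS⟩ := Nat.find_spec hex
  rw [← ht] at htl htS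
  have hmin : ∀ k < t, rg px (l.take k) < S := by
    intro k hk
    by_contra h3
    exact Nat.find_min hex hk ⟨by omega, not_lt.1 h3⟩
  have hlt : (l.take t).length = t := by rw [List.length_take, min_eq_left htl]
  -- indices attaining the range
  have hij : ∃ i ≤ t, ∃ j ≤ t, (S : ℤ) ≤ (pos l i).1 - (pos l j).1 := by
    by_contra hcon
    push Not at hcon
    have : rg px (l.take t) ≤ S - 1 := rg_le fun i j hi hj => by
      rw [hlt] at hi hj
      rw [pos_take _ hi, pos_take _ hj]
      have := hcon i hi j hj
      simp only [px_apply]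
      omega
    omega
  obtain ⟨i, hi, j, hj, hS1⟩ := hij
  -- one of the indices is t
  have hone : i = t ∨ j = t := by
    by_contra hcon
    push Not at hcon
    have h1 : max i j < t := by omega
    have h2 := hmin _ h1
    have h3 := rg_ge px (l.take (max i j)) (i := i) (j := j)
      (by rw [List.length_take]; omega) (by rw [List.length_take]; omega)
    rw [pos_take _ (le_max_left i j), pos_take _ (le_max_right i j)] at h3
    simp only [px_apply] at h3
    omega
  rcases hone with hit | hjt
  · rw [hit] at hi hS1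
    obtain ⟨k, hk, hk1, hk2⟩ := last_min (fun i => (pos l i).1) t
    have hk3 := hk1 j hj
    have hki : k < t := by
      rcases Nat.lt_or_ge k t with h' | h'
      · exact h'
      · have : k = t := by omega
        rw [this] at hk3
        omega
    refine ⟨k, by omega, hmin k hki, Or.inl ⟨t - k, ?_, ?_, ?_⟩⟩
    · rw [List.length_drop]; omega
    · rw [pos_drop _ (by omega), show k + (t - k) = t by omega, Prod.fst_sub]
      omega
    · intro i' h1 h2
      rw [pos_drop _ (by omega), Prod.fst_sub]
      have := hk2 (k + i') (by omega) (by omega)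
      omega
  · rw [hjt] at hj hS1
    obtain ⟨k, hk, hk1, hk2⟩ := last_max (fun i => (pos l i).1) t
    have hk3 := hk1 i hi
    have hki : k < t := by
      rcases Nat.lt_or_ge k t with h' | h'
      · exact h'
      · have : k = t := by omega
        rw [this] at hk3
        omega
    refine ⟨k, by omega, hmin k hki, Or.inr ⟨t - k, ?_, ?_, ?_⟩⟩
    · rw [List.length_drop]; omega
    · rw [pos_drop _ (by omega), show k + (t - k) = t by omega, Prod.fst_sub]
      omega
    · intro i' h1 h2
      rw [pos_drop _ (by omega), Prod.fst_sub]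
      have := hk2 (k + i') (by omega) (by omega)
      omega

theorem first_hit {l : List Pt} (hu : ∀ s ∈ l, Un s) {c : ℤ} (hc : 0 < c)
    (h : c ≤ (pos l l.length).1) : ∃ t ≤ l.length, (pos l t).1 = c ∧ ∀ i < t, (pos l i).1 < c := by
  classical
  have hex : ∃ t, t ≤ l.length ∧ c ≤ (pos l t).1 := ⟨l.length, le_rfl, h⟩
  set t := Nat.find hex with ht
  obtain ⟨htl, htS⟩ := Nat.find_spec hex
  rw [← ht] at htl htS
  have hmin : ∀ k < t, (pos l k).1 < c := by
    intro k hk
    by_contra h3
    exact Nat.find_min hex hk ⟨by omega, not_lt.1 h3⟩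
  refine ⟨t, htl, ?_, hmin⟩
  rcases Nat.eq_zero_or_pos t with h0 | h0
  · rw [h0] at htS
    simp at htS
    omega
  · have h1 := hmin (t - 1) (by omega)
    have h2 := pos_succ l (show t - 1 < l.length by omega)
    rw [show t - 1 + 1 = t by omega] at h2
    have h3 := (hu _ (List.getElem_mem (show t - 1 < l.length by omega))).bounds
    rw [h2, Prod.fst_add] at htS ⊢
    omega

/-- cut of an S-monotone bridge at the column 2S -/
theorem col_cut {S : ℕ} (hS : 0 < S) {l : List Pt} (hb : Bridge l) (hm : Smono S l)
    (h : 2 * (S : ℤ) ≤ l.sum.1) : ∃ a b c, l = a ++ (b ++ c) ∧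
      (Bridge a ∧ 2 * (S : ℤ) ≤ a.sum.1 ∧ a.sum.1 < 3 * S) ∧
      (Bridge (b.map fl) ∧ (b.map fl).sum.1 < S) ∧ (Bridge c ∧ Smono S c) := by
  obtain ⟨t, htl, ht1, ht2⟩ := first_hit hb.1.1 (c := 2 * (S : ℤ)) (by omega)
    (by rw [pos_len]; exact h)
  -- last minimum on [t, end]
  obtain ⟨lam', hlam', hl1, hl2⟩ := last_min (fun i => (pos l (t + i)).1) (l.length - t)
  set lam := t + lam' with hlam
  have hll : lam ≤ l.length := by omega
  have hl1' : ∀ i, t ≤ i → i ≤ l.length → (pos l lam).1 ≤ (pos l i).1 := by
    intro i h1 h2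
    have := hl1 (i - t) (by omega)
    simp only [show t + (i - t) = i by omega] at this
    exact this
  have hl2' : ∀ i, lam < i → i ≤ l.length → (pos l lam).1 < (pos l i).1 := by
    intro i h1 h2
    have := hl2 (i - t) (by omega) (by omega)
    simp only [show t + (i - t) = i by omega] at this
    exact this
  obtain ⟨rho, hrl, hr1, hr2⟩ := last_max (fun i => (pos l i).1) lam
  have hrt : t ≤ rho := by
    by_contra h1
    have h2 := ht2 rho (by omega)
    have h3 := hr1 t (by omega)
    omega
  have hm1 := hr1 t (by omega)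
  have hm2 := hm rho lam hrl hll
  have hm3 := hl1' t le_rfl htl
  have hlr : (l.drop rho).length = l.length - rho := by rw [List.length_drop]
  have hrl' : rho ≤ l.length := by omega
  refine ⟨l.take rho, (l.drop rho).take (lam - rho), (l.drop rho).drop (lam - rho), ?_, ?_, ?_, ?_⟩
  · rw [List.take_append_drop, List.take_append_drop]
  · refine ⟨hb.take hrl' fun j hj => hr1 j (by omega), ?_, ?_⟩
    · show 2 * (S : ℤ) ≤ (pos l rho).1
      omega
    · show (pos l rho).1 < 3 * S
      omega
  · have hlen : ((l.drop rho).take (lam - rho)).length = lam - rho := by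
      rw [List.length_take, hlr]; omega
    have hp : ∀ i ≤ lam - rho, (pos (((l.drop rho).take (lam - rho)).map fl) i).1 =
        (pos l rho).1 - (pos l (rho + i)).1 := by
      intro i hi
      rw [pos_flip, pos_take _ hi, pos_drop _ hrl']
      simp only [fl, Prod.fst_sub]
      omega
    refine ⟨⟨((hb.1.drop hrl').take _).flip, fun i h1 h2 => ?_⟩, ?_⟩
    · rw [List.length_map, hlen] at h2 ⊢
      rw [hp i h2, hp _ le_rfl, show rho + (lam - rho) = lam by omega]
      have e1 := hr2 (rho + i) (by omega) (by omega)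
      have e2 := hl1' (rho + i) (by omega) (by omega)
      omega
    · rw [← pos_len, List.length_map, hlen, hp _ le_rfl, show rho + (lam - rho) = lam by omega]
      exact hm2
  · rw [List.drop_drop, show rho + (lam - rho) = lam by omega]
    refine ⟨hb.drop hll hl2', ?_⟩
    intro i j hij hj
    rw [List.length_drop] at hj
    rw [pos_drop _ hll, pos_drop _ hll, Prod.fst_sub, Prod.fst_sub]
    have := hm (lam + i) (lam + j) (by omega) (by omega)
    omega

end Pool.Agent.Work.MP_376faf_co_win
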